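import Pool.Agent.Work.MP_807b32_lc.TreeDefs

/-!
The decision version of tree evaluation for nondeterministic branching programs.
-/

namespace Pool.Agent.Work.MP_807b32_lc.Tree

/-- The program decides whether the root has the value `o`: the final state labelled `o` can be
reached from the start state exactly on the inputs whose root value is `o`. -/
def Decides {k H : ℕ} {S : Type} (P : BP (Var k H) k S) (o : Fin k) : Prop :=
  ∀ I : Var k H → Fin k, (∃ qs, Comp P I P.start qs (P.final o)) ↔ value H I = o

/-- Every computation from the start state to the final state labelled `o` makes thrifty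
queries only. -/
def ThriftyTo {k H : ℕ} {S : Type} (P : BP (Var k H) k S) (o : Fin k) : Prop :=
  ∀ (I : Var k H → Fin k) (qs : List (Var k H)),
    Comp P I P.start qs (P.final o) → ∀ q ∈ qs, ThriftyQuery H I q

end Pool.Agent.Work.MP_807b32_lc.Tree
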