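import Mathlib
import Pool.Agent.Work.MP_807b32_lc.TreeDecide

-- merged part: Pool.Agent.Work.MP_807b32_lc.LowCount
section
/-!
Counting lemmas for the lower bound on thrifty branching programs.
-/

set_option linter.unusedSectionVars false

namespace Pool.Agent.Work.MP_807b32_lc.Low

open Finset

variable {ι : Type} [Fintype ι] [DecidableEq ι] {k : ℕ}

open Classical in
/-- The points of `X` that agree with `x` outside `Z` and have the same image under `A`. -/
noncomputable def fib {β : Type} (X : Finset (ι → Fin k)) (Z : Finset ι) (A : (ι → Fin k) → β)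
    (x : ι → Fin k) : Finset (ι → Fin k) :=
  X.filter fun y => (∀ u, u ∉ Z → y u = x u) ∧ A y = A x

theorem mem_fib {β : Type} {X : Finset (ι → Fin k)} {Z : Finset ι} {A : (ι → Fin k) → β}
    {x y : ι → Fin k} : y ∈ fib X Z A x ↔ y ∈ X ∧ (∀ u, u ∉ Z → y u = x u) ∧ A y = A x := by
  unfold fib
  simp only [mem_filter]

theorem card_agree (Z : Finset ι) (x : ι → Fin k) (Y : Finset (ι → Fin k))
    (h : ∀ y ∈ Y, ∀ u, u ∉ Z → y u = x u) : Y.card ≤ k ^ Z.card := by
  have : Y.card ≤ (univ : Finset (Z → Fin k)).card := by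
    refine card_le_card_of_injOn (fun y u => y u.1) (fun _ _ => by simp) ?_
    intro y hy y' hy' e
    funext u
    by_cases hu : u ∈ Z
    · exact congrFun e ⟨u, hu⟩
    · rw [h y hy u hu, h y' hy' u hu]
  simpa using this

theorem card_le_of_fib {β : Type} [Fintype β] (X : Finset (ι → Fin k)) (Z : Finset ι)
    (A : (ι → Fin k) → β) (F : ℝ) (hF : 0 ≤ F) (h : ∀ x ∈ X, ((fib X Z A x).card : ℝ) ≤ F) :
    (X.card : ℝ) * (k : ℝ) ^ Z.card ≤ F * Fintype.card β * (k : ℝ) ^ Fintype.card ι := by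
  classical
  let g : (ι → Fin k) → β × ((Zᶜ : Finset ι) → Fin k) := fun x => (A x, fun u => x u.1)
  have h1 : X.card ≤ ⌊F⌋₊ * (univ : Finset (β × ((Zᶜ : Finset ι) → Fin k))).card := by
    refine card_le_mul_card_image_of_maps_to (f := g) (fun _ _ => mem_univ _) _ ?_
    intro b _
    rcases (X.filter fun a => g a = b).eq_empty_or_nonempty with he | ⟨x, hx⟩
    · rw [he]; simp
    · rw [mem_filter] at hx
      refine Nat.le_floor (le_trans ?_ (h x hx.1))
      refine Nat.cast_le.2 (card_le_card ?_)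
      intro y hy
      rw [mem_filter] at hy
      have e : g y = g x := hy.2.trans hx.2.symm
      refine mem_fib.2 ⟨hy.1, fun u hu => ?_, congrArg Prod.fst e⟩
      exact congrFun (congrArg Prod.snd e) ⟨u, mem_compl.2 hu⟩
  have h2 : (univ : Finset (β × ((Zᶜ : Finset ι) → Fin k))).card =
      Fintype.card β * k ^ (Zᶜ).card := by simp [card_compl]
  have h3 : (Zᶜ).card + Z.card = Fintype.card ι := by
    rw [add_comm]; exact card_add_card_compl Z
  rw [h2] at h1
  have h4 : (X.card : ℝ) ≤ F * (Fintype.card β * (k : ℝ) ^ (Zᶜ).card) := by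
    have : (X.card : ℝ) ≤ (⌊F⌋₊ : ℝ) * (Fintype.card β * (k : ℝ) ^ (Zᶜ).card) := by
      exact_mod_cast h1
    exact this.trans (mul_le_mul_of_nonneg_right (Nat.floor_le hF) (by positivity))
  rw [← h3, pow_add]
  calc (X.card : ℝ) * (k : ℝ) ^ Z.card
      ≤ F * (Fintype.card β * (k : ℝ) ^ (Zᶜ).card) * (k : ℝ) ^ Z.card :=
        mul_le_mul_of_nonneg_right h4 (by positivity)
    _ = _ := by ring

theorem sum_fib_mul {β : Type} (X : Finset (ι → Fin k)) (Z : Finset ι)
    (A B : (ι → Fin k) → β) (F : ℝ) (hF : 0 ≤ F)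
    (h : ∀ x ∈ X, ((fib X Z (fun y => (A y, B y)) x).card : ℝ) ≤ F) :
    ∑ x ∈ X, ((fib X Z A x).card : ℝ) * (fib X Z B x).card ≤
      (k : ℝ) ^ Fintype.card ι * ((k : ℝ) ^ Z.card * F) := by
  classical
  have e : ∑ x ∈ X, ((fib X Z A x).card : ℝ) * (fib X Z B x).card =
      ∑ y ∈ X, ∑ z ∈ X, ((X.filter fun x => y ∈ fib X Z A x ∧ z ∈ fib X Z B x).card : ℝ) := by
    have : ∀ x ∈ X, ((fib X Z A x).card : ℝ) * (fib X Z B x).card =
        ∑ y ∈ X, ∑ z ∈ X, if y ∈ fib X Z A x ∧ z ∈ fib X Z B x then (1 : ℝ) else 0 := by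
      intro x _
      have hA : ((fib X Z A x).card : ℝ) = ∑ y ∈ X, if y ∈ fib X Z A x then (1 : ℝ) else 0 := by
        rw [sum_boole, filter_mem_eq_inter, inter_eq_right.2 (fun y hy => (mem_fib.1 hy).1)]
      have hB : ((fib X Z B x).card : ℝ) = ∑ y ∈ X, if y ∈ fib X Z B x then (1 : ℝ) else 0 := by
        rw [sum_boole, filter_mem_eq_inter, inter_eq_right.2 (fun y hy => (mem_fib.1 hy).1)]
      rw [hA, hB, sum_mul_sum]
      refine sum_congr rfl fun y _ => sum_congr rfl fun z _ => ?_
      by_cases h1 : y ∈ fib X Z A x <;> by_cases h2 : z ∈ fib X Z B x <;> simp [h1, h2]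
    rw [sum_congr rfl this, sum_comm]
    refine sum_congr rfl fun y _ => ?_
    rw [sum_comm]
    refine sum_congr rfl fun z _ => ?_
    rw [sum_boole]
  rw [e]
  have hX : (X.card : ℝ) ≤ (k : ℝ) ^ Fintype.card ι := by
    have : X.card ≤ k ^ Fintype.card ι := by simpa using card_le_univ X
    exact_mod_cast this
  have inner : ∀ y ∈ X,
      ∑ z ∈ X, ((X.filter fun x => y ∈ fib X Z A x ∧ z ∈ fib X Z B x).card : ℝ) ≤
        (k : ℝ) ^ Z.card * F := by
    intro y _
    let Y := X.filter fun z => ∀ u, u ∉ Z → z u = y u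
    have hY : (Y.card : ℝ) ≤ (k : ℝ) ^ Z.card := by
      exact_mod_cast card_agree Z y Y fun z hz => (mem_filter.1 hz).2
    rw [← sum_subset (s₁ := Y) (filter_subset _ _)]
    · refine (sum_le_card_nsmul _ _ F ?_).trans ?_
      · intro z _
        rcases (X.filter fun x => y ∈ fib X Z A x ∧ z ∈ fib X Z B x).eq_empty_or_nonempty with
          he | ⟨x, hx⟩
        · rw [he]; simpa using hF
        · rw [mem_filter, mem_fib, mem_fib] at hx
          refine le_trans (Nat.cast_le.2 (card_le_card ?_)) (h x hx.1)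
          intro x' hx'
          rw [mem_filter, mem_fib, mem_fib] at hx'
          refine mem_fib.2 ⟨hx'.1, fun u hu => ?_, ?_⟩
          · rw [← hx'.2.1.2.1 u hu, hx.2.1.2.1 u hu]
          · rw [← hx'.2.1.2.2, ← hx'.2.2.2.2, hx.2.1.2.2, hx.2.2.2.2]
      · rw [nsmul_eq_mul]
        exact mul_le_mul_of_nonneg_right hY hF
    · intro z hz hz'
      rw [Nat.cast_eq_zero, card_eq_zero, filter_eq_empty_iff]
      intro x _ hx
      rw [mem_fib, mem_fib] at hx
      exact hz' (mem_filter.2 ⟨hz, fun u hu => by rw [hx.2.2.1 u hu, hx.1.2.1 u hu]⟩)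
  refine (sum_le_card_nsmul _ _ _ inner).trans ?_
  rw [nsmul_eq_mul]
  exact mul_le_mul_of_nonneg_right hX (by positivity)

/-- If the pair `(A, B)` has small fibres, then on a dense part one of `A`, `B` has fibres of
about the geometric mean size. -/
theorem split {β : Type} (hk : 0 < k) (X : Finset (ι → Fin k)) (Z : Finset ι)
    (A B : (ι → Fin k) → β) (F g ρ : ℝ) (hF : 0 < F) (hg : 0 < g) (hρ : 0 < ρ)
    (hX : ρ * (k : ℝ) ^ Fintype.card ι ≤ X.card) (hFg : F * g ≤ (k : ℝ) ^ Z.card)
    (h : ∀ x ∈ X, ((fib X Z (fun y => (A y, B y)) x).card : ℝ) ≤ F) :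
    ∃ (Y : Finset (ι → Fin k)) (M : ℝ), Y ⊆ X ∧ 0 < M ∧
      ρ / 4 * (k : ℝ) ^ Fintype.card ι ≤ Y.card ∧ M * √(ρ / 2 * g) ≤ (k : ℝ) ^ Z.card ∧
      ((∀ x ∈ Y, ((fib Y Z A x).card : ℝ) ≤ M) ∨ ∀ x ∈ Y, ((fib Y Z B x).card : ℝ) ≤ M) := by
  classical
  have hk0 : (0 : ℝ) < k := by exact_mod_cast hk
  set K : ℝ := (k : ℝ) ^ Z.card with hK
  set E : ℝ := (k : ℝ) ^ Fintype.card ι with hE
  have hK0 : 0 < K := by positivity
  have hE0 : 0 < E := by positivity
  set M : ℝ := √(K * F / (ρ / 2)) with hM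
  have hM0 : 0 < M := Real.sqrt_pos.2 (by positivity)
  have hM2 : M * M = K * F / (ρ / 2) := Real.mul_self_sqrt (by positivity)
  let YA := X.filter fun x => ((fib X Z A x).card : ℝ) ≤ M
  let YB := X.filter fun x => ((fib X Z B x).card : ℝ) ≤ M
  let bad := X.filter fun x => M < (fib X Z A x).card ∧ M < (fib X Z B x).card
  have hbad : (bad.card : ℝ) * (M * M) ≤ E * (K * F) := by
    refine le_trans ?_ (sum_fib_mul X Z A B F hF.le h)
    refine le_trans ?_ (sum_le_sum_of_subset_of_nonneg (filter_subset _ X : bad ⊆ X)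
      fun _ _ _ => by positivity)
    rw [← nsmul_eq_mul]
    refine card_nsmul_le_sum _ _ _ fun x hx => ?_
    have := (mem_filter.1 hx).2
    exact mul_le_mul this.1.le this.2.le hM0.le (by positivity)
  have hbad' : (bad.card : ℝ) ≤ ρ / 2 * E := by
    rw [hM2] at hbad
    have h1 : (bad.card : ℝ) * (K * F) ≤ (ρ / 2 * E) * (K * F) := by
      have : (bad.card : ℝ) * (K * F) = (bad.card * (K * F / (ρ / 2))) * (ρ / 2) := by
        field_simp
      rw [this]
      calc _ ≤ E * (K * F) * (ρ / 2) := mul_le_mul_of_nonneg_right hbad (by positivity)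
        _ = _ := by ring
    exact le_of_mul_le_mul_right h1 (by positivity)
  have hcov : X.card ≤ YA.card + YB.card + bad.card := by
    refine le_trans (card_le_card (t := YA ∪ YB ∪ bad) ?_) ?_
    · intro x hx
      simp only [YA, YB, bad, mem_union, mem_filter]
      by_cases h1 : ((fib X Z A x).card : ℝ) ≤ M
      · exact Or.inl (Or.inl ⟨hx, h1⟩)
      · by_cases h2 : ((fib X Z B x).card : ℝ) ≤ M
        · exact Or.inl (Or.inr ⟨hx, h2⟩)
        · exact Or.inr ⟨hx, not_le.1 h1, not_le.1 h2⟩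
    · exact (card_union_le _ _).trans (Nat.add_le_add_right (card_union_le _ _) _)
  have hcov' : (X.card : ℝ) ≤ YA.card + YB.card + bad.card := by exact_mod_cast hcov
  have hMK : M * √(ρ / 2 * g) ≤ K := by
    rw [hM, ← Real.sqrt_mul (by positivity)]
    refine Real.sqrt_le_iff.2 ⟨hK0.le, ?_⟩
    have : K * F / (ρ / 2) * (ρ / 2 * g) = K * (F * g) := by field_simp
    rw [this, sq]
    exact mul_le_mul_of_nonneg_left hFg hK0.le
  have mono : ∀ (Y : Finset (ι → Fin k)) (C : (ι → Fin k) → β) x, Y ⊆ X →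
      ((fib Y Z C x).card : ℝ) ≤ (fib X Z C x).card := fun Y C x hY =>
    Nat.cast_le.2 (card_le_card fun y hy =>
      mem_fib.2 ⟨hY (mem_fib.1 hy).1, (mem_fib.1 hy).2⟩)
  by_cases hc : ρ / 4 * E ≤ YA.card
  · exact ⟨YA, M, filter_subset _ _, hM0, hc, hMK, Or.inl fun x hx =>
      (mono _ _ _ (filter_subset _ _)).trans (mem_filter.1 hx).2⟩
  · refine ⟨YB, M, filter_subset _ _, hM0, by linarith [not_le.1 hc], hMK, Or.inr fun x hx =>
      (mono _ _ _ (filter_subset _ _)).trans (mem_filter.1 hx).2⟩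

/-- Pigeonhole: a dense set has a dense part on which a finite-valued function is constant. -/
theorem pigeon {τ : Type} [Fintype τ] [Nonempty τ] (X : Finset (ι → Fin k))
    (f : (ι → Fin k) → τ) :
    ∃ (Y : Finset (ι → Fin k)) (c : τ), Y ⊆ X ∧ (X.card : ℝ) ≤ Fintype.card τ * Y.card ∧
      ∀ x ∈ Y, f x = c := by
  classical
  obtain ⟨c, -, hc⟩ := exists_max_image (univ : Finset τ)
    (fun c => (X.filter fun x => f x = c).card) univ_nonempty
  refine ⟨X.filter fun x => f x = c, c, filter_subset _ _, ?_, fun x hx => (mem_filter.1 hx).2⟩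
  have := card_le_mul_card_image_of_maps_to (s := X) (t := univ) (f := f)
    (fun _ _ => mem_univ _) _ hc
  rw [card_univ, mul_comm] at this
  exact_mod_cast this

end Pool.Agent.Work.MP_807b32_lc.Low
end

-- merged part: Pool.Agent.Work.MP_807b32_lc.LowRound
section
/-!
The combinatorial step of the lower bound: an interval of a query sequence around a given query.
-/

set_option linter.unusedSectionVars false

namespace Pool.Agent.Work.MP_807b32_lc.Low

open Finset

/-- The shape of a binary tree with leaves at depth `H`. -/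
structure Tr (ι : Type) where
  H : ℕ
  dep : ι → ℕ
  ch : ι → Bool → ι
  root : ι
  dep_root : dep root = 0
  dep_ch : ∀ u b, dep u < H → dep (ch u b) = dep u + 1
  ch_inj : ∀ u u' b b', dep u < H → dep u' < H → ch u b = ch u' b' → u = u' ∧ b = b'

variable {ι : Type} [DecidableEq ι] (T : Tr ι)

/-- The children of the members of `W`. -/
def Tr.chs (W : Finset ι) : Finset ι := (W ×ˢ (univ : Finset Bool)).image fun p => T.ch p.1 p.2

/-- The children of the members of `W` that are not in `W`. -/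
def Tr.bd (W : Finset ι) : Finset ι := T.chs W \ W

theorem Tr.mem_chs {W : Finset ι} {z : ι} : z ∈ T.chs W ↔ ∃ u ∈ W, ∃ b, T.ch u b = z := by
  simp [Tr.chs]

theorem Tr.mem_bd {W : Finset ι} {z : ι} :
    z ∈ T.bd W ↔ (∃ u ∈ W, ∃ b, T.ch u b = z) ∧ z ∉ W := by
  rw [Tr.bd, mem_sdiff, T.mem_chs]

theorem Tr.card_chs {W : Finset ι} (h : ∀ u ∈ W, T.dep u < T.H) :
    (T.chs W).card = W.card * 2 := by
  rw [Tr.chs, card_image_of_injOn, card_product]
  · simp
  · intro p hp p' hp' e
    have := T.ch_inj _ _ _ _ (h _ (mem_product.1 hp).1) (h _ (mem_product.1 hp').1) e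
    exact Prod.ext this.1 this.2

theorem Tr.card_bd {W : Finset ι} (h : ∀ u ∈ W, T.dep u < T.H) (hW : W.Nonempty) :
    W.card + 1 ≤ (T.bd W).card := by
  obtain ⟨m, hm, hmin⟩ := exists_min_image W T.dep hW
  have h1 : T.chs W ⊆ T.bd W ∪ W.erase m := by
    intro z hz
    by_cases hzW : z ∈ W
    · refine mem_union_right _ (mem_erase.2 ⟨?_, hzW⟩)
      rintro rfl
      obtain ⟨u, hu, b, e⟩ := T.mem_chs.1 hz
      have := T.dep_ch u b (h u hu)
      have := hmin u hu
      rw [e] at *
      omega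
    · exact mem_union_left _ (mem_sdiff.2 ⟨hz, hzW⟩)
  have h2 := (card_le_card h1).trans (card_union_le _ _)
  rw [T.card_chs h, card_erase_of_mem hm] at h2
  have := hW.card_pos
  omega

theorem Tr.card_bd_far {W : Finset ι} (h : ∀ u ∈ W, T.dep u < T.H) {w y : ι} (hw : w ∈ W)
    (hy : y ∈ W) (hd : T.dep y + 2 ≤ T.dep w) : 4 ≤ (T.bd W).card := by
  by_cases h3 : 3 ≤ W.card
  · have := T.card_bd h ⟨w, hw⟩
    omega
  · have hne : w ≠ y := by rintro rfl; omega
    have hW : W = {w, y} := by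
      symm
      refine eq_of_subset_of_card_le ?_ ?_
      · intro u hu
        rcases mem_insert.1 hu with rfl | hu
        · exact hw
        · rw [mem_singleton.1 hu]; exact hy
      · rw [card_pair hne]; omega
    have h1 : T.chs W ⊆ T.bd W := by
      intro z hz
      refine mem_sdiff.2 ⟨hz, fun hzW => ?_⟩
      obtain ⟨u, hu, b, e⟩ := T.mem_chs.1 hz
      have h2 := T.dep_ch u b (h u hu)
      rw [e] at h2
      rw [hW, mem_insert, mem_singleton] at hzW hu
      rcases hzW with rfl | rfl <;> rcases hu with rfl | rfl <;> omega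
    have h2 := card_le_card h1
    rw [T.card_chs h, hW, card_pair hne] at h2
    rw [hW]
    exact h2

theorem exists_interval (P : ℕ → Prop) (lo hi t : ℕ) (h1 : lo ≤ t) (h2 : t < hi) :
    ∃ a b, lo ≤ a ∧ a ≤ t ∧ t < b ∧ b ≤ hi ∧ (∀ s, a < s → s < b → s ≠ t → ¬ P s) ∧
      (a = lo ∨ P a) ∧ (b = hi ∨ P b) := by
  classical
  have hex : ∃ s, t < s ∧ (s = hi ∨ P s) := ⟨hi, h2, Or.inl rfl⟩
  let Q : ℕ → Prop := fun s => s = lo ∨ (lo ≤ s ∧ s < t ∧ P s)
  have hQ : Q (Nat.findGreatest Q t) := Nat.findGreatest_spec (m := lo) h1 (Or.inl rfl)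
  have hlo : lo ≤ Nat.findGreatest Q t := Nat.le_findGreatest h1 (Or.inl rfl)
  refine ⟨Nat.findGreatest Q t, Nat.find hex, hlo, Nat.findGreatest_le _, (Nat.find_spec hex).1,
    Nat.find_min' hex ⟨h2, Or.inl rfl⟩, ?_, ?_, (Nat.find_spec hex).2⟩
  · intro s hs hs' hst hP
    rcases lt_or_gt_of_ne hst with h | h
    · exact Nat.findGreatest_is_greatest hs h.le (Or.inr ⟨by omega, h, hP⟩)
    · exact Nat.find_min hex hs' ⟨h, Or.inr hP⟩
  · rcases hQ with h | h
    · exact Or.inl h
    · exact Or.inr h.2.2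

/-- What is known about a node `u` queried at an end of the interval. -/
structure EndOk (q : ℕ → ι) (d a b : ℕ) (Y : Finset ι) (m : Bool) (u : ι) : Prop where
  lo : d + 2 ≤ T.dep u
  hi : T.dep u ≤ d + 5
  le : ∀ z ∈ Y, T.dep z ≤ T.dep u
  lt : m = true → ∀ z ∈ Y, T.dep z < T.dep u
  fresh : ∀ s, a < s → s < b → q s ≠ u

/-- The outcome of one round: an interval `[a, b)` around the time `t` and its type `c`. -/
structure Out (q : ℕ → ι) (L t d : ℕ) (Z : Finset ι) (a b : ℕ)
    (c : Finset ι × Bool × Option ι × Option ι) : Prop where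
  a_le : a ≤ t
  lt_b : t < b
  b_le : b ≤ L
  free : ∀ s, a ≤ s → s < b → q s ∉ c.1
  pos : ∀ z ∈ c.1, 0 < T.dep z
  left0 : c.2.2.1 = none → a = 0
  left1 : ∀ u, c.2.2.1 = some u → q a = u ∧ EndOk T q d a b c.1 c.2.1 u
  right0 : c.2.2.2 = none → b = L
  right1 : ∀ u, c.2.2.2 = some u → b < L ∧ q b = u ∧ EndOk T q d a b c.1 c.2.1 u
  claim : ∀ z ∈ c.1, (c.2.1 = true ∧ z ∈ Z) ∨
    ∃ s bit, a ≤ s ∧ s < b ∧ T.dep (q s) < T.H ∧ T.ch (q s) bit = z
  big1 : c.2.1 = true → Z.card + 2 ≤ c.1.card ∧ ∀ s, a ≤ s → s < b → d ≤ T.dep (q s) + 1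
  big0 : c.2.1 = false → 4 ≤ c.1.card

theorem out_aux (q : ℕ → ι) (L t d : ℕ) (Z : Finset ι) (a b μ ν : ℕ) (hd : T.dep (q t) = d)
    (hH : d + 5 < T.H) (hZ : ∀ z ∈ Z, 0 < T.dep z ∧ T.dep z < d)
    (hat : a ≤ t) (htb : t < b) (hbL : b ≤ L) (h1 : d + 2 ≤ μ) (h2 : μ ≤ ν) (h3 : ν ≤ d + 5)
    (hin : ∀ s, a ≤ s → s < b → T.dep (q s) < μ ∨ d + 5 < T.dep (q s) ∨
      (s = a ∧ ν ≤ T.dep (q s)))
    (hL : a = 0 ∨ (ν ≤ T.dep (q a) ∧ T.dep (q a) ≤ d + 5))
    (hR : b = L ∨ (ν ≤ T.dep (q b) ∧ T.dep (q b) ≤ d + 5))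
    (hc : μ < ν ∨ 4 ≤ (((Ico a b).filter fun s => T.dep (q s) < μ).image q).card) :
    ∃ c, Out T q L t d Z a b c := by
  classical
  set W := ((Ico a b).filter fun s => T.dep (q s) < μ).image q with hW
  have memW : ∀ u, u ∈ W ↔ ∃ s, a ≤ s ∧ s < b ∧ T.dep (q s) < μ ∧ q s = u := by
    intro u
    simp only [hW, mem_image, mem_filter, mem_Ico, and_assoc]
  have depW : ∀ u ∈ W, T.dep u < μ := by
    intro u hu
    obtain ⟨s, -, -, h, rfl⟩ := (memW u).1 hu
    exact h
  have intW : ∀ u ∈ W, T.dep u < T.H := fun u hu => by have := depW u hu; omega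
  have hw : q t ∈ W := (memW _).2 ⟨t, hat, htb, by omega, rfl⟩
  have bdW : ∀ z ∈ T.bd W, 0 < T.dep z ∧ T.dep z ≤ μ ∧ z ∉ W ∧
      ∃ s bit, a ≤ s ∧ s < b ∧ T.dep (q s) < T.H ∧ T.ch (q s) bit = z := by
    intro z hz
    obtain ⟨⟨u, hu, bit, e⟩, hz'⟩ := T.mem_bd.1 hz
    have h4 := T.dep_ch u bit (intW u hu)
    have h5 := depW u hu
    obtain ⟨s, hs1, hs2, -, rfl⟩ := (memW u).1 hu
    rw [e] at h4
    exact ⟨by omega, by omega, hz', s, bit, hs1, hs2, by omega, e⟩
  have fresh : ∀ u, ν ≤ T.dep u → T.dep u ≤ d + 5 → ∀ s, a < s → s < b → q s ≠ u := by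
    rintro u hu hu' s hs hs' rfl
    have := hin s hs.le hs'
    omega
  let oL : Option ι := if ν ≤ T.dep (q a) ∧ T.dep (q a) ≤ d + 5 then some (q a) else none
  let oR : Option ι := if b < L then some (q b) else none
  have hoL0 : oL = none → a = 0 := by
    intro h
    rcases hL with h' | h'
    · exact h'
    · simp [oL, h'] at h
  have hoL1 : ∀ u, oL = some u → q a = u ∧ ν ≤ T.dep u ∧ T.dep u ≤ d + 5 := by
    intro u h
    by_cases h' : ν ≤ T.dep (q a) ∧ T.dep (q a) ≤ d + 5
    · simp only [oL, h', and_self, if_true, Option.some.injEq] at h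
      subst h
      exact ⟨rfl, h'⟩
    · simp [oL, h'] at h
  have hoR0 : oR = none → b = L := by
    intro h
    by_contra h'
    simp [oR, show b < L by omega] at h
  have hoR1 : ∀ u, oR = some u → b < L ∧ q b = u ∧ ν ≤ T.dep u ∧ T.dep u ≤ d + 5 := by
    intro u h
    by_cases h' : b < L
    · simp only [oR, h', if_true, Option.some.injEq] at h
      subst h
      rcases hR with h'' | h''
      · omega
      · exact ⟨h', rfl, h''⟩
    · simp [oR, h'] at h
  by_cases hm : μ < ν ∧ ∀ s, a ≤ s → s < b → d ≤ T.dep (q s) + 1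
  · have hdY : ∀ z ∈ (Z \ W) ∪ T.bd W, 0 < T.dep z ∧ T.dep z < ν ∧ z ∉ W := by
      intro z hz
      rcases mem_union.1 hz with h | h
      · have := hZ z (mem_sdiff.1 h).1
        exact ⟨this.1, by omega, (mem_sdiff.1 h).2⟩
      · have := bdW z h
        exact ⟨this.1, by omega, this.2.2.1⟩
    have hE : ∀ u, ν ≤ T.dep u → T.dep u ≤ d + 5 →
        EndOk T q d a b ((Z \ W) ∪ T.bd W) true u := fun u hu hu' =>
      ⟨by omega, hu', fun z hz => by have := hdY z hz; omega,
        fun _ z hz => by have := hdY z hz; omega, fresh u hu hu'⟩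
    refine ⟨((Z \ W) ∪ T.bd W, true, oL, oR), hat, htb, hbL, ?_, fun z hz => (hdY z hz).1, hoL0,
      fun u h => ⟨(hoL1 u h).1, hE u (hoL1 u h).2.1 (hoL1 u h).2.2⟩, hoR0,
      fun u h => ⟨(hoR1 u h).1, (hoR1 u h).2.1, hE u (hoR1 u h).2.2.1 (hoR1 u h).2.2.2⟩,
      ?_, fun _ => ⟨?_, hm.2⟩, fun h => by simp at h⟩
    · intro s hs hs' hz
      have h4 := hdY _ hz
      rcases hin s hs hs' with h | h | h
      · exact h4.2.2 ((memW _).2 ⟨s, hs, hs', h, rfl⟩)
      · omega
      · omega
    · intro z hz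
      rcases mem_union.1 hz with h | h
      · exact Or.inl ⟨rfl, (mem_sdiff.1 h).1⟩
      · exact Or.inr (bdW z h).2.2.2
    · have hdis : Disjoint (Z \ W) (T.bd W) := by
        rw [disjoint_left]
        intro z hz hz'
        obtain ⟨-, -, -, s, bit, hs, hs', hi, e⟩ := bdW z hz'
        have h4 := T.dep_ch _ bit hi
        have h5 := hm.2 s hs hs'
        have h6 := hZ z (mem_sdiff.1 hz).1
        rw [e] at h4
        omega
      have h4 : Z ⊆ (Z \ W) ∪ W.erase (q t) := by
        intro z hz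
        by_cases hzW : z ∈ W
        · refine mem_union_right _ (mem_erase.2 ⟨?_, hzW⟩)
          rintro rfl
          have := hZ _ hz
          omega
        · exact mem_union_left _ (mem_sdiff.2 ⟨hz, hzW⟩)
      have h5 := (card_le_card h4).trans (card_union_le _ _)
      have h6 := T.card_bd intW ⟨_, hw⟩
      have h7 := card_pos.2 ⟨_, hw⟩
      rw [card_erase_of_mem hw] at h5
      show Z.card + 2 ≤ ((Z \ W) ∪ T.bd W).card
      rw [card_union_of_disjoint hdis]
      omega
  · have hE : ∀ u, ν ≤ T.dep u → T.dep u ≤ d + 5 →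
        EndOk T q d a b ((T.bd W).erase (q a)) false u := fun u hu hu' =>
      ⟨by omega, hu', fun z hz => by have := bdW z (mem_of_mem_erase hz); omega,
        fun h => by simp at h, fresh u hu hu'⟩
    refine ⟨((T.bd W).erase (q a), false, oL, oR), hat, htb, hbL, ?_,
      fun z hz => (bdW z (mem_of_mem_erase hz)).1, hoL0,
      fun u h => ⟨(hoL1 u h).1, hE u (hoL1 u h).2.1 (hoL1 u h).2.2⟩, hoR0,
      fun u h => ⟨(hoR1 u h).1, (hoR1 u h).2.1, hE u (hoR1 u h).2.2.1 (hoR1 u h).2.2.2⟩,
      fun z hz => Or.inr (bdW z (mem_of_mem_erase hz)).2.2.2, fun h => by simp at h, fun _ => ?_⟩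
    · intro s hs hs' hz
      have h4 := bdW _ (mem_of_mem_erase hz)
      rcases hin s hs hs' with h | h | h
      · exact h4.2.2.1 ((memW _).2 ⟨s, hs, hs', h, rfl⟩)
      · omega
      · exact (mem_erase.1 hz).1 (by rw [h.1])
    · show 4 ≤ ((T.bd W).erase (q a)).card
      by_cases hμ : μ < ν
      · have : ∃ s, a ≤ s ∧ s < b ∧ T.dep (q s) + 2 ≤ d := by
          by_contra hn
          exact hm ⟨hμ, fun s hs hs' => by
            by_contra h
            exact hn ⟨s, hs, hs', by omega⟩⟩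
        obtain ⟨s, hs, hs', hs''⟩ := this
        have h4 := T.card_bd_far intW hw ((memW _).2 ⟨s, hs, hs', by omega, rfl⟩) (by omega)
        rw [erase_eq_of_notMem]
        · exact h4
        · intro hz
          have h5 := bdW _ hz
          rcases hin a le_rfl (by omega) with h | h | h
          · exact h5.2.2.1 ((memW _).2 ⟨a, le_rfl, by omega, h, rfl⟩)
          · omega
          · omega
      · have h4 := T.card_bd intW ⟨_, hw⟩
        have h5 := pred_card_le_card_erase (s := T.bd W) (a := q a)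
        omega

theorem exists_out (q : ℕ → ι) (L t d : ℕ) (Z : Finset ι) (ht : t < L) (hd : T.dep (q t) = d)
    (hH : d + 5 < T.H) (hZ : ∀ z ∈ Z, 0 < T.dep z ∧ T.dep z < d) :
    ∃ a b c, Out T q L t d Z a b c := by
  classical
  obtain ⟨a, b, -, hat, htb, hbL, hin, hL, hR⟩ :=
    exists_interval (fun s => T.dep (q s) = d + 5) 0 L t (Nat.zero_le _) ht
  by_cases hc : ∀ i, 2 ≤ i → i ≤ 4 → ∃ s, a ≤ s ∧ s < b ∧ T.dep (q s) = d + i
  · refine ⟨a, b, out_aux T q L t d Z a b (d + 5) (d + 5) hd hH hZ hat htb hbL (by omega) le_rfl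
      le_rfl ?_ (by omega) (by omega) (Or.inr ?_)⟩
    · intro s hs hs'
      have := hin s
      by_cases h : s = t
      · subst h; omega
      · omega
    · obtain ⟨s2, h21, h22, h23⟩ := hc 2 (by omega) (by omega)
      obtain ⟨s3, h31, h32, h33⟩ := hc 3 (by omega) (by omega)
      obtain ⟨s4, h41, h42, h43⟩ := hc 4 (by omega) (by omega)
      have hsub : ({d, d + 2, d + 3, d + 4} : Finset ℕ) ⊆
          (((Ico a b).filter fun s => T.dep (q s) < d + 5).image q).image T.dep := by
        intro n hn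
        simp only [mem_insert, mem_singleton] at hn
        simp only [mem_image, mem_filter, mem_Ico]
        rcases hn with rfl | rfl | rfl | rfl
        · exact ⟨_, ⟨t, ⟨⟨hat, htb⟩, by omega⟩, rfl⟩, hd⟩
        · exact ⟨_, ⟨s2, ⟨⟨h21, h22⟩, by omega⟩, rfl⟩, h23⟩
        · exact ⟨_, ⟨s3, ⟨⟨h31, h32⟩, by omega⟩, rfl⟩, h33⟩
        · exact ⟨_, ⟨s4, ⟨⟨h41, h42⟩, by omega⟩, rfl⟩, h43⟩
      have h1 := (card_le_card hsub).trans card_image_le
      have h2 : ({d, d + 2, d + 3, d + 4} : Finset ℕ).card = 4 := by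
        rw [card_insert_of_notMem (by simp), card_insert_of_notMem (by simp),
          card_pair (by omega)]
      omega
  · push Not at hc
    obtain ⟨i, hi, hi', hc⟩ := hc
    obtain ⟨a', b', haa, hat', htb', hbb, hin', hL', hR'⟩ :=
      exists_interval (fun s => d + i + 1 ≤ T.dep (q s) ∧ T.dep (q s) ≤ d + 5) a b t hat htb
    refine ⟨a', b', out_aux T q L t d Z a' b' (d + i) (d + i + 1) hd hH hZ hat' htb' (by omega)
      (by omega) (by omega) (by omega) ?_ ?_ ?_ (Or.inl (by omega))⟩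
    · intro s hs hs'
      have h1 := hin' s
      have h2 := hc s (by omega) (by omega)
      by_cases h : s = t
      · subst h; omega
      · omega
    · rcases hL' with rfl | h
      · omega
      · exact Or.inr h
    · rcases hR' with rfl | h
      · omega
      · exact Or.inr h

end Pool.Agent.Work.MP_807b32_lc.Low
end

-- merged part: Pool.Agent.Work.MP_807b32_lc.LowCore
section
/-!
The induction of the lower bound.
-/

set_option linter.unusedSectionVars false

namespace Pool.Agent.Work.MP_807b32_lc.Low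

open Finset

variable {ι : Type} [Fintype ι] [DecidableEq ι]

/-- A canonical accepting computation for each assignment of values to the nodes. -/
structure Run (T : Tr ι) (k : ℕ) (S : Type) where
  nd : S → ι
  len : (ι → Fin k) → ℕ
  path : (ι → Fin k) → ℕ → S
  start : ∀ x y, path x 0 = path y 0
  fin : ∀ x y, x T.root = y T.root → path x (len x) = path y (len y)
  det : ∀ x y i j b, i < len x → j < len y → path x i = path y j → T.dep (nd (path x i)) < T.H →
    x (T.ch (nd (path x i)) b) = y (T.ch (nd (path x i)) b)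
  swap : ∀ x y a b a' b', a ≤ b → b ≤ len x → a' ≤ b' → b' ≤ len y → path x a = path y a' →
    path x b = path y b' → (∀ i, a ≤ i → i < b → x (nd (path x i)) = y (nd (path x i))) →
    (∀ i, a' ≤ i → i < b' → x (nd (path y i)) = y (nd (path y i))) →
    b + a' = b' + a ∧ ∀ i, a + i ≤ b → path x (a + i) = path y (a' + i)

variable {T : Tr ι} {k : ℕ} {S : Type} (R : Run T k S)

/-- The time `t` is the first (`dir = false`) or last (`dir = true`) query to its node in the
stretch without queries two levels higher. -/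
def Bar (T : Tr ι) (q : ℕ → ι) (L t : ℕ) (dir : Bool) : Prop :=
  ∀ s, s < L → q s = q t → (if dir then t < s else s < t) →
    ∃ s', min s t < s' ∧ s' < max s t ∧ T.dep (q s') + 2 ≤ T.dep (q t)

/-- The invariant of the induction. -/
structure Good (X : Finset (ι → Fin k)) (Z : Finset ι) (w : ι) (t : (ι → Fin k) → ℕ)
    (dir : Bool) (F : ℝ) : Prop where
  dz : ∀ z ∈ Z, 0 < T.dep z ∧ T.dep z < T.dep w
  lt : ∀ x ∈ X, t x < R.len x
  at_w : ∀ x ∈ X, R.nd (R.path x (t x)) = w
  bar : ∀ x ∈ X, Bar T (fun s => R.nd (R.path x s)) (R.len x) (t x) dir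
  fibre : ∀ x ∈ X, ((fib X Z (fun y => R.path y (t y)) x).card : ℝ) ≤ F

theorem final_count [Fintype S] (hk : 0 < k) (X : Finset (ι → Fin k)) (Z : Finset ι) (w : ι)
    (t : (ι → Fin k) → ℕ) (F g ρ : ℝ) (hF : 0 < F) (hg : 0 < g)
    (hw : T.dep w < T.H) (hZ : ∀ z ∈ Z, T.dep z ≤ T.dep w)
    (hlt : ∀ x ∈ X, t x < R.len x) (hat : ∀ x ∈ X, R.nd (R.path x (t x)) = w)
    (hfib : ∀ x ∈ X, ((fib X Z (fun y => R.path y (t y)) x).card : ℝ) ≤ F)
    (hX : ρ * (k : ℝ) ^ Fintype.card ι ≤ X.card) (hFg : F * g ≤ (k : ℝ) ^ Z.card) :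
    ρ * g * (k : ℝ) ^ 2 ≤ Fintype.card S := by
  have hk0 : (0 : ℝ) < k := by exact_mod_cast hk
  have hn : ∀ b, T.ch w b ∉ Z := fun b h => by
    have := hZ _ h
    have := T.dep_ch w b hw
    omega
  have hne : T.ch w false ≠ T.ch w true := fun h => by simpa using (T.ch_inj _ _ _ _ hw hw h).2
  have hcard : (insert (T.ch w false) (insert (T.ch w true) Z)).card = Z.card + 2 := by
    rw [card_insert_of_notMem (by simp [hne, hn]), card_insert_of_notMem (hn _)]
  have h1 := card_le_of_fib X (insert (T.ch w false) (insert (T.ch w true) Z))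
    (fun y => R.path y (t y)) F hF.le fun x hx => by
      refine le_trans (Nat.cast_le.2 (card_le_card fun y hy => ?_)) (hfib x hx)
      rw [mem_fib] at hy ⊢
      refine ⟨hy.1, fun u hu => ?_, hy.2.2⟩
      have h2 := fun b => R.det y x _ _ b (hlt y hy.1) (hlt x hx) hy.2.2 (by rw [hat y hy.1]; exact hw)
      rw [hat y hy.1] at h2
      by_cases h3 : u = T.ch w false
      · rw [h3]; exact h2 _
      · by_cases h4 : u = T.ch w true
        · rw [h4]; exact h2 _
        · exact hy.2.1 u (by simp [h3, h4, hu])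
  rw [hcard, pow_add] at h1
  have hE : (0 : ℝ) < (k : ℝ) ^ Fintype.card ι := by positivity
  have h2 : (ρ * g * (k : ℝ) ^ 2) * (F * (k : ℝ) ^ Fintype.card ι) ≤
      Fintype.card S * (F * (k : ℝ) ^ Fintype.card ι) := by
    by_cases hρ : 0 ≤ ρ
    · calc _ = (ρ * (k : ℝ) ^ Fintype.card ι) * ((F * g) * (k : ℝ) ^ 2) := by ring
        _ ≤ X.card * ((k : ℝ) ^ Z.card * (k : ℝ) ^ 2) := by gcongr
        _ ≤ _ := h1
        _ = _ := by ring
    · have : ρ * g * (k : ℝ) ^ 2 ≤ 0 :=
        mul_nonpos_of_nonpos_of_nonneg (mul_nonpos_of_nonpos_of_nonneg (by linarith) hg.le)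
          (by positivity)
      exact mul_le_mul_of_nonneg_right (this.trans (by positivity)) (by positivity)
  exact le_of_mul_le_mul_right h2 (by positivity)

theorem trivial_count (hk : 0 < k) {β : Type} (X : Finset (ι → Fin k)) (Z : Finset ι)
    (A : (ι → Fin k) → β) (F g ρ : ℝ) (hF : 0 < F) (hg : 0 < g)
    (hA : ∀ x ∈ X, ∀ y ∈ X, (∀ u, u ∉ Z → y u = x u) → A y = A x)
    (hfib : ∀ x ∈ X, ((fib X Z A x).card : ℝ) ≤ F)
    (hX : ρ * (k : ℝ) ^ Fintype.card ι ≤ X.card) (hFg : F * g ≤ (k : ℝ) ^ Z.card) :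
    ρ * g ≤ 1 := by
  have hk0 : (0 : ℝ) < k := by exact_mod_cast hk
  have h1 := card_le_of_fib X Z (fun _ => ()) F hF.le fun x hx => by
    refine le_trans (Nat.cast_le.2 (card_le_card fun y hy => ?_)) (hfib x hx)
    rw [mem_fib] at hy ⊢
    exact ⟨hy.1, hy.2.1, hA x hx y hy.1 hy.2.1⟩
  have h2 : (ρ * g) * (F * (k : ℝ) ^ Fintype.card ι) ≤ 1 * (F * (k : ℝ) ^ Fintype.card ι) := by
    calc _ = (ρ * (k : ℝ) ^ Fintype.card ι) * (F * g) := by ring
      _ ≤ X.card * (k : ℝ) ^ Z.card := by gcongr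
      _ ≤ _ := h1
      _ = _ := by simp
  exact le_of_mul_le_mul_right h2 (by positivity)

/-- Two inputs of the same type with the same end states and the same values outside the set of
the type have the same inner computation. -/
theorem joint {X : Finset (ι → Fin k)} {Z : Finset ι} {w : ι} {t : (ι → Fin k) → ℕ}
    {dir : Bool} {F : ℝ} (hG : Good R X Z w t dir F) {c : Finset ι × Bool × Option ι × Option ι}
    {x y : ι → Fin k} (hx : x ∈ X) (hy : y ∈ X) {a b a' b' : ℕ}
    (ox : Out T (fun s => R.nd (R.path x s)) (R.len x) (t x) (T.dep w) Z a b c)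
    (oy : Out T (fun s => R.nd (R.path y s)) (R.len y) (t y) (T.dep w) Z a' b' c)
    (hag : ∀ u, u ∉ c.1 → y u = x u) (ha : R.path y a' = R.path x a)
    (hb : R.path y b' = R.path x b) :
    (c.2.1 = false → y = x) ∧
      (c.2.1 = true → (∀ u, u ∉ Z → y u = x u) ∧ R.path y (t y) = R.path x (t x)) := by
  have hab : a ≤ b := ox.a_le.trans ox.lt_b.le
  have hab' : a' ≤ b' := oy.a_le.trans oy.lt_b.le
  obtain ⟨hl, hs⟩ := R.swap x y a b a' b' hab ox.b_le hab' oy.b_le ha.symm hb.symm
    (fun i h1 h2 => (hag _ (ox.free i h1 h2)).symm) (fun i h1 h2 => (hag _ (oy.free i h1 h2)).symm)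
  have hcl : ∀ u, ¬ (c.2.1 = true ∧ u ∈ Z) → y u = x u := by
    intro u hu
    by_cases h : u ∈ c.1
    · rcases ox.claim u h with h' | ⟨s, bit, h1, h2, h3, rfl⟩
      · exact absurd h' hu
      · obtain ⟨i, rfl⟩ := Nat.exists_eq_add_of_le h1
        have := ox.b_le
        have := oy.b_le
        exact (R.det x y (a + i) (a' + i) bit (by omega) (by omega) (hs i h2.le) h3).symm
    · exact hag u h
  refine ⟨fun h => funext fun u => hcl u (by simp [h]), fun h =>
    ⟨fun u hu => hcl u (fun h' => hu h'.2), ?_⟩⟩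
  obtain ⟨i, hi⟩ := Nat.exists_eq_add_of_le ox.a_le
  obtain ⟨j, hj⟩ := Nat.exists_eq_add_of_le oy.a_le
  have h1 := ox.lt_b
  have h2 := oy.lt_b
  have h3 := ox.b_le
  have h4 := oy.b_le
  have e1 : R.nd (R.path y (a' + i)) = R.nd (R.path y (t y)) := by
    rw [← hs i (by omega), ← hi, hG.at_w x hx, hG.at_w y hy]
  have e2 : R.nd (R.path x (a + j)) = R.nd (R.path x (t x)) := by
    rw [hs j (by omega), ← hj, hG.at_w x hx, hG.at_w y hy]
  have b1 := hG.bar y hy (a' + i) (by omega) e1
  have b2 := hG.bar x hx (a + j) (by omega) e2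
  have n1 : ¬ ∃ s', min (a' + i) (t y) < s' ∧ s' < max (a' + i) (t y) ∧
      T.dep (R.nd (R.path y s')) + 2 ≤ T.dep (R.nd (R.path y (t y))) := by
    rintro ⟨s, h5, h6, h7⟩
    have := (oy.big1 h).2 s (by omega) (by omega)
    rw [hG.at_w y hy] at h7
    omega
  have n2 : ¬ ∃ s', min (a + j) (t x) < s' ∧ s' < max (a + j) (t x) ∧
      T.dep (R.nd (R.path x s')) + 2 ≤ T.dep (R.nd (R.path x (t x))) := by
    rintro ⟨s, h5, h6, h7⟩
    have := (ox.big1 h).2 s (by omega) (by omega)
    rw [hG.at_w x hx] at h7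
    omega
  have hij : i = j := by
    cases dir
    · have c1 : ¬ a' + i < t y := fun h => n1 (b1 (by simpa using h))
      have c2 : ¬ a + j < t x := fun h => n2 (b2 (by simpa using h))
      omega
    · have c1 : ¬ t y < a' + i := fun h => n1 (b1 (by simpa using h))
      have c2 : ¬ t x < a + j := fun h => n2 (b2 (by simpa using h))
      omega
  rw [hi, hj, ← hij]
  exact (hs i (by omega)).symm

/-- One round. -/
theorem round [Fintype S] (hk : 0 < k) {X : Finset (ι → Fin k)} {Z : Finset ι} {w : ι}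
    {t : (ι → Fin k) → ℕ} {dir : Bool} {F g ρ : ℝ} (hG : Good R X Z w t dir F)
    (hH : T.dep w + 5 < T.H) (hF : 0 < F) (hg : 0 < g) (hρ : 0 < ρ)
    (hX : ρ * (k : ℝ) ^ Fintype.card ι ≤ X.card) (hFg : F * g ≤ (k : ℝ) ^ Z.card)
    (σ : ℝ) (hσ : σ = ρ / Fintype.card (Finset ι × Bool × Option ι × Option ι)) :
    σ / 4 * √(σ / 2 * (g * (k : ℝ) ^ 2)) ≤ 1 ∨ σ / 4 * √(σ / 2 * (k : ℝ) ^ 4) ≤ 1 ∨
    σ / 4 * √(σ / 2 * (k : ℝ) ^ 4) * (k : ℝ) ^ 2 ≤ Fintype.card S ∨
    ∃ (X' : Finset (ι → Fin k)) (Z' : Finset ι) (w' : ι) (t' : (ι → Fin k) → ℕ) (dir' : Bool)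
      (F' : ℝ), Good R X' Z' w' t' dir' F' ∧ T.dep w' ≤ T.dep w + 5 ∧ 0 < F' ∧
      σ / 4 * (k : ℝ) ^ Fintype.card ι ≤ X'.card ∧
      F' * √(σ / 2 * (g * (k : ℝ) ^ 2)) ≤ (k : ℝ) ^ Z'.card := by
  classical
  have hk0 : (0 : ℝ) < k := by exact_mod_cast hk
  have hk1 : (1 : ℝ) ≤ k := by exact_mod_cast hk
  have hex : ∀ x : ι → Fin k, ∃ a b c, x ∈ X →
      Out T (fun s => R.nd (R.path x s)) (R.len x) (t x) (T.dep w) Z a b c := by
    intro x
    by_cases hx : x ∈ X
    · obtain ⟨a, b, c, h⟩ := exists_out T (fun s => R.nd (R.path x s)) (R.len x) (t x) (T.dep w) Z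
        (hG.lt x hx) (by rw [hG.at_w x hx]) hH hG.dz
      exact ⟨a, b, c, fun _ => h⟩
    · exact ⟨0, 0, (∅, true, none, none), fun h => absurd h hx⟩
  choose a b c hc using hex
  obtain ⟨X1, c0, hX1, hcard, hc0⟩ := pigeon X c
  have hτ : (0 : ℝ) < Fintype.card (Finset ι × Bool × Option ι × Option ι) := by
    exact_mod_cast Fintype.card_pos
  have hσ0 : 0 < σ := by rw [hσ]; positivity
  have hX1' : σ * (k : ℝ) ^ Fintype.card ι ≤ X1.card := by
    rw [hσ, div_mul_eq_mul_div, div_le_iff₀ hτ]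
    linarith
  have ho : ∀ x ∈ X1,
      Out T (fun s => R.nd (R.path x s)) (R.len x) (t x) (T.dep w) Z (a x) (b x) c0 :=
    fun x hx => hc0 x hx ▸ hc x (hX1 hx)
  have hne : X1.Nonempty := by
    rw [← card_pos, ← Nat.cast_pos (α := ℝ)]
    exact lt_of_lt_of_le (by positivity) hX1'
  obtain ⟨x0, hx0⟩ := hne
  obtain ⟨Y, m, oL, oR⟩ := c0
  have hroot : T.root ∉ Y := fun h => by
    have := (ho x0 hx0).pos _ h
    rw [T.dep_root] at this
    omega
  have key : ∀ (F1 g1 : ℝ), 0 < F1 → 0 < g1 → F1 * g1 ≤ (k : ℝ) ^ Y.card →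
      (∀ x ∈ X1, ((fib X1 Y (fun y => (R.path y (a y), R.path y (b y))) x).card : ℝ) ≤ F1) →
      σ / 4 * √(σ / 2 * g1) ≤ 1 ∨ ∃ (X' : Finset (ι → Fin k)) (M : ℝ) (u : ι)
        (t' : (ι → Fin k) → ℕ) (dir' : Bool), X' ⊆ X1 ∧ 0 < M ∧
        σ / 4 * (k : ℝ) ^ Fintype.card ι ≤ X'.card ∧ M * √(σ / 2 * g1) ≤ (k : ℝ) ^ Y.card ∧
        (∀ x ∈ X', ((fib X' Y (fun y => R.path y (t' y)) x).card : ℝ) ≤ M) ∧
        (∀ x ∈ X', t' x < R.len x ∧ R.nd (R.path x (t' x)) = u ∧
          Bar T (fun s => R.nd (R.path x s)) (R.len x) (t' x) dir') ∧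
        EndOk T (fun s => R.nd (R.path x0 s)) (T.dep w) (a x0) (b x0) Y m u := by
    intro F1 g1 hF1 hg1 hFg1 hfib
    obtain ⟨X', M, hX', hM, hd, hMg, hs⟩ := split hk X1 Y (fun y => R.path y (a y))
      (fun y => R.path y (b y)) F1 g1 σ hF1 hg1 hσ0 hX1' hFg1 hfib
    have hsq : 0 < √(σ / 2 * g1) := Real.sqrt_pos.2 (by positivity)
    rcases hs with hs | hs
    · cases oL with
      | none =>
        refine Or.inl (trivial_count hk X' Y _ M _ _ hM hsq ?_ hs hd hMg)
        intro x hx y hy _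
        rw [(ho x (hX' hx)).left0 rfl, (ho y (hX' hy)).left0 rfl]
        exact R.start _ _
      | some u =>
        refine Or.inr ⟨X', M, u, a, true, hX', hM, hd, hMg, hs, fun x hx => ?_,
          ((ho x0 hx0).left1 u rfl).2⟩
        have o := ho x (hX' hx)
        obtain ⟨e, hE⟩ := o.left1 u rfl
        have h1 := o.a_le
        have h2 := o.lt_b
        have h3 := o.b_le
        have h4 := hG.at_w x (hX1 (hX' hx))
        have h5 := hE.lo
        refine ⟨by omega, e, fun s hs1 hs2 hs3 => ⟨t x, ?_, ?_, ?_⟩⟩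
        · simp only [if_true] at hs3
          have : a x ≠ t x := fun h => by
            rw [h, h4] at e
            rw [← e] at h5
            omega
          omega
        · simp only [if_true] at hs3
          by_contra h
          exact hE.fresh s hs3 (by omega) (hs2.trans e)
        · simp only [h4, e]
          exact h5
    · cases oR with
      | none =>
        refine Or.inl (trivial_count hk X' Y _ M _ _ hM hsq ?_ hs hd hMg)
        intro x hx y hy h
        rw [(ho x (hX' hx)).right0 rfl, (ho y (hX' hy)).right0 rfl]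
        exact R.fin _ _ (h _ hroot)
      | some u =>
        refine Or.inr ⟨X', M, u, b, false, hX', hM, hd, hMg, hs, fun x hx => ?_,
          ((ho x0 hx0).right1 u rfl).2.2⟩
        have o := ho x (hX' hx)
        obtain ⟨h3, e, hE⟩ := o.right1 u rfl
        have h1 := o.a_le
        have h2 := o.lt_b
        have h4 := hG.at_w x (hX1 (hX' hx))
        have h5 := hE.lo
        refine ⟨h3, e, fun s hs1 hs2 hs3 => ⟨t x, ?_, ?_, ?_⟩⟩
        · simp only [Bool.false_eq_true, if_false] at hs3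
          have h6 : s ≤ a x := by
            by_contra h
            exact hE.fresh s (by omega) hs3 (hs2.trans e)
          have : s ≠ t x := fun h => by
            simp only [h, h4, e] at hs2
            rw [← hs2] at h5
            omega
          omega
        · omega
        · simp only [h4, e]
          exact h5
  cases m with
  | false =>
    have h4 : (1 : ℝ) * (k : ℝ) ^ 4 ≤ (k : ℝ) ^ Y.card := by
      rw [one_mul]
      exact pow_le_pow_right₀ hk1 ((ho x0 hx0).big0 rfl)
    rcases key 1 ((k : ℝ) ^ 4) one_pos (by positivity) h4 (fun x hx => by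
      have : (fib X1 Y (fun y => (R.path y (a y), R.path y (b y))) x).card ≤ 1 := by
        refine card_le_one.2 fun y hy z hz => ?_
        rw [mem_fib] at hy hz
        rw [(joint R hG (hX1 hx) (hX1 hy.1) (ho x hx) (ho y hy.1) hy.2.1
          (congrArg Prod.fst hy.2.2) (congrArg Prod.snd hy.2.2)).1 rfl,
          (joint R hG (hX1 hx) (hX1 hz.1) (ho x hx) (ho z hz.1) hz.2.1
          (congrArg Prod.fst hz.2.2) (congrArg Prod.snd hz.2.2)).1 rfl]
      exact_mod_cast this) with h | ⟨X', M, u, t', dir', hX', hM, hd, hMg, hs, hp, hE⟩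
    · exact Or.inr (Or.inl h)
    · refine Or.inr (Or.inr (Or.inl ?_))
      have := hE.hi
      exact final_count R hk X' Y u t' M _ _ hM (Real.sqrt_pos.2 (by positivity)) (by omega) hE.le
        (fun x hx => (hp x hx).1) (fun x hx => (hp x hx).2.1) hs hd hMg
  | true =>
    have h4 : F * (g * (k : ℝ) ^ 2) ≤ (k : ℝ) ^ Y.card := by
      calc _ = F * g * (k : ℝ) ^ 2 := by ring
        _ ≤ (k : ℝ) ^ Z.card * (k : ℝ) ^ 2 := by gcongr
        _ = (k : ℝ) ^ (Z.card + 2) := by rw [pow_add]
        _ ≤ _ := pow_le_pow_right₀ hk1 ((ho x0 hx0).big1 rfl).1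
    rcases key F (g * (k : ℝ) ^ 2) hF (by positivity) h4 (fun x hx => by
      refine le_trans (Nat.cast_le.2 (card_le_card fun y hy => ?_)) (hG.fibre x (hX1 hx))
      rw [mem_fib] at hy ⊢
      exact ⟨hX1 hy.1, (joint R hG (hX1 hx) (hX1 hy.1) (ho x hx) (ho y hy.1) hy.2.1
          (congrArg Prod.fst hy.2.2) (congrArg Prod.snd hy.2.2)).2 rfl⟩) with
      h | ⟨X', M, u, t', dir', hX', hM, hd, hMg, hs, hp, hE⟩
    · exact Or.inl h
    · exact Or.inr (Or.inr (Or.inr ⟨X', Y, u, t', dir', M,
        ⟨fun z hz => ⟨(ho x0 hx0).pos z hz, hE.lt rfl z hz⟩, fun x hx => (hp x hx).1,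
          fun x hx => (hp x hx).2.1, fun x hx => (hp x hx).2.2, hs⟩, hE.hi, hM, hd, hMg⟩))

theorem core (T : Tr ι) (n : ℕ) : ∀ (ρ γ : ℝ), 0 < ρ → 0 < γ → ∃ c : ℝ, 0 < c ∧
    ∀ (k : ℕ) (S : Type) [Fintype S] (R : Run T k S) (X : Finset (ι → Fin k)) (Z : Finset ι)
      (w : ι) (t : (ι → Fin k) → ℕ) (dir : Bool) (F e : ℝ), 0 < k → Good R X Z w t dir F →
      T.dep w + 5 * n < T.H → 0 < F → 0 ≤ e → e ≤ 2 →
      ρ * (k : ℝ) ^ Fintype.card ι ≤ X.card → F * (γ * (k : ℝ) ^ (2 - e)) ≤ (k : ℝ) ^ Z.card →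
      c * (k : ℝ) ^ (4 - e / 2 ^ n) ≤ Fintype.card S := by
  induction n with
  | zero =>
    intro ρ γ hρ hγ
    refine ⟨ρ * γ, by positivity, ?_⟩
    intro k S _ R X Z w t dir F e hk hG hH hF he he' hX hFg
    have hk0 : (0 : ℝ) < k := by exact_mod_cast hk
    have h := final_count R hk X Z w t F _ ρ hF (by positivity) (by omega)
      (fun z hz => (hG.dz z hz).2.le) hG.lt hG.at_w hG.fibre hX hFg
    refine le_trans (le_of_eq ?_) h
    rw [show (4 - e / 2 ^ 0 : ℝ) = (2 - e) + (2 : ℕ) by push_cast; ring, Real.rpow_add hk0,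
      Real.rpow_natCast]
    ring
  | succ n ih =>
    intro ρ γ hρ hγ
    set σ : ℝ := ρ / Fintype.card (Finset ι × Bool × Option ι × Option ι) with hσ
    have hτ : (0 : ℝ) < Fintype.card (Finset ι × Bool × Option ι × Option ι) := by
      exact_mod_cast Fintype.card_pos
    have hσ0 : 0 < σ := by rw [hσ]; positivity
    have hγ' : 0 < √(σ / 2 * γ) := Real.sqrt_pos.2 (by positivity)
    have hδ : 0 < √(σ / 2) := Real.sqrt_pos.2 (by positivity)
    obtain ⟨c, hc, H⟩ := ih (σ / 4) √(σ / 2 * γ) (by positivity) hγ'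
    refine ⟨min (min c ((σ / 4 * √(σ / 2 * γ)) ^ 4))
      (min ((σ / 4 * √(σ / 2)) ^ 2) (σ / 4 * √(σ / 2))), by positivity, ?_⟩
    intro k S _ R X Z w t dir F e hk hG hH hF he he' hX hFg
    have hk0 : (0 : ℝ) < k := by exact_mod_cast hk
    have hk1 : (1 : ℝ) ≤ k := by exact_mod_cast hk
    have hS : (1 : ℝ) ≤ Fintype.card S := by
      have : Nonempty S := ⟨R.path (fun _ => ⟨0, hk⟩) 0⟩
      exact_mod_cast Fintype.card_pos
    have h4 : (k : ℝ) ^ (4 - e / 2 ^ (n + 1)) ≤ (k : ℝ) ^ 4 := by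
      rw [← Real.rpow_natCast (k : ℝ) 4]
      refine Real.rpow_le_rpow_of_exponent_le hk1 ?_
      have : 0 ≤ e / 2 ^ (n + 1) := by positivity
      push_cast
      linarith
    have s1 : √(σ / 2 * (γ * (k : ℝ) ^ (2 - e) * (k : ℝ) ^ 2)) =
        √(σ / 2 * γ) * (k : ℝ) ^ (2 - e / 2) := by
      have : (k : ℝ) ^ (2 - e) * (k : ℝ) ^ 2 = ((k : ℝ) ^ (2 - e / 2)) ^ 2 := by
        rw [← Real.rpow_natCast, ← Real.rpow_natCast, ← Real.rpow_add hk0,
          ← Real.rpow_mul hk0.le]
        congr 1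
        push_cast
        ring
      rw [mul_assoc γ, this, ← mul_assoc, Real.sqrt_mul (by positivity),
        Real.sqrt_sq (by positivity)]
    have s2 : √(σ / 2 * (k : ℝ) ^ 4) = √(σ / 2) * (k : ℝ) ^ 2 := by
      rw [show (k : ℝ) ^ 4 = ((k : ℝ) ^ 2) ^ 2 by ring, Real.sqrt_mul (by positivity),
        Real.sqrt_sq (by positivity)]
    have hpos : 0 ≤ (k : ℝ) ^ (4 - e / 2 ^ (n + 1)) := by positivity
    rcases round R hk hG (by omega) hF (by positivity) hρ hX hFg σ hσ with
      h | h | h | ⟨X', Z', w', t', dir', F', hG', hw', hF', hX', hFg'⟩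
    · rw [s1] at h
      have h5 : (k : ℝ) ≤ (k : ℝ) ^ (2 - e / 2) := by
        conv_lhs => rw [← Real.rpow_one (k : ℝ)]
        exact Real.rpow_le_rpow_of_exponent_le hk1 (by linarith)
      have h6 : σ / 4 * √(σ / 2 * γ) * k ≤ 1 := by
        refine le_trans ?_ h
        rw [mul_assoc]
        gcongr
      calc _ ≤ (σ / 4 * √(σ / 2 * γ)) ^ 4 * (k : ℝ) ^ 4 :=
            mul_le_mul ((min_le_left _ _).trans (min_le_right _ _)) h4 hpos (by positivity)
        _ = (σ / 4 * √(σ / 2 * γ) * k) ^ 4 := by ring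
        _ ≤ 1 := pow_le_one₀ (by positivity) h6
        _ ≤ _ := hS
    · rw [s2] at h
      calc _ ≤ (σ / 4 * √(σ / 2)) ^ 2 * (k : ℝ) ^ 4 :=
            mul_le_mul ((min_le_right _ _).trans (min_le_left _ _)) h4 hpos (by positivity)
        _ = (σ / 4 * (√(σ / 2) * (k : ℝ) ^ 2)) ^ 2 := by ring
        _ ≤ 1 := pow_le_one₀ (by positivity) h
        _ ≤ _ := hS
    · rw [s2] at h
      calc _ ≤ (σ / 4 * √(σ / 2)) * (k : ℝ) ^ 4 :=
            mul_le_mul ((min_le_right _ _).trans (min_le_right _ _)) h4 hpos (by positivity)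
        _ = σ / 4 * (√(σ / 2) * (k : ℝ) ^ 2) * (k : ℝ) ^ 2 := by ring
        _ ≤ _ := h
    · rw [s1] at hFg'
      have h := H k S R X' Z' w' t' dir' F' (e / 2) hk hG' (by omega) hF' (by linarith)
        (by linarith) hX' hFg'
      rw [show e / 2 / 2 ^ n = e / 2 ^ (n + 1) by rw [pow_succ]; field_simp] at h
      exact le_trans (mul_le_mul_of_nonneg_right
        ((min_le_left _ _).trans (min_le_left _ _)) hpos) h

/-- The lower bound for abstract runs that query the root. -/
theorem lower (T : Tr ι) (n : ℕ) (hH : 5 * n < T.H) : ∃ c : ℝ, 0 < c ∧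
    ∀ (k : ℕ) (S : Type) [Fintype S] (R : Run T k S), 0 < k →
      (∀ x, ∃ i, i < R.len x ∧ R.nd (R.path x i) = T.root) →
      c * (k : ℝ) ^ (4 - (2 : ℝ) / 2 ^ n) ≤ Fintype.card S := by
  classical
  obtain ⟨c, hc, H⟩ := core T n 1 1 one_pos one_pos
  refine ⟨c, hc, fun k S _ R hk hr => ?_⟩
  refine H k S R univ ∅ T.root (fun x => Nat.find (hr x)) false 1 2 hk
    ⟨by simp, fun x _ => (Nat.find_spec (hr x)).1, fun x _ => (Nat.find_spec (hr x)).2, ?_, ?_⟩
    (by rw [T.dep_root]; omega) one_pos (by norm_num) le_rfl (by simp) (by simp)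
  · intro x _ s hs hs' h
    simp only [Bool.false_eq_true, if_false] at h
    exact absurd ⟨hs, hs'.trans (Nat.find_spec (hr x)).2⟩ (Nat.find_min (hr x) h)
  · intro x _
    have := card_agree ∅ x (fib univ ∅ (fun y => R.path y (Nat.find (hr y))) x)
      fun y hy => (mem_fib.1 hy).2.1
    exact_mod_cast this

end Pool.Agent.Work.MP_807b32_lc.Low
end

-- merged part: Pool.Agent.Work.MP_807b32_lc.LowMain
section
/-!
From thrifty branching programs to abstract runs.
-/

set_option linter.unusedSectionVars false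

namespace Pool.Agent.Work.MP_807b32_lc.Low

open Pool.Agent.Work.MP_807b32_lc.Tree

section Canon

variable {V : Type} {k : ℕ} {S : Type} (P : BP V k S) (o : Fin k) (idx : S → ℕ)

/-- The final state `o` can be reached from `s` in exactly `j` steps. -/
def Reach (I : V → Fin k) : ℕ → S → Prop
  | 0, s => s = P.final o
  | j + 1, s => ∃ s', P.edge s (I (P.query s)) s' ∧ Reach I j s'

theorem reach_of_comp {I : V → Fin k} {s t : S} {qs : List V} (h : Comp P I s qs t)
    (ht : t = P.final o) : ∃ j, Reach P o I j s := by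
  induction h with
  | nil s => exact ⟨0, ht⟩
  | cons he _ ih =>
    obtain ⟨j, hj⟩ := ih ht
    exact ⟨j + 1, _, he, hj⟩

open Classical in
/-- The canonical computation of length `L`. -/
noncomputable def canon (I : V → Fin k) (L : ℕ) : ℕ → S
  | 0 => P.start
  | i + 1 =>
    if h : {s' | P.edge (canon I L i) (I (P.query (canon I L i))) s' ∧
        Reach P o I (L - i - 1) s'}.Nonempty then Function.argminOn idx _ h else P.start

theorem canon_spec {I : V → Fin k} {L : ℕ} (hL : Reach P o I L P.start) (i : ℕ) (hi : i ≤ L) :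
    Reach P o I (L - i) (canon P o idx I L i) := by
  induction i with
  | zero => exact hL
  | succ i ih =>
    have h := ih (by omega)
    rw [show L - i = (L - i - 1) + 1 by omega] at h
    have h' : {s' | P.edge (canon P o idx I L i) (I (P.query (canon P o idx I L i))) s' ∧
        Reach P o I (L - i - 1) s'}.Nonempty := h
    rw [canon, dif_pos h']
    exact (Function.argminOn_mem idx _ h').2

theorem canon_step {I : V → Fin k} {L : ℕ} (hL : Reach P o I L P.start) (i : ℕ) (hi : i < L) :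
    P.edge (canon P o idx I L i) (I (P.query (canon P o idx I L i))) (canon P o idx I L (i + 1)) ∧
      ∀ s', P.edge (canon P o idx I L i) (I (P.query (canon P o idx I L i))) s' →
        Reach P o I (L - i - 1) s' → idx (canon P o idx I L (i + 1)) ≤ idx s' := by
  have h := canon_spec P o idx hL i hi.le
  rw [show L - i = (L - i - 1) + 1 by omega] at h
  have h' : {s' | P.edge (canon P o idx I L i) (I (P.query (canon P o idx I L i))) s' ∧
      Reach P o I (L - i - 1) s'}.Nonempty := h
  rw [canon, dif_pos h']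
  exact ⟨(Function.argminOn_mem idx _ h').1, fun s' h1 h2 =>
    Function.argminOn_le idx {s' | P.edge (canon P o idx I L i)
      (I (P.query (canon P o idx I L i))) s' ∧ Reach P o I (L - i - 1) s'} (a := s') ⟨h1, h2⟩⟩

theorem reach_back {I : V → Fin k} (f : ℕ → S) (a m j : ℕ)
    (h : ∀ i, a ≤ i → i < a + m → P.edge (f i) (I (P.query (f i))) (f (i + 1)))
    (hj : Reach P o I j (f (a + m))) : Reach P o I (m + j) (f a) := by
  induction m generalizing a with
  | zero => simpa using hj
  | succ m ih =>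
    rw [show m + 1 + j = (m + j) + 1 by omega]
    refine ⟨f (a + 1), h a le_rfl (by omega), ih (a + 1) (fun i h1 h2 => h i (by omega) (by omega)) ?_⟩
    rwa [show a + 1 + m = a + (m + 1) by omega]

theorem comp_of_path {I : V → Fin k} (f : ℕ → S) (a m : ℕ)
    (h : ∀ i, a ≤ i → i < a + m → P.edge (f i) (I (P.query (f i))) (f (i + 1))) :
    ∃ qs, Comp P I (f a) qs (f (a + m)) ∧ ∀ i, a ≤ i → i < a + m → P.query (f i) ∈ qs := by
  induction m generalizing a with
  | zero => exact ⟨[], Comp.nil _, fun i h1 h2 => by omega⟩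
  | succ m ih =>
    obtain ⟨qs, h1, h2⟩ := ih (a + 1) (fun i h1 h2 => h i (by omega) (by omega))
    rw [show a + 1 + m = a + (m + 1) by omega] at h1 h2
    refine ⟨_, Comp.cons (h a le_rfl (by omega)) h1, fun i h3 h4 => ?_⟩
    rcases h3.eq_or_lt with rfl | h3
    · exact List.mem_cons_self
    · exact List.mem_cons_of_mem _ (h2 i h3 h4)

theorem canon_swap (hidx : Function.Injective idx) {I J : V → Fin k} {L M : ℕ}
    (hL : Reach P o I L P.start) (hL' : ∀ j, Reach P o I j P.start → L ≤ j)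
    (hM : Reach P o J M P.start) (hM' : ∀ j, Reach P o J j P.start → M ≤ j)
    {a b a' b' : ℕ} (hab : a ≤ b) (hb : b ≤ L) (hab' : a' ≤ b') (hb' : b' ≤ M)
    (ea : canon P o idx I L a = canon P o idx J M a') (eb : canon P o idx I L b = canon P o idx J M b')
    (h1 : ∀ i, a ≤ i → i < b → I (P.query (canon P o idx I L i)) = J (P.query (canon P o idx I L i)))
    (h2 : ∀ i, a' ≤ i → i < b' →
      I (P.query (canon P o idx J M i)) = J (P.query (canon P o idx J M i))) :
    b + a' = b' + a ∧ ∀ i, a + i ≤ b → canon P o idx I L (a + i) = canon P o idx J M (a' + i) := by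
  have r1 : ∀ i, a' ≤ i → i ≤ b' → Reach P o I ((b' - i) + (L - b)) (canon P o idx J M i) := by
    intro i h3 h4
    refine reach_back P o _ i _ _ (fun j h5 h6 => ?_) ?_
    · rw [h2 j (by omega) (by omega)]
      exact (canon_step P o idx hM j (by omega)).1
    · rw [show i + (b' - i) = b' by omega, ← eb]
      exact canon_spec P o idx hL b hb
  have r2 : ∀ i, a ≤ i → i ≤ b → Reach P o J ((b - i) + (M - b')) (canon P o idx I L i) := by
    intro i h3 h4
    refine reach_back P o _ i _ _ (fun j h5 h6 => ?_) ?_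
    · rw [← h1 j (by omega) (by omega)]
      exact (canon_step P o idx hL j (by omega)).1
    · rw [show i + (b - i) = b by omega, eb]
      exact canon_spec P o idx hM b' hb'
  have l1 : L ≤ a + ((b' - a') + (L - b)) := by
    refine hL' _ (reach_back P o (canon P o idx I L) 0 a _
      (fun j _ h6 => (canon_step P o idx hL j (by omega)).1) ?_)
    rw [zero_add, ea]
    exact r1 a' le_rfl hab'
  have l2 : M ≤ a' + ((b - a) + (M - b')) := by
    refine hM' _ (reach_back P o (canon P o idx J M) 0 a' _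
      (fun j _ h6 => (canon_step P o idx hM j (by omega)).1) ?_)
    rw [zero_add, ← ea]
    exact r2 a le_rfl hab
  have e : b + a' = b' + a := by omega
  refine ⟨e, fun i hi => ?_⟩
  induction i with
  | zero => exact ea
  | succ i ih =>
    have h := ih (by omega)
    have s1 := canon_step P o idx hL (a + i) (by omega)
    have s2 := canon_step P o idx hM (a' + i) (by omega)
    refine hidx (le_antisymm (s1.2 _ ?_ ?_) (s2.2 _ ?_ ?_))
    · rw [h, h2 _ (by omega) (by omega)]
      exact s2.1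
    · have := r1 (a' + (i + 1)) (by omega) (by omega)
      rwa [show b' - (a' + (i + 1)) + (L - b) = L - (a + i) - 1 by omega] at this
    · rw [← h, ← h1 _ (by omega) (by omega)]
      exact s1.1
    · have := r2 (a + (i + 1)) (by omega) (by omega)
      rwa [show b - (a + (i + 1)) + (M - b') = M - (a' + i) - 1 by omega] at this

end Canon

/-- The address of the node a variable belongs to. -/
def addr {k : ℕ} : {H : ℕ} → Var k H → List Bool
  | _, .leaf => []
  | _, .entry _ _ => []
  | _, .left q => false :: addr q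
  | _, .right q => true :: addr q

/-- The table position a variable refers to. -/
def arg {k : ℕ} : {H : ℕ} → Var k H → Bool → Option (Fin k)
  | _, .leaf => fun _ => none
  | _, .entry a b => fun c => some (if c then b else a)
  | _, .left q => arg q
  | _, .right q => arg q

theorem addr_le {k H : ℕ} (q : Var k H) : (addr q).length ≤ H := by
  induction q with
  | leaf => simp [addr]
  | entry a b => simp [addr]
  | left q ih => simpa [addr] using ih
  | right q ih => simpa [addr] using ih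

theorem value_const {k : ℕ} (H : ℕ) (x : List Bool → Fin k) :
    value H (fun q => x (addr q)) = x [] := by
  cases H <;> rfl

theorem arg_of_thrifty {k H : ℕ} {I : Var k H → Fin k} {q : Var k H} (h : ThriftyQuery H I q)
    (x : List Bool → Fin k) (hI : I = fun q => x (addr q)) (hq : (addr q).length < H) (b : Bool) :
    arg q b = some (x (addr q ++ [b])) := by
  induction h generalizing x with
  | leaf I => omega
  | @entry H I =>
    subst hI
    have h1 := value_const H (fun u => x (false :: u))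
    have h2 := value_const H (fun u => x (true :: u))
    cases b
    · exact congrArg some h1
    · exact congrArg some h2
  | left I q _ ih =>
    subst hI
    exact ih (fun u => x (false :: u)) rfl (by simpa [addr] using hq)
  | right I q _ ih =>
    subst hI
    exact ih (fun u => x (true :: u)) rfl (by simpa [addr] using hq)

/-- The nodes of the tree. -/
def Node (H : ℕ) : Type := {u : List Bool // u.length ≤ H}

instance (H : ℕ) : Finite (Node H) := (List.finite_length_le Bool H).to_subtype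

/-- The shape of the tree. -/
def tree (H : ℕ) : Tr (Node H) where
  H := H
  dep u := u.1.length
  ch u b := if h : u.1.length < H then ⟨u.1 ++ [b], by simpa using h⟩ else u
  root := ⟨[], Nat.zero_le _⟩
  dep_root := rfl
  dep_ch u b h := by simp [h]
  ch_inj u u' b b' h h' e := by
    simp only [h, h', dite_true] at e
    have := List.append_inj' (congrArg Subtype.val e) rfl
    exact ⟨Subtype.ext this.1, by simpa using this.2⟩

/-- Extension of an assignment to all addresses. -/
def ext {k H : ℕ} (x : Node H → Fin k) (u : List Bool) : Fin k :=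
  if h : u.length ≤ H then x ⟨u, h⟩ else x (tree H).root

theorem lower_bound (n H : ℕ) (hH : 5 * n < H) : ∃ c : ℝ, 0 < c ∧
    ∀ (k : ℕ) (S : Type) [Fintype S] (P : BP (Var k H) k S) (o : Fin k),
      Decides P o → ThriftyTo P o → c * (k : ℝ) ^ (4 - (2 : ℝ) / 2 ^ n) ≤ Fintype.card S := by
  classical
  let _ : Fintype (Node H) := Fintype.ofFinite _
  obtain ⟨c, hc, hmain⟩ := lower (tree H) n hH
  refine ⟨min c 1, by positivity, fun k S _ P o hC hT => ?_⟩
  by_cases hk : k ≤ 1
  · have hS : (1 : ℝ) ≤ Fintype.card S := by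
      have : Nonempty S := ⟨P.start⟩
      exact_mod_cast Fintype.card_pos
    have h1 : (2 : ℝ) / 2 ^ n ≤ 2 := div_le_self (by norm_num) (one_le_pow₀ (by norm_num))
    have h2 : (k : ℝ) ^ (4 - (2 : ℝ) / 2 ^ n) ≤ 1 :=
      Real.rpow_le_one (by positivity) (by exact_mod_cast hk) (by linarith)
    exact (mul_le_one₀ (min_le_right _ _) (by positivity) h2).trans hS
  have hk0 : 0 < k := by omega
  let idx : S → ℕ := fun s => Fintype.equivFin S s
  have hidx : Function.Injective idx :=
    Fin.val_injective.comp (Fintype.equivFin S).injective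
  let up : (Node H → Fin k) → Node H → Fin k := fun x => Function.update x (tree H).root o
  let inp : (Node H → Fin k) → Var k H → Fin k := fun x q => ext x (addr q)
  let nd : S → Node H := fun s => ⟨addr (P.query s), addr_le _⟩
  have hinp : ∀ x s, inp x (P.query s) = x (nd s) := fun x s => dif_pos (addr_le _)
  have hval : ∀ x, value H (inp x) = x (tree H).root := fun x =>
    (value_const H (ext x)).trans (dif_pos (Nat.zero_le _))
  have hup : ∀ x y u, x u = y u → up x u = up y u := fun x y u h => by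
    by_cases hu : u = (tree H).root
    · simp [up, hu]
    · simp [up, hu, h]
  have hex : ∀ x, ∃ j, Reach P o (inp (up x)) j P.start := fun x => by
    obtain ⟨qs, h⟩ := (hC (inp (up x))).2 (by rw [hval]; simp [up])
    exact reach_of_comp P o h rfl
  let len : (Node H → Fin k) → ℕ := fun x => Nat.find (hex x)
  have hlen : ∀ x, Reach P o (inp (up x)) (len x) P.start := fun x => Nat.find_spec (hex x)
  have hmin : ∀ x j, Reach P o (inp (up x)) j P.start → len x ≤ j :=
    fun x j h => Nat.find_min' (hex x) h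
  let path : (Node H → Fin k) → ℕ → S := fun x => canon P o idx (inp (up x)) (len x)
  have hfin : ∀ x, path x (len x) = P.final o := fun x => by
    have h3 := canon_spec P o idx (hlen x) (len x) le_rfl
    rwa [Nat.sub_self] at h3
  have hcomp : ∀ x y : Node H → Fin k,
      (∀ i, i < len x → y (nd (path x i)) = up x (nd (path x i))) →
      ∃ qs, Comp P (inp y) P.start qs (P.final o) ∧
        ∀ i, i < len x → P.query (path x i) ∈ qs := by
    intro x y h
    obtain ⟨qs, h1, h2⟩ := comp_of_path P (I := inp y) (path x) 0 (len x) fun i _ hi => by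
      rw [hinp, h i (by omega), ← hinp (up x)]
      exact (canon_step P o idx (hlen x) i (by omega)).1
    rw [zero_add] at h1 h2
    refine ⟨qs, ?_, fun i hi => h2 i (Nat.zero_le _) hi⟩
    rw [← hfin x]
    exact h1
  have harg : ∀ x i b, i < len x → (tree H).dep (nd (path x i)) < H →
      arg (P.query (path x i)) b = some (x ((tree H).ch (nd (path x i)) b)) := by
    intro x i b hi hd
    obtain ⟨qs, h2, h3⟩ := hcomp x (up x) fun _ _ => rfl
    rw [arg_of_thrifty (hT _ qs h2 _ (h3 i hi)) (ext (up x)) rfl hd b]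
    have hne : (tree H).ch (nd (path x i)) b ≠ (tree H).root := fun h => by
      have := (tree H).dep_ch _ b hd
      rw [h, (tree H).dep_root] at this
      omega
    rw [← Function.update_of_ne hne o x]
    have hd' : (addr (P.query (path x i))).length < H := hd
    simp only [tree, nd, ext, hd', dite_true]
    rw [dif_pos (by simpa using hd')]
    rfl
  let R : Run (tree H) k S :=
    { nd := nd
      len := len
      path := path
      start := fun _ _ => rfl
      fin := fun x y _ => by rw [hfin x, hfin y]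
      det := fun x y i j b hi hj e hd => by
        have h1 := harg x i b hi hd
        have h2 := harg y j b hj (e ▸ hd)
        rw [← e, h1] at h2
        exact Option.some.inj h2
      swap := fun x y a b a' b' h1 h2 h3 h4 h5 h6 h7 h8 =>
        canon_swap P o idx hidx (hlen x) (hmin x) (hlen y) (hmin y) h1 h2 h3 h4 h5 h6
          (fun i h h' => by rw [hinp, hinp]; exact hup _ _ _ (h7 i h h'))
          (fun i h h' => by rw [hinp, hinp]; exact hup _ _ _ (h8 i h h')) }
  refine le_trans (mul_le_mul_of_nonneg_right (min_le_left _ _) (by positivity))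
    (hmain k S R hk0 fun x => ?_)
  by_contra hn
  push Not at hn
  have : Nontrivial (Fin k) := Fin.nontrivial_iff_two_le.2 (by omega)
  obtain ⟨v, hv⟩ := exists_ne o
  obtain ⟨qs, h1, -⟩ := hcomp x (Function.update x (tree H).root v) fun i hi => by
    rw [Function.update_of_ne (hn i hi)]
    exact (Function.update_of_ne (hn i hi) _ _).symm
  have h2 := (hC _).1 ⟨qs, h1⟩
  rw [hval, Function.update_self] at h2
  exact hv h2

end Pool.Agent.Work.MP_807b32_lc.Low
end
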