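import Pool.Agent.Work.MP_807b32_lc.TreeDecide
import Mathlib.Order.Lattice.Nat

/-!
The least number of states of a nondeterministic thrifty branching program for tree evaluation.
-/

namespace Pool.Agent.Work.MP_807b32_lc.Tree

/-- The least number of states of a program that decides whether the root has the value `o` and
whose computations ending in the final state `o` make thrifty queries only. -/
noncomputable def sizeDecide (H k : ℕ) (o : Fin k) : ℕ :=
  sInf {N | ∃ (S : Type) (_ : Fintype S) (P : BP (Var k H) k S),
    Decides P o ∧ ThriftyTo P o ∧ Fintype.card S = N}

/-- The least number of states of a thrifty program that computes the value of the root. -/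
noncomputable def sizeCompute (H k : ℕ) : ℕ :=
  sInf {N | ∃ (S : Type) (_ : Fintype S) (P : BP (Var k H) k S),
    Computes P ∧ Thrifty P ∧ Fintype.card S = N}

end Pool.Agent.Work.MP_807b32_lc.Tree
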