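import Mathlib.Data.Fintype.BigOperators
import Mathlib.Data.Fintype.Pi
import Mathlib.Data.Finset.Powerset
import Mathlib.Data.Nat.Choose.Basic
import Mathlib.Algebra.BigOperators.Ring.Finset
import Mathlib.Algebra.Order.BigOperators.Group.Finset
import Mathlib.Tactic

/-!
The counting step.
-/

namespace Pool.Agent.Work.MP_807b32_lc

open Finset

theorem card_pinned {V C : Type} [Fintype V] [DecidableEq V] [Fintype C] [DecidableEq C]
    (c₀ : C) (A : Finset V) :
    (Fintype.piFinset (fun v => if v ∈ A then ({c₀} : Finset C) else univ)).card =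
      Fintype.card C ^ (Fintype.card V - A.card) := by
  rw [Fintype.card_piFinset]
  have : ∀ v : V, (if v ∈ A then ({c₀} : Finset C) else univ).card =
      if v ∈ A then 1 else Fintype.card C := by
    intro v
    split_ifs <;> simp
  simp only [this]
  rw [Finset.prod_ite]
  simp only [prod_const_one, one_mul, prod_const]
  congr 1
  have : univ.filter (fun v => v ∉ A) = Aᶜ := by
    ext v
    simp
  rw [this, card_compl]

theorem count_bound {V C T : Type} [Fintype V] [DecidableEq V] [Fintype C] [DecidableEq C]
    [Fintype T] (ρ : V) (c₀ : C) (q : ℕ) (σ : (V → C) → T) (Q : (V → C) → Finset V)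
    (hQ : ∀ x, x ρ = c₀ → (Q x).card = q ∧ ρ ∉ Q x)
    (hinj : ∀ x x', x ρ = c₀ → x' ρ = c₀ → σ x = σ x' → (∀ v, v ∉ Q x' → x v = x' v) → x = x') :
    Fintype.card C ^ q ≤ Fintype.card T * (Fintype.card V).choose q := by
  classical
  set k := Fintype.card C with hk
  set m := Fintype.card V with hm
  have hkpos : 0 < k := Fintype.card_pos_iff.mpr ⟨c₀⟩
  let Z : Finset V → Finset (V → C) := fun A =>
    Fintype.piFinset (fun v => if v ∈ A then ({c₀} : Finset C) else univ)
  have hZ : ∀ A y, y ∈ Z A ↔ ∀ v ∈ A, y v = c₀ := by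
    intro A y
    simp only [Z, Fintype.mem_piFinset]
    constructor
    · intro h v hv
      simpa [hv] using h v
    · intro h v
      by_cases hv : v ∈ A
      · simp [hv, h v hv]
      · simp [hv]
  have hqm : q + 1 ≤ m := by
    obtain ⟨h1, h2⟩ := hQ (fun _ => c₀) rfl
    have := card_le_univ (insert ρ (Q (fun _ => c₀)))
    rw [card_insert_of_notMem h2, h1] at this
    exact this
  let Y : Finset (T × (Finset V × (V → C))) :=
    univ ×ˢ (((univ.erase ρ).powersetCard q).biUnion (fun A => {A} ×ˢ Z (insert ρ A)))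
  have hY : Y.card ≤ Fintype.card T * (m.choose q * k ^ (m - (q + 1))) := by
    simp only [Y, card_product, card_univ]
    apply Nat.mul_le_mul_left
    refine (card_biUnion_le_card_mul _ _ (k ^ (m - (q + 1))) ?_).trans ?_
    · intro A hA
      obtain ⟨h1, h2⟩ := mem_powersetCard.mp hA
      have hρ : ρ ∉ A := fun h => by simpa using h1 h
      rw [card_product, card_singleton, one_mul]
      simp only [Z]
      rw [card_pinned, card_insert_of_notMem hρ, h2]
    · apply Nat.mul_le_mul_right
      rw [card_powersetCard]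
      apply Nat.choose_le_choose
      exact card_le_univ _
  have hX : (Z {ρ}).card ≤ Y.card := by
    apply card_le_card_of_injOn
      (fun x => (σ x, (Q x, fun v => if v ∈ Q x then c₀ else x v)))
    · intro x hx
      have hx' : x ρ = c₀ := (hZ _ _).mp (mem_coe.mp hx) ρ (mem_singleton_self _)
      obtain ⟨h1, h2⟩ := hQ x hx'
      simp only [Y, coe_product, Set.mem_prod, coe_univ, Set.mem_univ, true_and, mem_coe,
        mem_biUnion]
      refine ⟨Q x, mem_powersetCard.mpr ⟨?_, h1⟩, ?_⟩
      · intro v hv
        exact mem_erase.mpr ⟨fun h => h2 (h ▸ hv), mem_univ _⟩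
      · refine mem_product.mpr ⟨mem_singleton_self _, (hZ _ _).mpr ?_⟩
        intro v hv
        rcases mem_insert.mp hv with rfl | hv
        · simp [h2, hx']
        · simp [hv]
    · intro x hx x' hx' h
      have hx1 : x ρ = c₀ := (hZ _ _).mp (mem_coe.mp hx) ρ (mem_singleton_self _)
      have hx2 : x' ρ = c₀ := (hZ _ _).mp (mem_coe.mp hx') ρ (mem_singleton_self _)
      simp only [Prod.mk.injEq] at h
      obtain ⟨h1, h2, h3⟩ := h
      apply hinj x x' hx1 hx2 h1
      intro v hv
      have := congrFun h3 v
      simpa [h2, hv] using this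
  have hZ1 : (Z {ρ}).card = k ^ (m - 1) := by
    simp only [Z]
    rw [card_pinned, card_singleton]
  have h1 : k ^ q * k ^ (m - (q + 1)) ≤ (Fintype.card T * m.choose q) * k ^ (m - (q + 1)) := by
    rw [← pow_add, show q + (m - (q + 1)) = m - 1 by omega, ← hZ1, mul_assoc]
    exact hX.trans hY
  exact Nat.le_of_mul_le_mul_right h1 (pow_pos hkpos _)

end Pool.Agent.Work.MP_807b32_lc
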