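import Mathlib.Data.Fintype.Card
import Mathlib.Data.Set.Basic

/-!
Pyramid evaluation and nondeterministic thrifty branching programs.

The pyramid of height `H` has the nodes `(l, i)` with `l + i ≤ H` (level `l`, position `i`).
The nodes `(0, i)` are the leaves, `(H, 0)` is the apex, and the node `(l + 1, i)` has the two
children `(l, i)` and `(l, i + 1)`.
-/

namespace Pool.Agent.Work.MP_807b32_lc

/-- The input variables of pyramid evaluation: one variable for each leaf `(0, i)`, and for each
inner node `(l + 1, i)` one variable for each entry `(a, b)` of its function table. -/
inductive Var (H k : ℕ) : Type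
  | leaf (i : ℕ) (h : i ≤ H) : Var H k
  | entry (l i : ℕ) (h : l + 1 + i ≤ H) (a b : Fin k) : Var H k

/-- The value of the node `(l, i)` on the input `I`: a leaf carries its variable, an inner node
applies its function table to the values of its two children. -/
def nodeVal {H k : ℕ} (I : Var H k → Fin k) : (l i : ℕ) → l + i ≤ H → Fin k
  | 0, i, h => I (Var.leaf i (by omega))
  | l + 1, i, h =>
      I (Var.entry l i h (nodeVal I l i (by omega)) (nodeVal I l (i + 1) (by omega)))

/-- A query is thrifty for the input `I` if it reads a leaf, or reads the table of an inner node
at the true values of the two children of that node. -/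
def ThriftyQuery {H k : ℕ} (I : Var H k → Fin k) : Var H k → Prop
  | Var.leaf _ _ => True
  | Var.entry l i h a b => a = nodeVal I l i (by omega) ∧ b = nodeVal I l (i + 1) (by omega)

/-- A nondeterministic branching program with state set `S`. An edge labelled `none` is a free
move; an edge labelled `some (q, c)` tests that the variable `q` has the value `c`. -/
structure NBP (H k : ℕ) (S : Type) where
  start : S
  accept : Set S
  edge : S → Option (Var H k × Fin k) → S → Prop

/-- `Walk B s w t`: the program has a walk from `s` to `t` whose edge labels form the list `w`. -/
inductive Walk {H k : ℕ} {S : Type} (B : NBP H k S) :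
    S → List (Option (Var H k × Fin k)) → S → Prop
  | nil (s : S) : Walk B s [] s
  | cons {s s' t : S} {e : Option (Var H k × Fin k)} {w : List (Option (Var H k × Fin k))} :
      B.edge s e s' → Walk B s' w t → Walk B s (e :: w) t

/-- `w` is an accepting computation on `I`: a walk from the start state to an accepting state all
of whose tests are passed by `I`. -/
def AcceptingRun {H k : ℕ} {S : Type} (B : NBP H k S) (I : Var H k → Fin k)
    (w : List (Option (Var H k × Fin k))) : Prop :=
  (∃ t ∈ B.accept, Walk B B.start w t) ∧ ∀ q c, some (q, c) ∈ w → I q = c

/-- The program accepts exactly the inputs whose apex has the value `c₀`. -/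
def Solves {H k : ℕ} {S : Type} (B : NBP H k S) (c₀ : Fin k) : Prop :=
  ∀ I : Var H k → Fin k, nodeVal I H 0 (by omega) = c₀ ↔ ∃ w, AcceptingRun B I w

/-- The program is thrifty: every accepting computation makes thrifty queries only. -/
def Thrifty {H k : ℕ} {S : Type} (B : NBP H k S) : Prop :=
  ∀ (I : Var H k → Fin k) (w : List (Option (Var H k × Fin k))), AcceptingRun B I w →
    ∀ q c, some (q, c) ∈ w → ThriftyQuery I q

end Pool.Agent.Work.MP_807b32_lc
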