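import Mathlib.Data.Finset.Card
import Mathlib.Data.Finset.Max
import Mathlib.Data.Finset.Union
import Mathlib.Tactic

/-!
Combinatorics of the pyramid: a two-player pebbling bound and the halving of a word of nodes.
-/

namespace Pool.Agent.Work.MP_807b32_lc

open Finset

/-- The children of a node `(level, position)`. -/
def ch : ℕ × ℕ → Finset (ℕ × ℕ)
  | (0, _) => ∅
  | (l + 1, i) => {(l, i), (l, i + 1)}

theorem ch_lt {u v : ℕ × ℕ} (h : u ∈ ch v) : u.1 < v.1 := by
  obtain ⟨l, i⟩ := v
  cases l with
  | zero => simp [ch] at h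
  | succ l =>
    simp only [ch, mem_insert, mem_singleton] at h
    rcases h with rfl | rfl <;> simp

/-- Every downward path from `(l, i)` to level `0` meets `P`. -/
def Blocked (P : Finset (ℕ × ℕ)) : ℕ → ℕ → Prop
  | 0, i => (0, i) ∈ P
  | l + 1, i => (l + 1, i) ∈ P ∨ (Blocked P l i ∧ Blocked P l (i + 1))

theorem Blocked.mono {P Q : Finset (ℕ × ℕ)} (h : P ⊆ Q) :
    ∀ l i, Blocked P l i → Blocked Q l i
  | 0, _, hb => h hb
  | l + 1, i, hb => by
    rcases hb with hb | ⟨h1, h2⟩
    · exact Or.inl (h hb)
    · exact Or.inr ⟨Blocked.mono h l i h1, Blocked.mono h l (i + 1) h2⟩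

theorem blocked_of_mem {P : Finset (ℕ × ℕ)} : ∀ l i, (l, i) ∈ P → Blocked P l i
  | 0, _, h => h
  | _ + 1, _, h => Or.inl h

theorem not_blocked_empty : ∀ l i, ¬ Blocked ∅ l i
  | 0, i => by simp [Blocked]
  | l + 1, i => by
    rintro (h | ⟨h, -⟩)
    · simp at h
    · exact not_blocked_empty l i h

theorem Blocked.left {P : Finset (ℕ × ℕ)} :
    ∀ l i, Blocked P l i → ∃ l', l' ≤ l ∧ (l', i) ∈ P
  | 0, _, h => ⟨0, le_rfl, h⟩
  | l + 1, i, h => by
    rcases h with h | ⟨h, -⟩
    · exact ⟨l + 1, le_rfl, h⟩
    · obtain ⟨l', h1, h2⟩ := Blocked.left l i h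
      exact ⟨l', by omega, h2⟩

theorem Blocked.right {P : Finset (ℕ × ℕ)} :
    ∀ l i, Blocked P l i → ∃ l' i', l' ≤ l ∧ l' + i' = l + i ∧ (l', i') ∈ P
  | 0, i, h => ⟨0, i, le_rfl, rfl, h⟩
  | l + 1, i, h => by
    rcases h with h | ⟨-, h⟩
    · exact ⟨l + 1, i, le_rfl, rfl, h⟩
    · obtain ⟨l', i', h1, h2, h3⟩ := Blocked.right l (i + 1) h
      exact ⟨l', i', by omega, by omega, h3⟩

/-- The nodes below `(l, i)`. -/
def cone (l i : ℕ) (u : ℕ × ℕ) : Prop := u.1 ≤ l ∧ i ≤ u.2 ∧ u.1 + u.2 ≤ l + i

instance (l i : ℕ) : DecidablePred (cone l i) := fun u => by unfold cone; infer_instance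

theorem pyramid_step {P : Finset (ℕ × ℕ)} {v : ℕ × ℕ} (hv : ∀ u ∈ ch v, u ∈ P) :
    ∀ l i, ¬ Blocked P l i → Blocked (insert v P) l i →
      l + 1 ≤ ((insert v P).filter (cone l i)).card
  | 0, i, _, h2 => by
    apply Finset.card_pos.mpr
    exact ⟨(0, i), mem_filter.mpr ⟨h2, by simp [cone]⟩⟩
  | l + 1, i, h1, h2 => by
    have hn : (l + 1, i) ∉ insert v P := by
      intro hm
      rcases mem_insert.mp hm with hm | hm
      · apply h1
        refine Or.inr ⟨blocked_of_mem _ _ (hv _ ?_), blocked_of_mem _ _ (hv _ ?_)⟩ <;>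
          simp [← hm, ch]
      · exact h1 (Or.inl hm)
    rcases h2 with h2 | ⟨hL, hR⟩
    · exact absurd h2 hn
    by_cases hb : Blocked P l i
    · have hb' : ¬ Blocked P l (i + 1) := fun h => h1 (Or.inr ⟨hb, h⟩)
      have ih := pyramid_step hv l (i + 1) hb' hR
      obtain ⟨l', hl', hm⟩ := Blocked.left l i hL
      have hsub : insert (l', i) ((insert v P).filter (cone l (i + 1))) ⊆
          (insert v P).filter (cone (l + 1) i) := by
        intro u hu
        rcases mem_insert.mp hu with rfl | hu
        · exact mem_filter.mpr ⟨hm, by simp only [cone]; omega⟩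
        · obtain ⟨h3, h4⟩ := mem_filter.mp hu
          exact mem_filter.mpr ⟨h3, by simp only [cone] at h4 ⊢; omega⟩
      have hnot : (l', i) ∉ (insert v P).filter (cone l (i + 1)) := by
        intro hu
        have := (mem_filter.mp hu).2
        simp only [cone] at this
        omega
      have := card_le_card hsub
      rw [card_insert_of_notMem hnot] at this
      omega
    · have ih := pyramid_step hv l i hb hL
      obtain ⟨l', i', hl', hs, hm⟩ := Blocked.right l (i + 1) hR
      have hsub : insert (l', i') ((insert v P).filter (cone l i)) ⊆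
          (insert v P).filter (cone (l + 1) i) := by
        intro u hu
        rcases mem_insert.mp hu with rfl | hu
        · exact mem_filter.mpr ⟨hm, by simp only [cone]; omega⟩
        · obtain ⟨h3, h4⟩ := mem_filter.mp hu
          exact mem_filter.mpr ⟨h3, by simp only [cone] at h4 ⊢; omega⟩
      have hnot : (l', i') ∉ (insert v P).filter (cone l i) := by
        intro hu
        have := (mem_filter.mp hu).2
        simp only [cone] at this
        omega
      have := card_le_card hsub
      rw [card_insert_of_notMem hnot] at this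
      omega

/-- Winning positions of the pebbler in a two-player pebble game: pebbles `P`, challenged node,
number of remaining moves. -/
inductive DT : Finset (ℕ × ℕ) → ℕ × ℕ → ℕ → Prop
  | win (P : Finset (ℕ × ℕ)) (v : ℕ × ℕ) (s : ℕ) : (∀ u ∈ ch v, u ∈ P) → DT P v s
  | move (P : Finset (ℕ × ℕ)) (u v : ℕ × ℕ) (s : ℕ) :
      DT P u s → DT (insert u P) v s → DT P v (s + 1)

theorem DT.succ {P : Finset (ℕ × ℕ)} {v : ℕ × ℕ} {s : ℕ} (h : DT P v s) : DT P v (s + 1) := by
  induction h with
  | win P v s h => exact DT.win P v _ h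
  | move P u v s _ _ ih1 ih2 => exact DT.move P u v _ ih1 ih2

theorem DT.mono {P : Finset (ℕ × ℕ)} {v : ℕ × ℕ} {s t : ℕ} (h : DT P v s) (hst : s ≤ t) :
    DT P v t := by
  induction hst with
  | refl => exact h
  | step _ ih => exact ih.succ

theorem DT.bound {P : Finset (ℕ × ℕ)} {v : ℕ × ℕ} {s : ℕ} (h : DT P v s) (H : ℕ) :
    ¬ Blocked P H 0 → Blocked (insert v P) H 0 → H ≤ P.card + s := by
  induction h with
  | win P v s h =>
    intro h1 h2
    have h3 := pyramid_step h H 0 h1 h2
    have h4 := card_filter_le (insert v P) (cone H 0)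
    have h5 := card_insert_le v P
    omega
  | move P u v s _ _ ih1 ih2 =>
    intro h1 h2
    by_cases hb : Blocked (insert u P) H 0
    · have := ih1 h1 hb
      omega
    · have h3 : Blocked (insert v (insert u P)) H 0 :=
        Blocked.mono (insert_subset_insert _ (subset_insert _ _)) H 0 h2
      have := ih2 hb h3
      have h5 := card_insert_le u P
      omega

theorem DT.apex {H s : ℕ} (h : DT ∅ (H, 0) s) : H ≤ s := by
  have := h.bound H (not_blocked_empty H 0) (blocked_of_mem _ _ (mem_insert_self _ _))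
  simpa using this

/-- The frontier of a word: children of nodes of the word that are not in the word. -/
def front (w : List (Option (ℕ × ℕ))) : Finset (ℕ × ℕ) :=
  ((w.filterMap id).toFinset.biUnion ch).filter (fun u => some u ∉ w)

theorem mem_front {w : List (Option (ℕ × ℕ))} {u : ℕ × ℕ} :
    u ∈ front w ↔ (∃ v, some v ∈ w ∧ u ∈ ch v) ∧ some u ∉ w := by
  simp [front]

theorem dt_of_word (q : ℕ) : ∀ (r : ℕ) (w : List (Option (ℕ × ℕ))), w.length ≤ 2 ^ r →
    (∀ a m c, w = a ++ m ++ c → (front m).card ≤ q) →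
    ∀ (v : ℕ × ℕ) (P : Finset (ℕ × ℕ)), some v ∈ w → (∀ u ∈ front w, u.1 < v.1 → u ∈ P) →
      DT P v (2 * q * r)
  | 0, w, hl, _, v, P, hv, hP => by
    apply DT.win
    intro u hu
    apply hP u _ (ch_lt hu)
    refine mem_front.mpr ⟨⟨v, hv, hu⟩, ?_⟩
    intro hu'
    have hlt := ch_lt hu
    match w, hl, hv, hu' with
    | [x], _, hv, hu' =>
      simp only [List.mem_singleton] at hv hu'
      have : u = v := Option.some.inj (hu'.trans hv.symm)
      rw [this] at hlt
      exact lt_irrefl _ hlt
    | _ :: _ :: _, hl, _, _ => simp at hl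
  | r + 1, w, hl, hq, v, P, hv, hP => by
    classical
    set w₁ := w.take (2 ^ r) with hw₁
    set w₂ := w.drop (2 ^ r) with hw₂
    have hw : w = w₁ ++ w₂ := (List.take_append_drop _ _).symm
    have hl₁ : w₁.length ≤ 2 ^ r := by simp [hw₁]
    have hl₂ : w₂.length ≤ 2 ^ r := by
      simp only [hw₂, List.length_drop]
      rw [pow_succ] at hl
      omega
    have hq₁ : ∀ a m c, w₁ = a ++ m ++ c → (front m).card ≤ q := by
      intro a m c h
      exact hq a m (c ++ w₂) (by rw [hw, h]; simp)
    have hq₂ : ∀ a m c, w₂ = a ++ m ++ c → (front m).card ≤ q := by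
      intro a m c h
      exact hq (w₁ ++ a) m c (by rw [hw, h]; simp)
    have ih₁ := dt_of_word q r w₁ hl₁ hq₁
    have ih₂ := dt_of_word q r w₂ hl₂ hq₂
    have hc₁ : (front w₁).card ≤ q := hq₁ [] w₁ [] (by simp)
    have hc₂ : (front w₂).card ≤ q := hq₂ [] w₂ [] (by simp)
    have hmem : ∀ x, x ∈ w ↔ x ∈ w₁ ∨ x ∈ w₂ := by
      intro x
      conv_lhs => rw [hw]
      exact List.mem_append
    -- base step: nothing is missing
    have base : ∀ (v : ℕ × ℕ) (P : Finset (ℕ × ℕ)), some v ∈ w →
        (∀ u ∈ front w₁ ∪ front w₂, u.1 < v.1 → u ∈ P) → DT P v (2 * q * r) := by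
      intro v P hv hP
      rcases (hmem _).mp hv with h | h
      · exact ih₁ v P h (fun u hu => hP u (mem_union_left _ hu))
      · exact ih₂ v P h (fun u hu => hP u (mem_union_right _ hu))
    have key : ∀ (j : ℕ) (P : Finset (ℕ × ℕ)), (∀ u ∈ front w, u.1 < v.1 → u ∈ P) →
        ((front w₁ ∪ front w₂).filter (fun u => u.1 < v.1 ∧ u ∉ P)).card ≤ j →
        DT P v (2 * q * r + j) := by
      intro j
      induction j with
      | zero =>
        intro P hP hc
        apply base v P hv
        intro u hu hlt
        by_contra hn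
        have : u ∈ (front w₁ ∪ front w₂).filter (fun u => u.1 < v.1 ∧ u ∉ P) :=
          mem_filter.mpr ⟨hu, hlt, hn⟩
        rw [Nat.le_zero, card_eq_zero] at hc
        simp [hc] at this
      | succ j ih =>
        intro P hP hc
        by_cases hne : ((front w₁ ∪ front w₂).filter (fun u => u.1 < v.1 ∧ u ∉ P)).Nonempty
        · obtain ⟨u, hu, hmin⟩ := exists_min_image _ (fun u : ℕ × ℕ => u.1) hne
          obtain ⟨hu1, hu2, hu3⟩ := mem_filter.mp hu
          have huw : some u ∈ w := by
            by_contra hn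
            apply hu3
            apply hP u _ hu2
            refine mem_front.mpr ⟨?_, hn⟩
            rcases mem_union.mp hu1 with h | h
            · obtain ⟨⟨x, hx, hx'⟩, -⟩ := mem_front.mp h
              exact ⟨x, (hmem _).mpr (Or.inl hx), hx'⟩
            · obtain ⟨⟨x, hx, hx'⟩, -⟩ := mem_front.mp h
              exact ⟨x, (hmem _).mpr (Or.inr hx), hx'⟩
          have d1 : DT P u (2 * q * r + j) := by
            refine (base u P huw ?_).mono (by omega)
            intro x hx hlt
            by_contra hn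
            have := hmin x (mem_filter.mpr ⟨hx, by omega, hn⟩)
            omega
          have d2 : DT (insert u P) v (2 * q * r + j) := by
            apply ih
            · intro x hx hlt
              exact mem_insert_of_mem (hP x hx hlt)
            · have hsub : (front w₁ ∪ front w₂).filter (fun x => x.1 < v.1 ∧ x ∉ insert u P) ⊆
                  ((front w₁ ∪ front w₂).filter (fun u => u.1 < v.1 ∧ u ∉ P)).erase u := by
                intro x hx
                obtain ⟨h1, h2, h3⟩ := mem_filter.mp hx
                rw [mem_insert, not_or] at h3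
                exact mem_erase.mpr ⟨h3.1, mem_filter.mpr ⟨h1, h2, h3.2⟩⟩
              have h4 := card_le_card hsub
              rw [card_erase_of_mem hu] at h4
              omega
          exact DT.move P u v _ d1 d2
        · refine (base v P hv ?_).mono (by omega)
          intro u hu hlt
          by_contra hn
          exact hne ⟨u, mem_filter.mpr ⟨hu, hlt, hn⟩⟩
    have hcard : ((front w₁ ∪ front w₂).filter (fun u => u.1 < v.1 ∧ u ∉ P)).card ≤ 2 * q := by
      have h1 := card_filter_le (front w₁ ∪ front w₂) (fun u => u.1 < v.1 ∧ u ∉ P)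
      have h2 := card_union_le (front w₁) (front w₂)
      omega
    have := key (2 * q) P hP hcard
    convert this using 1
    ring

/-- A closed word that contains the apex has a factor with a large frontier. -/
theorem exists_large_front {H q r : ℕ} {w : List (Option (ℕ × ℕ))} (hl : w.length ≤ 2 ^ r)
    (hroot : some (H, 0) ∈ w) (hclosed : front w = ∅) (hq : 2 * q * r < H) :
    ∃ a m c, w = a ++ m ++ c ∧ q + 1 ≤ (front m).card := by
  by_contra hn
  push Not at hn
  have h := dt_of_word q r w hl (fun a m c h => by have := hn a m c h; omega) (H, 0) ∅ hroot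
    (by simp [hclosed])
  have := h.apex
  omega

end Pool.Agent.Work.MP_807b32_lc
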