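import Pool.Agent.Work.MP_807b32_lc.Defs
import Pool.Agent.Work.MP_807b32_lc.Pebble
import Pool.Agent.Work.MP_807b32_lc.Count
import Mathlib.Data.Nat.Log
import Mathlib.Data.Nat.Choose.Bounds

/-!
The lower bound for nondeterministic thrifty branching programs.
-/

namespace Pool.Agent.Work.MP_807b32_lc

open Finset

variable {H k : ℕ} {S : Type}

theorem Walk.append {B : NBP H k S} {s m t : S} {a b : List (Option (Var H k × Fin k))}
    (h1 : Walk B s a m) (h2 : Walk B m b t) : Walk B s (a ++ b) t := by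
  induction h1 with
  | nil s => simpa using h2
  | cons he _ ih => exact Walk.cons he (ih h2)

theorem Walk.split {B : NBP H k S} : ∀ (a : List (Option (Var H k × Fin k))) {s t : S}
    {b : List (Option (Var H k × Fin k))}, Walk B s (a ++ b) t →
      ∃ m, Walk B s a m ∧ Walk B m b t
  | [], s, _, _, h => ⟨s, Walk.nil s, h⟩
  | e :: a, _, _, _, h => by
    cases h with
    | cons he hw =>
      obtain ⟨m, h1, h2⟩ := Walk.split a hw
      exact ⟨m, Walk.cons he h1, h2⟩

theorem Walk.shorten [Fintype S] {B : NBP H k S} {s t : S} :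
    ∀ (n : ℕ) (w : List (Option (Var H k × Fin k))), w.length ≤ n → Walk B s w t →
      ∃ w', w'.length < Fintype.card S ∧ (∀ e ∈ w', e ∈ w) ∧ Walk B s w' t := by
  intro n
  induction n with
  | zero =>
    intro w hl hw
    exact ⟨w, by have := Fintype.card_pos_iff.mpr ⟨s⟩; omega, fun _ h => h, hw⟩
  | succ n ih =>
    intro w hl hw
    by_cases hlt : w.length < Fintype.card S
    · exact ⟨w, hlt, fun _ h => h, hw⟩
    have hex : ∀ i : Fin (w.length + 1), ∃ m, Walk B s (w.take i) m ∧ Walk B m (w.drop i) t := by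
      intro i
      apply Walk.split
      rw [List.take_append_drop]
      exact hw
    choose st hst using hex
    obtain ⟨i, j, hij, he⟩ := Fintype.exists_ne_map_eq_of_card_lt st
      (by rw [Fintype.card_fin]; omega)
    wlog hlt' : i < j generalizing i j
    · exact this j i hij.symm he.symm (lt_of_le_of_ne (not_lt.mp hlt') hij.symm)
    have hw' : Walk B s (w.take i ++ w.drop j) t := (hst i).1.append (he ▸ (hst j).2)
    have hj := j.2
    have hij' : (i : ℕ) < j := hlt'
    obtain ⟨w', h1, h2, h3⟩ := ih (w.take i ++ w.drop j)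
      (by simp only [List.length_append, List.length_take, List.length_drop]; omega) hw'
    refine ⟨w', h1, fun e he => ?_, h3⟩
    rcases List.mem_append.mp (h2 e he) with h | h
    · exact List.mem_of_mem_take h
    · exact List.mem_of_mem_drop h

/-- The node a variable belongs to. -/
def node : Var H k → ℕ × ℕ
  | Var.leaf i _ => (0, i)
  | Var.entry l i _ _ _ => (l + 1, i)

theorem node_le (q : Var H k) : (node q).1 + (node q).2 ≤ H := by
  cases q with
  | leaf i h => simpa [node] using h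
  | entry l i h a b => simpa [node] using h

/-- The word of nodes of a list of labels. -/
def nw (w : List (Option (Var H k × Fin k))) : List (Option (ℕ × ℕ)) :=
  w.map (fun e => e.map (fun p => node p.1))

theorem mem_nw {w : List (Option (Var H k × Fin k))} {u : ℕ × ℕ} :
    some u ∈ nw w ↔ ∃ q c, some (q, c) ∈ w ∧ node q = u := by
  simp only [nw, List.mem_map]
  constructor
  · rintro ⟨e, he, h⟩
    cases e with
    | none => simp at h
    | some p => exact ⟨p.1, p.2, he, by simpa using h⟩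
  · rintro ⟨q, c, h, rfl⟩
    exact ⟨_, h, rfl⟩

/-- The value of a node is read off from a variable of that node. -/
theorem nodeVal_eq (I : Var H k → Fin k) : ∀ (l i : ℕ) (h : l + i ≤ H),
    ∃ q : Var H k, node q = (l, i) ∧ nodeVal I l i h = I q
  | 0, i, h => ⟨Var.leaf i (by omega), rfl, by simp [nodeVal]⟩
  | l + 1, i, h => ⟨Var.entry l i h _ _, rfl, by rw [nodeVal]⟩

/-- Two inputs for which a query is thrifty give the same values to the children of its node. -/
theorem thrifty_child {I J : Var H k → Fin k} {q : Var H k} (hI : ThriftyQuery I q)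
    (hJ : ThriftyQuery J q) {u : ℕ × ℕ} (hu : u ∈ ch (node q)) :
    ∃ h : u.1 + u.2 ≤ H, nodeVal I u.1 u.2 h = nodeVal J u.1 u.2 h := by
  cases q with
  | leaf i h => simp [node, ch] at hu
  | entry l i h a b =>
    simp only [node, ch, mem_insert, mem_singleton] at hu
    simp only [ThriftyQuery] at hI hJ
    rcases hu with rfl | rfl
    · exact ⟨by simp only; omega, hI.1.symm.trans hJ.1⟩
    · exact ⟨by simp only; omega, hI.2.symm.trans hJ.2⟩

/-- The index set of the hard inputs. -/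
abbrev Sq (H : ℕ) : Type := Fin (H + 1) × Fin (H + 1)

/-- A node as an element of the square. -/
def toSq (u : ℕ × ℕ) (h : u.1 + u.2 ≤ H) : Sq H := (⟨u.1, by omega⟩, ⟨u.2, by omega⟩)

/-- An element of the square as a pair of numbers. -/
def ofSq (v : Sq H) : ℕ × ℕ := (v.1, v.2)

theorem ofSq_toSq (u : ℕ × ℕ) (h : u.1 + u.2 ≤ H) : ofSq (toSq u h) = u := rfl

theorem ofSq_injective : Function.Injective (ofSq : Sq H → ℕ × ℕ) := by
  rintro ⟨a, b⟩ ⟨c, d⟩ h
  simp only [ofSq, Prod.mk.injEq] at h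
  exact Prod.ext (Fin.ext h.1) (Fin.ext h.2)

/-- The input whose tables are constant. -/
def inp (x : Sq H → Fin k) : Var H k → Fin k := fun q => x (toSq (node q) (node_le q))

theorem inp_eq (x : Sq H → Fin k) (q : Var H k) {v : Sq H} (h : node q = ofSq v) :
    inp x q = x v := by
  unfold inp
  congr 1
  apply ofSq_injective
  rw [ofSq_toSq, h]

theorem nodeVal_inp (x : Sq H → Fin k) (l i : ℕ) (h : l + i ≤ H) :
    nodeVal (inp x) l i h = x (toSq (l, i) h) := by
  obtain ⟨q, h1, h2⟩ := nodeVal_eq (inp x) l i h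
  rw [h2]
  exact inp_eq x q h1

/-- The apex as an element of the square. -/
def apex (H : ℕ) : Sq H := toSq (H, 0) (by simp)

theorem run_update {B : NBP H k S} {x : Sq H → Fin k} {w : List (Option (Var H k × Fin k))}
    (hw : AcceptingRun B (inp x) w) {v : Sq H} (hv : some (ofSq v) ∉ nw w) (c : Fin k) :
    AcceptingRun B (inp (Function.update x v c)) w := by
  refine ⟨hw.1, fun q d hq => ?_⟩
  rw [← hw.2 q d hq]
  unfold inp
  apply Function.update_of_ne
  intro h
  apply hv
  rw [← h, ofSq_toSq]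
  exact mem_nw.mpr ⟨q, d, hq, rfl⟩

theorem exists_cut [Fintype S] {B : NBP H k S} {c₀ : Fin k} (hk : 2 ≤ k) (hs : Solves B c₀)
    (ht : Thrifty B) {q r : ℕ} (hr : Fintype.card S ≤ 2 ^ r) (hq : 2 * q * r < H)
    (x : Sq H → Fin k) (hx : x (apex H) = c₀) :
    ∃ a m c, AcceptingRun B (inp x) (a ++ m ++ c) ∧ q + 1 ≤ (front (nw m)).card := by
  have : Nontrivial (Fin k) := Fin.nontrivial_iff_two_le.mpr hk
  obtain ⟨w₀, ⟨t, htA, hw₀⟩, hc₀⟩ := (hs (inp x)).mp (by rw [nodeVal_inp]; exact hx)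
  obtain ⟨w, hl, hsub, hw⟩ := Walk.shorten _ w₀ le_rfl hw₀
  have hrun : AcceptingRun B (inp x) w := ⟨⟨t, htA, hw⟩, fun q c h => hc₀ q c (hsub _ h)⟩
  have hroot : some (H, 0) ∈ nw w := by
    by_contra hn
    obtain ⟨c, hc⟩ := exists_ne c₀
    have h1 := run_update hrun (v := apex H) hn c
    have h2 := (hs _).mpr ⟨w, h1⟩
    rw [nodeVal_inp] at h2
    apply hc
    rw [← h2]
    exact (Function.update_self (apex H) c x).symm
  have hclosed : front (nw w) = ∅ := by
    apply Finset.eq_empty_of_forall_notMem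
    intro u hu
    obtain ⟨⟨v, hv, huv⟩, hn⟩ := mem_front.mp hu
    obtain ⟨p, d, hp, rfl⟩ := mem_nw.mp hv
    have h0 := ht _ _ hrun p d hp
    obtain ⟨h, -⟩ := thrifty_child h0 h0 huv
    obtain ⟨c, hc⟩ := exists_ne (x (toSq u h))
    have h1 := run_update hrun (v := toSq u h) hn c
    obtain ⟨h', h2⟩ := thrifty_child h0 (ht _ _ h1 p d hp) huv
    rw [nodeVal_inp, nodeVal_inp] at h2
    apply hc
    rw [h2]
    exact (Function.update_self (toSq u h) c x).symm
  obtain ⟨a, m, c, h1, h2⟩ := exists_large_front (w := nw w) (r := r) (q := q)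
    (by simp only [nw, List.length_map]; omega) hroot hclosed hq
  simp only [nw] at h1
  obtain ⟨am, c', rfl, h3, -⟩ := List.map_eq_append_iff.mp h1
  obtain ⟨a', m', rfl, -, h4⟩ := List.map_eq_append_iff.mp h3
  exact ⟨a', m', c', hrun, by rw [← h4] at h2; exact h2⟩

theorem paste {B : NBP H k S} (ht : Thrifty B) {x x' : Sq H → Fin k}
    {a m c a' m' c' : List (Option (Var H k × Fin k))} {s₁ s₂ : S}
    (hx : AcceptingRun B (inp x) (a ++ m ++ c)) (hx' : AcceptingRun B (inp x') (a' ++ m' ++ c'))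
    (h1 : Walk B B.start a s₁) (h2 : Walk B s₁ m' s₂) (h3 : ∃ t ∈ B.accept, Walk B s₂ c t)
    {Q : Finset (Sq H)} (hQ : ∀ v ∈ Q, ofSq v ∈ front (nw m'))
    (hag : ∀ v, v ∉ Q → x v = x' v) : x = x' := by
  classical
  funext u
  by_contra hne
  have huQ : u ∈ Q := by
    by_contra h
    exact hne (hag u h)
  let I : Var H k → Fin k := fun q => if ∃ d, some (q, d) ∈ m' then inp x' q else inp x q
  have hout : ∀ q d, some (q, d) ∈ a ++ m ++ c → I q = d := by
    intro q d hq
    rw [← hx.2 q d hq]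
    simp only [I]
    split_ifs with h
    · obtain ⟨d', hd'⟩ := h
      unfold inp
      symm
      apply hag
      intro hmem
      have := (mem_front.mp (hQ _ hmem)).2
      rw [ofSq_toSq] at this
      exact this (mem_nw.mpr ⟨q, d', hd', rfl⟩)
    · rfl
  have hrun : AcceptingRun B I (a ++ m' ++ c) := by
    obtain ⟨t, htA, h3⟩ := h3
    refine ⟨⟨t, htA, (h1.append h2).append h3⟩, fun q d hq => ?_⟩
    rcases List.mem_append.mp hq with hq | hq
    · rcases List.mem_append.mp hq with hq | hq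
      · exact hout q d (by simp [hq])
      · simp only [I]
        rw [if_pos ⟨d, hq⟩]
        exact hx'.2 q d (by simp [hq])
    · exact hout q d (by simp [hq])
  obtain ⟨⟨v, hv, huv⟩, hn⟩ := mem_front.mp (hQ u huQ)
  obtain ⟨p, d, hp, rfl⟩ := mem_nw.mp hv
  have t1 := ht _ _ hrun p d (by simp [hp])
  have t2 := ht _ _ hx' p d (by simp [hp])
  obtain ⟨h, h5⟩ := thrifty_child t1 t2 huv
  rw [nodeVal_inp] at h5
  obtain ⟨q, hq1, hq2⟩ := nodeVal_eq I (ofSq u).1 (ofSq u).2 h
  have hq3 : I q = x u := by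
    simp only [I]
    rw [if_neg]
    · exact inp_eq x q hq1
    · rintro ⟨d', hd'⟩
      exact hn (mem_nw.mpr ⟨q, d', hd', hq1⟩)
  apply hne
  rw [← hq3, ← hq2, h5]
  rfl

theorem front_le {w : List (Option (Var H k × Fin k))} {u : ℕ × ℕ} (hu : u ∈ front (nw w)) :
    u.1 + u.2 ≤ H ∧ u.1 < H := by
  obtain ⟨⟨v, hv, huv⟩, -⟩ := mem_front.mp hu
  obtain ⟨p, d, -, rfl⟩ := mem_nw.mp hv
  cases p with
  | leaf i h => simp [node, ch] at huv
  | entry l i h a b =>
    simp only [node, ch, mem_insert, mem_singleton] at huv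
    rcases huv with rfl | rfl <;> simp only <;> omega

theorem main_count [Fintype S] {B : NBP H k S} {c₀ : Fin k} (hk : 2 ≤ k) (hs : Solves B c₀)
    (ht : Thrifty B) {q r : ℕ} (hr : Fintype.card S ≤ 2 ^ r) (hq : 2 * q * r < H) :
    k ^ (q + 1) ≤ Fintype.card S ^ 2 * ((H + 1) ^ 2).choose (q + 1) := by
  classical
  have hcut : ∀ x : Sq H → Fin k, ∃ (a m c : List (Option (Var H k × Fin k))) (s : S × S)
      (Q : Finset (Sq H)), x (apex H) = c₀ → AcceptingRun B (inp x) (a ++ m ++ c) ∧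
        Walk B B.start a s.1 ∧ Walk B s.1 m s.2 ∧ (∃ t ∈ B.accept, Walk B s.2 c t) ∧
        (∀ v ∈ Q, ofSq v ∈ front (nw m)) ∧ Q.card = q + 1 := by
    intro x
    by_cases hx : x (apex H) = c₀
    · obtain ⟨a, m, c, hrun, hcard⟩ := exists_cut hk hs ht hr hq x hx
      obtain ⟨⟨t, htA, hw⟩, -⟩ := id hrun
      obtain ⟨s₂, h12, h3⟩ := Walk.split _ hw
      obtain ⟨s₁, h1, h2⟩ := Walk.split _ h12
      have hle : q + 1 ≤ (univ.filter (fun v : Sq H => ofSq v ∈ front (nw m))).card := by
        refine hcard.trans ?_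
        apply card_le_card_of_surjOn ofSq
        intro u hu
        have hu' := (front_le (mem_coe.mp hu)).1
        exact ⟨toSq u hu', by simpa [ofSq_toSq] using hu, rfl⟩
      obtain ⟨Q, hQ1, hQ2⟩ := exists_subset_card_eq hle
      exact ⟨a, m, c, (s₁, s₂), Q, fun _ => ⟨hrun, h1, h2, ⟨t, htA, h3⟩,
        fun v hv => (mem_filter.mp (hQ1 hv)).2, hQ2⟩⟩
    · exact ⟨[], [], [], (B.start, B.start), ∅, fun h => absurd h hx⟩
  choose a m c s Q h using hcut
  have := count_bound (apex H) c₀ (q + 1) s Q ?_ ?_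
  · simpa [Fintype.card_prod, sq] using this
  · intro x hx
    obtain ⟨-, -, -, -, h5, h6⟩ := h x hx
    refine ⟨h6, fun hmem => ?_⟩
    have := (front_le (h5 _ hmem)).2
    simp [apex, ofSq_toSq] at this
  · intro x x' hx hx' hσ hag
    obtain ⟨h1, h2, -, h4, -, -⟩ := h x hx
    obtain ⟨h1', -, h3', -, h5', -⟩ := h x' hx'
    rw [← hσ] at h3'
    exact paste ht h1 h1' h2 h3' h4 h5' hag

theorem main_bound [Fintype S] {B : NBP H k S} {c₀ : Fin k} (hs : Solves B c₀)
    (ht : Thrifty B) :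
    Nat.log 2 (k / (H + 1) ^ 2) * H ≤ 4 * (Nat.clog 2 (Fintype.card S)) ^ 2 := by
  set d := Nat.log 2 (k / (H + 1) ^ 2) with hd
  set r := Nat.clog 2 (Fintype.card S) with hr
  set M := (H + 1) ^ 2 with hM
  rcases Nat.eq_zero_or_pos d with h0 | hdpos
  · simp [h0]
  rcases Nat.eq_zero_or_pos H with h0 | hH
  · simp [h0]
  have hMpos : 0 < M := by positivity
  have hkM : k / M ≠ 0 := by
    intro h
    rw [h] at hd
    simp at hd
    omega
  have h2d : 2 ^ d * M ≤ k :=
    (Nat.mul_le_mul_right M (Nat.pow_log_le_self 2 hkM)).trans (Nat.div_mul_le_self k M)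
  have h2 : 2 ≤ 2 ^ d := by
    calc 2 = 2 ^ 1 := by norm_num
      _ ≤ 2 ^ d := Nat.pow_le_pow_right (by norm_num) hdpos
  have hk : 2 ≤ k := by nlinarith
  have hN : Fintype.card S ≤ 2 ^ r := Nat.le_pow_clog (by norm_num) _
  rcases Nat.eq_zero_or_pos r with h0 | hrpos
  · have := main_count hk hs ht (q := M) hN (by rw [h0]; simpa using hH)
    rw [Nat.choose_eq_zero_of_lt (by omega)] at this
    have h3 : 0 < k ^ (M + 1) := by positivity
    omega
  set q := (H - 1) / (2 * r) with hq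
  have hq1 : 2 * q * r < H := by
    have := Nat.div_mul_le_self (H - 1) (2 * r)
    rw [← hq] at this
    have h3 : 2 * q * r = q * (2 * r) := by ring
    omega
  have hq2 : H ≤ 2 * r * (q + 1) := by
    have := Nat.lt_mul_div_succ (H - 1) (show 0 < 2 * r by omega)
    rw [← hq] at this
    omega
  have h3 := main_count hk hs ht hN hq1
  have h4 : M.choose (q + 1) ≤ M ^ (q + 1) := Nat.choose_le_pow _ _
  have h5 : (2 ^ d * M) ^ (q + 1) ≤ k ^ (q + 1) := Nat.pow_le_pow_left h2d _
  have h6 : Fintype.card S ^ 2 ≤ (2 ^ r) ^ 2 := Nat.pow_le_pow_left hN _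
  have h7 : 2 ^ (d * (q + 1)) * M ^ (q + 1) ≤ 2 ^ (2 * r) * M ^ (q + 1) := by
    calc 2 ^ (d * (q + 1)) * M ^ (q + 1) = (2 ^ d * M) ^ (q + 1) := by rw [mul_pow, ← pow_mul 2 d]
      _ ≤ Fintype.card S ^ 2 * M.choose (q + 1) := h5.trans h3
      _ ≤ (2 ^ r) ^ 2 * M ^ (q + 1) := Nat.mul_le_mul h6 h4
      _ = 2 ^ (2 * r) * M ^ (q + 1) := by rw [← pow_mul, mul_comm r 2]
  have h8 : d * (q + 1) ≤ 2 * r :=
    (Nat.pow_le_pow_iff_right (by norm_num)).mp
      (Nat.le_of_mul_le_mul_right h7 (by positivity))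
  calc d * H ≤ d * (2 * r * (q + 1)) := Nat.mul_le_mul_left _ hq2
    _ = 2 * r * (d * (q + 1)) := by ring
    _ ≤ 2 * r * (2 * r) := Nat.mul_le_mul_left _ h8
    _ = 4 * r ^ 2 := by ring

end Pool.Agent.Work.MP_807b32_lc
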