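import Pool.Agent.Work.MP_807b32_lc.TS.DetMain

/-!
Time-space tradeoff for deterministic Boolean branching programs.
-/

namespace Pool.Agent.Results.MP_807b32_lc.DetTradeoff

open Pool.Agent.Work.MP_807b32_lc.TS

theorem result : ∃ C : ℕ, ∀ (n k : ℕ), 2 ≤ k → ∀ (S : Type) [Fintype S]
    (B : DBP (Fin 3 × Fin n) S) (T : ℕ), T ≤ k * n → B.ComputesIn (Hard n) T →
    n ≤ k ^ (C * k) * (Nat.clog 2 (Fintype.card S) + 1) :=
  det_main

end Pool.Agent.Results.MP_807b32_lc.DetTradeoff
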