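import Pool.Agent.Work.MP_807b32_lc.Sem.Main

/-!
Exponential lower bound for Boolean nondeterministic branching programs whose accepting
computations are light; this covers programs that read each variable at most `k` times along some
accepting consistent walk of each accepted input.
-/

namespace Pool.Agent.Results.MP_807b32_lc.SemanticReadK

open Pool.Agent.Work.MP_807b32_lc.Sem

theorem result (k : ℕ) : ∃ c p₀ : ℕ, ∀ (p : ℕ) [Fact p.Prime], p₀ ≤ p →
    ∀ (N : ℕ) (S : Type) [Fintype S] (B : NBP ((Fin N ⊕ Fin (4 * N + 1)) × ZMod p) S),
      Computes B (Hard p N) → Light B k → 2 ^ N ≤ (p * Fintype.card S) ^ c :=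
  main k

end Pool.Agent.Results.MP_807b32_lc.SemanticReadK
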