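import Pool.Agent.Work.MP_807b32_lc.Main

namespace Pool.Agent.Results.MP_807b32_lc.ThriftyPyramid

open Pool.Agent.Work.MP_807b32_lc

/-- Every nondeterministic thrifty branching program with `N` states that decides whether the apex
of the height-`H` pyramid over `Fin k` evaluates to `c₀` satisfies
`⌊log₂ (k / (H+1)²)⌋ * H ≤ 4 * ⌈log₂ N⌉²`. -/
theorem result (H k : ℕ) (c₀ : Fin k) (S : Type) [Fintype S] (B : NBP H k S)
    (hsolves : Solves B c₀) (hthrifty : Thrifty B) :
    Nat.log 2 (k / (H + 1) ^ 2) * H ≤ 4 * (Nat.clog 2 (Fintype.card S)) ^ 2 :=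
  main_bound hsolves hthrifty

end Pool.Agent.Results.MP_807b32_lc.ThriftyPyramid
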