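import Pool.Agent.Work.MP_807b32_lc.TreeGapMain

namespace Pool.Agent.Work.MP_807b32_lc.OldTreeEvalNondet

open Pool.Agent.Work.MP_807b32_lc.Tree

/-- Tree evaluation with `h = H + 1` levels over `Fin k` is computed by a nondeterministic thrifty
`k`-way branching program with at most `k^4 * 2^(C (h + √(h ⌈log₂ k⌉ ⌈log₂ (h+1)⌉)))` states, for
an absolute constant `C`. -/
theorem result : ∃ C : ℕ, ∀ H k : ℕ, 0 < k →
    ∃ (S : Type) (_ : Fintype S) (P : BP (Var k H) k S), Computes P ∧ Thrifty P ∧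
      Fintype.card S ≤ k ^ 4 * 2 ^ (C * (H + 1 +
        Nat.sqrt ((H + 1) * Nat.clog 2 k * Nat.clog 2 (H + 2)))) :=
  ⟨203, exists_small_prog⟩

end Pool.Agent.Work.MP_807b32_lc.OldTreeEvalNondet
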