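import Mathlib.Data.Fintype.Sum
import Mathlib.Data.Fintype.Prod
import Mathlib.Data.Fintype.Card

/-!
Small machines with a finite control, a memory and an output channel, and four ways to build them.
-/

namespace Pool.Agent.Work.MP_807b32_lc.Tree

structure Mach (k : ℕ) (V M E : Type) where
  C : Type
  fin : Fintype C
  ini : C
  out : C
  query : C → V
  step : C → M → Fin k → C → M → Option E → Prop
  nostep : ∀ m x c m' e, ¬ step out m x c m' e

variable {k : ℕ} {V V' M E E' R A : Type}

def Mach.size (P : Mach k V M E) : ℕ := @Fintype.card P.C P.fin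

inductive Run (P : Mach k V M E) (I : V → Fin k) :
    P.C → M → List V → List E → P.C → M → Prop
  | nil (c : P.C) (m : M) : Run P I c m [] [] c m
  | cons {c c' c'' : P.C} {m m' m'' : M} {e : Option E} {qs : List V} {es : List E} :
      P.step c m (I (P.query c)) c' m' e → Run P I c' m' qs es c'' m'' →
        Run P I c m (P.query c :: qs) (e.toList ++ es) c'' m''

def Sem (P : Mach k V M E) (I : V → Fin k) (m : M) (qs : List V) (es : List E) (m' : M) : Prop :=
  Run P I P.ini m qs es P.out m'

theorem Run.trans {P : Mach k V M E} {I : V → Fin k} {c c' c'' : P.C} {m m' m'' : M}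
    {qs qs' : List V} {es es' : List E} (h : Run P I c m qs es c' m')
    (h' : Run P I c' m' qs' es' c'' m'') : Run P I c m (qs ++ qs') (es ++ es') c'' m'' := by
  induction h with
  | nil => simpa using h'
  | cons hs _ ih =>
    have := Run.cons hs (ih h')
    simpa [List.append_assoc] using this

/-! ### Sequential composition -/

@[reducible] def seq (P Q : Mach k V M E) : Mach k V M E where
  C := P.C ⊕ Q.C
  fin := by letI := P.fin; letI := Q.fin; infer_instance
  ini := Sum.inl P.ini
  out := Sum.inr Q.out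
  query := Sum.elim P.query Q.query
  step := fun s m x s' m' e =>
    match s, s' with
    | Sum.inl c, Sum.inl c' => P.step c m x c' m' e
    | Sum.inl c, Sum.inr c' => c = P.out ∧ c' = Q.ini ∧ m' = m ∧ e = none
    | Sum.inr c, Sum.inr c' => Q.step c m x c' m' e
    | Sum.inr _, Sum.inl _ => False
  nostep := by
    intro m x c m' e
    cases c with
    | inl c => exact fun h => h
    | inr c => exact Q.nostep m x c m' e

theorem size_seq (P Q : Mach k V M E) : (seq P Q).size = P.size + Q.size := by
  let _ := P.fin; let _ := Q.fin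
  exact Fintype.card_sum

theorem seq_run_inr {P Q : Mach k V M E} {I : V → Fin k} {s s' : (seq P Q).C} {m m' : M}
    {qs : List V} {es : List E} (h : Run (seq P Q) I s m qs es s' m') :
    ∀ c, s = Sum.inr c → ∃ c', s' = Sum.inr c' ∧ Run Q I c m qs es c' m' := by
  induction h with
  | nil s m => intro c hc; exact ⟨c, hc, Run.nil _ _⟩
  | @cons s1 s2 s3 m1 m2 m3 e qs es hs _ ih =>
    intro c hc
    subst hc
    cases s2 with
    | inl c2 => exact absurd hs (fun h => h)
    | inr c2 =>
      obtain ⟨c', h1, h2⟩ := ih c2 rfl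
      exact ⟨c', h1, Run.cons (P := Q) hs h2⟩

theorem seq_run_inl {P Q : Mach k V M E} {I : V → Fin k} {s s' : (seq P Q).C} {m m' : M}
    {qs : List V} {es : List E} (h : Run (seq P Q) I s m qs es s' m') :
    ∀ c c', s = Sum.inl c → s' = Sum.inr c' → ∃ m1 qs1 es1 qs2 es2,
      Run P I c m qs1 es1 P.out m1 ∧ Run Q I Q.ini m1 qs2 es2 c' m' ∧
        qs = qs1 ++ P.query P.out :: qs2 ∧ es = es1 ++ es2 := by
  induction h with
  | nil s m => intro c c' h1 h2; rw [h1] at h2; cases h2
  | @cons s1 s2 s3 m1 m2 m3 e qs es hs hr ih =>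
    intro c c' h1 h2
    subst h1
    cases s2 with
    | inl c2 =>
      obtain ⟨m4, qs1, es1, qs2, es2, r1, r2, e1, e2⟩ := ih c2 c' rfl h2
      refine ⟨m4, P.query c :: qs1, e.toList ++ es1, qs2, es2, Run.cons (P := P) hs r1, r2, ?_, ?_⟩
      · simp [e1]
      · simp [e2]
    | inr c2 =>
      obtain ⟨rfl, rfl, rfl, rfl⟩ := hs
      obtain ⟨c3, h3, r⟩ := seq_run_inr hr _ rfl
      rw [h2] at h3
      cases h3
      exact ⟨m2, [], [], qs, es, Run.nil _ _, r, rfl, by simp⟩

theorem seq_of_left {P Q : Mach k V M E} {I : V → Fin k} {c c' : P.C} {m m' : M}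
    {qs : List V} {es : List E} (h : Run P I c m qs es c' m') :
    Run (seq P Q) I (Sum.inl c) m qs es (Sum.inl c') m' := by
  induction h with
  | nil => exact Run.nil _ _
  | @cons c1 c2 c3 m1 m2 m3 e qs es hs _ ih =>
    exact Run.cons (P := seq P Q) (c := Sum.inl c1) (c' := Sum.inl c2) hs ih

theorem seq_of_right {P Q : Mach k V M E} {I : V → Fin k} {c c' : Q.C} {m m' : M}
    {qs : List V} {es : List E} (h : Run Q I c m qs es c' m') :
    Run (seq P Q) I (Sum.inr c) m qs es (Sum.inr c') m' := by
  induction h with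
  | nil => exact Run.nil _ _
  | @cons c1 c2 c3 m1 m2 m3 e qs es hs _ ih =>
    exact Run.cons (P := seq P Q) (c := Sum.inr c1) (c' := Sum.inr c2) hs ih

theorem sem_seq {P Q : Mach k V M E} {I : V → Fin k} {m m' : M} {qs : List V} {es : List E} :
    Sem (seq P Q) I m qs es m' ↔ ∃ m1 qs1 es1 qs2 es2,
      Sem P I m qs1 es1 m1 ∧ Sem Q I m1 qs2 es2 m' ∧
        qs = qs1 ++ P.query P.out :: qs2 ∧ es = es1 ++ es2 := by
  constructor
  · intro h
    exact seq_run_inl h _ _ rfl rfl
  · rintro ⟨m1, qs1, es1, qs2, es2, r1, r2, rfl, rfl⟩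
    have h1 := seq_of_left (Q := Q) r1
    have h2 := seq_of_right (P := P) r2
    have h3 := Run.cons (P := seq P Q) (I := I) (c := Sum.inl P.out) (c' := Sum.inr Q.ini)
      (m := m1) (m' := m1) (e := none) ⟨rfl, rfl, rfl, rfl⟩ h2
    exact h1.trans h3

/-! ### Calling a machine on a part of the input -/

@[reducible] def call (G : Mach k V' R E') (ι : V' → V) (ψ : E' → A → A) (E : Type) :
    Mach k V (R × A) E where
  C := G.C
  fin := G.fin
  ini := G.ini
  out := G.out
  query := fun c => ι (G.query c)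
  step := fun c m x c' m' e => e = none ∧ ∃ e', G.step c m.1 x c' m'.1 e' ∧
    m'.2 = e'.toList.foldl (fun α z => ψ z α) m.2
  nostep := by
    rintro m x c m' e ⟨_, e', h, _⟩
    exact G.nostep _ _ _ _ _ h

theorem size_call (G : Mach k V' R E') (ι : V' → V) (ψ : E' → A → A) :
    (call G ι ψ E).size = G.size := rfl

theorem call_run {G : Mach k V' R E'} {ι : V' → V} {ψ : E' → A → A} {I : V → Fin k}
    {c c' : (call G ι ψ E).C} {m m' : R × A} {qs : List V} {es : List E}
    (h : Run (call G ι ψ E) I c m qs es c' m') :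
    es = [] ∧ ∃ qs' es', Run G (fun q => I (ι q)) c m.1 qs' es' c' m'.1 ∧ qs = qs'.map ι ∧
      m'.2 = es'.foldl (fun α z => ψ z α) m.2 := by
  induction h with
  | nil c m => exact ⟨rfl, [], [], Run.nil (P := G) c m.1, rfl, rfl⟩
  | @cons c1 c2 c3 m1 m2 m3 e qs es hs _ ih =>
    obtain ⟨rfl, e', hs, h2⟩ := hs
    obtain ⟨rfl, qs', es', r, rfl, h3⟩ := ih
    refine ⟨rfl, G.query c1 :: qs', e'.toList ++ es', Run.cons hs r, rfl, ?_⟩
    rw [List.foldl_append, ← h2, h3]

theorem call_of_run {G : Mach k V' R E'} {ι : V' → V} {ψ : E' → A → A} {I : V → Fin k}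
    {c c' : G.C} {ρ ρ' : R} {qs : List V'} {es : List E'}
    (h : Run G (fun q => I (ι q)) c ρ qs es c' ρ') (α : A) :
    Run (call G ι ψ E) I c (ρ, α) (qs.map ι) [] c' (ρ', es.foldl (fun α z => ψ z α) α) := by
  induction h generalizing α with
  | nil c m => exact Run.nil _ _
  | @cons c1 c2 c3 m1 m2 m3 e qs es hs _ ih =>
    have := Run.cons (P := call G ι ψ E) (I := I) (c := c1) (c' := c2) (m := (m1, α))
      (m' := (m2, e.toList.foldl (fun α z => ψ z α) α)) (e := none) ⟨rfl, e, hs, rfl⟩ (ih _)
    simpa [List.foldl_append] using this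

theorem sem_call {G : Mach k V' R E'} {ι : V' → V} {ψ : E' → A → A} {I : V → Fin k}
    {m m' : R × A} {qs : List V} {es : List E} :
    Sem (call G ι ψ E) I m qs es m' ↔ es = [] ∧ ∃ qs' es',
      Sem G (fun q => I (ι q)) m.1 qs' es' m'.1 ∧ qs = qs'.map ι ∧
        m'.2 = es'.foldl (fun α z => ψ z α) m.2 := by
  constructor
  · exact fun h => call_run h
  · rintro ⟨rfl, qs', es', r, rfl, h⟩
    have := call_of_run (E := E) (ψ := ψ) r m.2
    rw [← h] at this
    exact this

/-! ### Moving a finite part of the memory into the control -/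

@[reducible] def hide (P : Mach k V (R × A) E) [Fintype A] (a₀ : A) : Mach k V R E where
  C := P.C × A
  fin := by letI := P.fin; infer_instance
  ini := (P.ini, a₀)
  out := (P.out, a₀)
  query := fun s => P.query s.1
  step := fun s ρ x s' ρ' e => P.step s.1 (ρ, s.2) x s'.1 (ρ', s'.2) e
  nostep := fun _ _ _ _ _ => P.nostep _ _ _ _ _

theorem size_hide (P : Mach k V (R × A) E) [Fintype A] (a₀ : A) :
    (hide P a₀).size = P.size * Fintype.card A := by
  let _ := P.fin
  exact Fintype.card_prod _ _

theorem hide_run {P : Mach k V (R × A) E} [Fintype A] {a₀ : A} {I : V → Fin k}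
    {s s' : (hide P a₀).C} {ρ ρ' : R} {qs : List V} {es : List E}
    (h : Run (hide P a₀) I s ρ qs es s' ρ') : Run P I s.1 (ρ, s.2) qs es s'.1 (ρ', s'.2) := by
  induction h with
  | nil => exact Run.nil _ _
  | cons hs _ ih => exact Run.cons (P := P) hs ih

theorem hide_of_run {P : Mach k V (R × A) E} [Fintype A] {a₀ : A} {I : V → Fin k}
    {c c' : P.C} {m m' : R × A} {qs : List V} {es : List E}
    (h : Run P I c m qs es c' m') : Run (hide P a₀) I (c, m.2) m.1 qs es (c', m'.2) m'.1 := by
  induction h with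
  | nil => exact Run.nil _ _
  | @cons c1 c2 c3 m1 m2 m3 e qs es hs _ ih =>
    exact Run.cons (P := hide P a₀) (c := (c1, m1.2)) (c' := (c2, m2.2)) hs ih

theorem sem_hide {P : Mach k V (R × A) E} [Fintype A] {a₀ : A} {I : V → Fin k}
    {ρ ρ' : R} {qs : List V} {es : List E} :
    Sem (hide P a₀) I ρ qs es ρ' ↔ Sem P I (ρ, a₀) qs es (ρ', a₀) :=
  ⟨fun h => hide_run h, fun h => hide_of_run (a₀ := a₀) h⟩

/-! ### Guess, then query -/

@[reducible] def atom (G : Type) [Fintype G] (d : V) (q : G → V)
    (rel : G → Fin k → M → M → Option E → Prop) : Mach k V M E where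
  C := Bool ⊕ G
  fin := inferInstance
  ini := Sum.inl false
  out := Sum.inl true
  query := Sum.elim (fun _ => d) q
  step := fun s m x s' m' e =>
    match s, s' with
    | Sum.inl b, Sum.inr _ => b = false ∧ m' = m ∧ e = none
    | Sum.inr g, Sum.inl b => b = true ∧ rel g x m m' e
    | _, _ => False
  nostep := by
    intro m x c m' e
    cases c with
    | inl c => exact fun h => h
    | inr c => exact fun h => Bool.noConfusion h.1

theorem size_atom (G : Type) [Fintype G] (d : V) (q : G → V)
    (rel : G → Fin k → M → M → Option E → Prop) :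
    (atom G d q rel).size = 2 + Fintype.card G := by
  have : Fintype.card (Bool ⊕ G) = 2 + Fintype.card G := by simp
  exact this

theorem run_out {P : Mach k V M E} {I : V → Fin k} {c : P.C} {m m' : M} {qs : List V}
    {es : List E} (h : Run P I P.out m qs es c m') : qs = [] ∧ es = [] ∧ m' = m := by
  generalize hc : P.out = c0 at h
  cases h with
  | nil => exact ⟨rfl, rfl, rfl⟩
  | cons hs _ => subst hc; exact absurd hs (P.nostep _ _ _ _ _)

theorem run_cases {P : Mach k V M E} {I : V → Fin k} {c c'' : P.C} {m m'' : M} {qs : List V}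
    {es : List E} (h : Run P I c m qs es c'' m'') (hne : c ≠ c'') :
    ∃ c' m' e qs' es', P.step c m (I (P.query c)) c' m' e ∧ Run P I c' m' qs' es' c'' m'' ∧
      qs = P.query c :: qs' ∧ es = e.toList ++ es' := by
  cases h with
  | nil => exact absurd rfl hne
  | cons hs hr => exact ⟨_, _, _, _, _, hs, hr, rfl, rfl⟩

theorem sem_atom {G : Type} [Fintype G] {d : V} {q : G → V}
    {rel : G → Fin k → M → M → Option E → Prop} {I : V → Fin k} {m m' : M} {qs : List V}
    {es : List E} :
    Sem (atom G d q rel) I m qs es m' ↔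
      ∃ g e, rel g (I (q g)) m m' e ∧ qs = [d, q g] ∧ es = e.toList := by
  constructor
  · intro h
    obtain ⟨s1, m1, e1, qs1, es1, h1, r1, rfl, rfl⟩ := run_cases h (by simp)
    cases s1 with
    | inl b => exact absurd h1 (fun h => h)
    | inr g =>
      obtain ⟨_, rfl, rfl⟩ := h1
      obtain ⟨s2, m2, e2, qs2, es2, h2, r2, rfl, rfl⟩ := run_cases r1 (by simp)
      cases s2 with
      | inr g' => exact absurd h2 (fun h => h)
      | inl b =>
        obtain ⟨rfl, h2⟩ := h2
        obtain ⟨rfl, rfl, rfl⟩ := run_out (P := atom G d q rel) r2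
        exact ⟨g, e2, h2, rfl, by simp⟩
  · rintro ⟨g, e, h, rfl, rfl⟩
    have h2 := Run.cons (P := atom G d q rel) (I := I) (c := Sum.inr g) (c' := Sum.inl true)
      (m := m) (m' := m') (e := e) ⟨rfl, h⟩ (Run.nil _ _)
    have h1 := Run.cons (P := atom G d q rel) (I := I) (c := Sum.inl false) (c' := Sum.inr g)
      (m := m) (m' := m) (e := none) ⟨rfl, rfl, rfl⟩ h2
    simpa [Sem] using h1

end Pool.Agent.Work.MP_807b32_lc.Tree
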