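import Pool.Agent.Work.MP_807b32_lc.TreeDefs
import Pool.Agent.Work.MP_807b32_lc.TreeMach
import Mathlib.Data.ZMod.Basic
import Mathlib.Algebra.BigOperators.Ring.Finset
import Mathlib.Algebra.Order.BigOperators.Group.Finset
import Mathlib.Tactic.Ring
import Mathlib.Tactic.Linarith
import Mathlib.Tactic.LinearCombination
import Mathlib.Tactic.Positivity

/-!
The recursive machine: two registers that are shared by all levels, and one small accumulator
for each level.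
-/

namespace Pool.Agent.Work.MP_807b32_lc.Tree

open Finset

variable {k B D W : ℕ}

abbrev Reg (D W : ℕ) : Type := (Fin D → Fin W) × (Fin D → Fin W)

abbrev modu (D B : ℕ) : ℕ := 4 * D * B ^ 2 + 1

abbrev Acc (D B : ℕ) : Type := ZMod (modu D B)

def ip (e : Fin k → Fin D → Fin B) (r : Fin D → Fin W) (c : Fin k) : ℤ :=
  ∑ i, ((r i : ℕ) : ℤ) * ((e c i : ℕ) : ℤ)

def nn (e : Fin k → Fin D → Fin B) (c : Fin k) : ℤ := ∑ i, ((e c i : ℕ) : ℤ) ^ 2

def dist2 (e : Fin k → Fin D → Fin B) (a c : Fin k) : ℤ :=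
  ∑ i, (((e a i : ℕ) : ℤ) - ((e c i : ℕ) : ℤ)) ^ 2

def addR (e : Fin k → Fin D → Fin B) (r r' : Fin D → Fin W) (c : Fin k) : Prop :=
  ∀ i, (r' i : ℕ) = r i + e c i

theorem dist2_eq (e : Fin k → Fin D → Fin B) {r r' : Fin D → Fin W} {a : Fin k}
    (h : addR e r r' a) (c : Fin k) :
    dist2 e a c = nn e a + nn e c - 2 * ip e r' c + 2 * ip e r c := by
  unfold dist2 nn ip
  rw [mul_sum, mul_sum, ← sum_add_distrib, ← sum_sub_distrib, ← sum_add_distrib]
  refine sum_congr rfl fun i _ => ?_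
  rw [h i]; push_cast; ring

theorem dist2_nonneg (e : Fin k → Fin D → Fin B) (a c : Fin k) : 0 ≤ dist2 e a c :=
  sum_nonneg fun _ _ => sq_nonneg _

theorem dist2_le (e : Fin k → Fin D → Fin B) (a c : Fin k) : dist2 e a c ≤ D * B ^ 2 := by
  unfold dist2
  calc _ ≤ ∑ _i : Fin D, ((B : ℤ)) ^ 2 := by
        refine sum_le_sum fun i _ => ?_
        have h1 : ((e a i : ℕ) : ℤ) < B := by exact_mod_cast (e a i).2
        have h2 : ((e c i : ℕ) : ℤ) < B := by exact_mod_cast (e c i).2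
        have h3 : (0 : ℤ) ≤ ((e a i : ℕ) : ℤ) := by positivity
        have h4 : (0 : ℤ) ≤ ((e c i : ℕ) : ℤ) := by positivity
        nlinarith
    _ = _ := by simp

theorem eq_of_dist2 {e : Fin k → Fin D → Fin B} (he : Function.Injective e) {a c : Fin k}
    (h : dist2 e a c = 0) : a = c := by
  apply he
  funext i
  have := (sum_eq_zero_iff_of_nonneg (fun _ _ => sq_nonneg _)).1 h i (mem_univ _)
  have h2 : ((e a i : ℕ) : ℤ) = ((e c i : ℕ) : ℤ) := by
    have := pow_eq_zero_iff (two_ne_zero) |>.1 this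
    linarith
  exact Fin.ext (by exact_mod_cast h2)

theorem dist2_self (e : Fin k → Fin D → Fin B) (a : Fin k) : dist2 e a a = 0 := by
  simp [dist2]

theorem int_eq_zero_of_cast {T : ℤ} (h0 : 0 ≤ T) (h1 : T ≤ 4 * (D * B ^ 2))
    (h : (T : Acc D B) = 0) : T = 0 := by
  have hd := (ZMod.intCast_zmod_eq_zero_iff_dvd T _).1 h
  refine Int.eq_zero_of_dvd_of_nonneg_of_lt h0 ?_ hd
  push_cast
  linarith

theorem addR_cancel {e : Fin k → Fin D → Fin B} {r s r' : Fin D → Fin W} {a : Fin k}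
    (h : addR e r r' a) (h' : addR e s r' a) : s = r := by
  funext i
  have h1 := h i
  have h2 := h' i
  exact Fin.ext (by omega)

/-- The leftmost leaf. -/
def dummy (k : ℕ) : (H : ℕ) → Var k H
  | 0 => Var.leaf
  | H + 1 => Var.left (dummy k H)

theorem thrifty_dummy : ∀ (H : ℕ) (I : Var k H → Fin k), ThriftyQuery H I (dummy k H)
  | 0, I => ThriftyQuery.leaf I
  | H + 1, I => ThriftyQuery.left I _ (thrifty_dummy H _)

abbrev Out (k D W : ℕ) : Type := Reg D W × Fin k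

section level

variable (e : Fin k → Fin D → Fin B) {H : ℕ} (G : Mach k (Var k H) (Reg D W) (Out k D W))

def outerL : Mach k (Var k (H + 1)) (Reg D W × Acc D B) (Out k D W) :=
  call G Var.left (fun z α => α + ((2 * ip e z.1.1 z.2 : ℤ) : Acc D B)) _

def outerR : Mach k (Var k (H + 1)) (Reg D W × Acc D B) (Out k D W) :=
  call G Var.right (fun z α => α + ((2 * ip e z.1.2 z.2 : ℤ) : Acc D B)) _

def midL : Mach k (Var k (H + 1)) (Reg D W × Acc D B) (Out k D W) :=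
  call G Var.left (fun z α => α + ((2 * nn e z.2 - 4 * ip e z.1.1 z.2 : ℤ) : Acc D B)) _

def midR : Mach k (Var k (H + 1)) (Reg D W × Acc D B) (Out k D W) :=
  call G Var.right (fun z α => α + ((2 * nn e z.2 - 4 * ip e z.1.2 z.2 : ℤ) : Acc D B)) _

def event (H : ℕ) : Mach k (Var k (H + 1)) (Reg D W × Acc D B) (Out k D W) :=
  atom (Fin k × Fin k) (dummy k (H + 1)) (fun g => Var.entry g.1 g.2)
    (fun g x m m' o => addR e m.1.1 m'.1.1 g.1 ∧ addR e m.1.2 m'.1.2 g.2 ∧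
      m'.2 = m.2 + ((nn e g.1 + nn e g.2 : ℤ) : Acc D B) ∧ o = some (m.1, x))

def remove (H : ℕ) : Mach k (Var k (H + 1)) (Reg D W × Acc D B) (Out k D W) :=
  atom Unit (dummy k (H + 1)) (fun _ => dummy k (H + 1))
    (fun _ _ m m' o => ∃ a b, addR e m'.1.1 m.1.1 a ∧ addR e m'.1.2 m.1.2 b ∧
      m'.2 = m.2 + ((nn e a + nn e b : ℤ) : Acc D B) ∧ o = none)

def level : Mach k (Var k (H + 1)) (Reg D W) (Out k D W) :=
  hide (seq (outerL e G) (seq (outerR e G) (seq (event e H) (seq (midL e G) (seq (midR e G)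
    (seq (remove e H) (seq (outerL e G) (outerR e G)))))))) 0

end level

def Room (B H : ℕ) (ρ : Reg D W) : Prop :=
  ∀ i, (ρ.1 i : ℕ) + H * B < W ∧ (ρ.2 i : ℕ) + H * B < W

structure Spec (B H : ℕ) (G : Mach k (Var k H) (Reg D W) (Out k D W)) : Prop where
  safe : ∀ I, ThriftyQuery H I (G.query G.out)
  sound : ∀ I ρ qs es ρ', Sem G I ρ qs es ρ' →
    (∀ q ∈ qs, ThriftyQuery H I q) ∧ ρ' = ρ ∧ es = [(ρ, value H I)]
  complete : ∀ I ρ, Room B H ρ → ∃ qs, Sem G I ρ qs [(ρ, value H I)] ρ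
  size : G.size ≤ (k ^ 2 + 5) * (7 * modu D B) ^ H

section callspec

variable {H : ℕ} {G : Mach k (Var k H) (Reg D W) (Out k D W)} {V A E : Type}

theorem call_sound (hG : Spec B H G) {ι : Var k H → V} {ψ : Out k D W → A → A} {I : V → Fin k}
    {m m' : Reg D W × A} {qs : List V} {es : List E} (h : Sem (call G ι ψ E) I m qs es m') :
    es = [] ∧ (∀ q ∈ qs, ∃ q', q = ι q' ∧ ThriftyQuery H (fun q => I (ι q)) q') ∧
      m' = (m.1, ψ (m.1, value H (fun q => I (ι q))) m.2) := by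
  obtain ⟨rfl, qs', es', h1, rfl, h2⟩ := sem_call.1 h
  obtain ⟨h3, h4, rfl⟩ := hG.sound _ _ _ _ _ h1
  refine ⟨rfl, ?_, Prod.ext h4 h2⟩
  intro q hq
  obtain ⟨q', hq', rfl⟩ := List.mem_map.1 hq
  exact ⟨q', rfl, h3 q' hq'⟩

theorem call_complete (hG : Spec B H G) (ι : Var k H → V) (ψ : Out k D W → A → A) (E : Type)
    (I : V → Fin k) (ρ : Reg D W) (α : A) (hρ : Room B H ρ) :
    ∃ qs, Sem (call G ι ψ E) I (ρ, α) qs [] (ρ, ψ (ρ, value H (fun q => I (ι q))) α) := by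
  obtain ⟨qs, h⟩ := hG.complete (fun q => I (ι q)) ρ hρ
  exact ⟨qs.map ι, sem_call.2 ⟨rfl, qs, _, h, rfl, rfl⟩⟩

end callspec

theorem level_sound {e : Fin k → Fin D → Fin B} (he : Function.Injective e) {H : ℕ}
    {G : Mach k (Var k H) (Reg D W) (Out k D W)} (hG : Spec B H G)
    (I : Var k (H + 1) → Fin k) (ρ : Reg D W) (qs : List (Var k (H + 1))) (es : List (Out k D W))
    (ρ' : Reg D W) (h : Sem (level e G) I ρ qs es ρ') :
    (∀ q ∈ qs, ThriftyQuery (H + 1) I q) ∧ ρ' = ρ ∧ es = [(ρ, value (H + 1) I)] := by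
  have g0 := sem_hide.1 h
  clear h
  obtain ⟨m1, q1, e1, qs1, es1, s1, g1, rfl, rfl⟩ := sem_seq.1 g0
  obtain ⟨m2, q2, e2, qs2, es2, s2, g2, rfl, rfl⟩ := sem_seq.1 g1
  obtain ⟨m3, q3, e3, qs3, es3, s3, g3, rfl, rfl⟩ := sem_seq.1 g2
  obtain ⟨m4, q4, e4, qs4, es4, s4, g4, rfl, rfl⟩ := sem_seq.1 g3
  obtain ⟨m5, q5, e5, qs5, es5, s5, g5, rfl, rfl⟩ := sem_seq.1 g4
  obtain ⟨m6, q6, e6, qs6, es6, s6, g6, rfl, rfl⟩ := sem_seq.1 g5
  obtain ⟨m7, q7, e7, q8, e8, s7, s8, rfl, rfl⟩ := sem_seq.1 g6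
  clear g0 g1 g2 g3 g4 g5 g6
  obtain ⟨rfl, t1, rfl⟩ := call_sound hG s1
  obtain ⟨rfl, t2, rfl⟩ := call_sound hG s2
  obtain ⟨⟨a, b⟩, o3, ⟨ha, hb, hα3, rfl⟩, rfl, rfl⟩ := sem_atom.1 s3
  obtain ⟨rfl, t4, rfl⟩ := call_sound hG s4
  obtain ⟨rfl, t5, rfl⟩ := call_sound hG s5
  obtain ⟨_, o6, ⟨a', b', ha', hb', hα6, rfl⟩, rfl, rfl⟩ := sem_atom.1 s6
  obtain ⟨rfl, t7, rfl⟩ := call_sound hG s7
  obtain ⟨rfl, t8, h8⟩ := call_sound hG s8
  obtain ⟨ρ3, α3⟩ := m3
  obtain ⟨ρ6, α6⟩ := m6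
  simp only [Prod.mk.injEq] at h8 ha hb hα3 ha' hb' hα6
  obtain ⟨rfl, h8⟩ := h8
  set x := value H (fun q => I (Var.left q)) with hx
  set y := value H (fun q => I (Var.right q)) with hy
  have hT : ((dist2 e a x + dist2 e a' x + dist2 e b y + dist2 e b' y : ℤ) : Acc D B) = 0 := by
    rw [dist2_eq e ha x, dist2_eq e ha' x, dist2_eq e hb y, dist2_eq e hb' y]
    rw [hα6, hα3] at h8
    push_cast at h8 ⊢
    linear_combination -h8
  have n1 := dist2_nonneg e a x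
  have n2 := dist2_nonneg e a' x
  have n3 := dist2_nonneg e b y
  have n4 := dist2_nonneg e b' y
  have hT0 := int_eq_zero_of_cast (by linarith)
    (by linarith [dist2_le e a x, dist2_le e a' x, dist2_le e b y, dist2_le e b' y]) hT
  obtain rfl : a = x := eq_of_dist2 he (by linarith)
  obtain rfl : a' = x := eq_of_dist2 he (by linarith)
  obtain rfl : b = y := eq_of_dist2 he (by linarith)
  obtain rfl : b' = y := eq_of_dist2 he (by linarith)
  have tl : ∀ {l : List (Var k (H + 1))},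
      (∀ q ∈ l, ∃ q', q = Var.left q' ∧ ThriftyQuery H (fun q => I (Var.left q)) q') →
      ∀ q ∈ l, ThriftyQuery (H + 1) I q := by
    intro l hl q hq
    obtain ⟨q', rfl, h'⟩ := hl q hq
    exact ThriftyQuery.left I _ h'
  have tr : ∀ {l : List (Var k (H + 1))},
      (∀ q ∈ l, ∃ q', q = Var.right q' ∧ ThriftyQuery H (fun q => I (Var.right q)) q') →
      ∀ q ∈ l, ThriftyQuery (H + 1) I q := by
    intro l hl q hq
    obtain ⟨q', rfl, h'⟩ := hl q hq
    exact ThriftyQuery.right I _ h'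
  have sl : ThriftyQuery (H + 1) I (Var.left (G.query G.out)) :=
    ThriftyQuery.left I _ (hG.safe _)
  have sr : ThriftyQuery (H + 1) I (Var.right (G.query G.out)) :=
    ThriftyQuery.right I _ (hG.safe _)
  have sd := thrifty_dummy (H + 1) I
  have se : ThriftyQuery (H + 1) I (Var.entry x y) := ThriftyQuery.entry I
  refine ⟨?_, Prod.ext (addR_cancel ha ha') (addR_cancel hb hb'), rfl⟩
  simp only [List.forall_mem_append, List.forall_mem_cons]
  exact ⟨tl t1, sl, tr t2, sr, ⟨sd, se, by simp⟩, sd, tl t4, sl, tr t5, sr, ⟨sd, sd, by simp⟩, sd,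
    tl t7, sl, tr t8⟩

theorem level_complete (e : Fin k → Fin D → Fin B) {H : ℕ}
    {G : Mach k (Var k H) (Reg D W) (Out k D W)} (hG : Spec B H G)
    (I : Var k (H + 1) → Fin k) (ρ : Reg D W) (hρ : Room B (H + 1) ρ) :
    ∃ qs, Sem (level e G) I ρ qs [(ρ, value (H + 1) I)] ρ := by
  set x := value H (fun q => I (Var.left q)) with hx
  set y := value H (fun q => I (Var.right q)) with hy
  have r0 : Room B H ρ := fun i => by
    have := hρ i
    constructor <;> nlinarith [this.1, this.2]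
  let ρ1 : Reg D W :=
    (fun i => ⟨ρ.1 i + e x i, by have := (hρ i).1; have := (e x i).2; nlinarith⟩,
     fun i => ⟨ρ.2 i + e y i, by have := (hρ i).2; have := (e y i).2; nlinarith⟩)
  have ha : addR e ρ.1 ρ1.1 x := fun _ => rfl
  have hb : addR e ρ.2 ρ1.2 y := fun _ => rfl
  have r1 : Room B H ρ1 := fun i => by
    have h1 := hρ i
    have h2 := (e x i).2
    have h3 := (e y i).2
    rw [ha i, hb i]
    constructor <;> nlinarith [h1.1, h1.2]
  obtain ⟨q1, s1⟩ := call_complete hG Var.left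
    (fun z α => α + ((2 * ip e z.1.1 z.2 : ℤ) : Acc D B)) (Out k D W) I ρ 0 r0
  obtain ⟨q2, s2⟩ := call_complete hG Var.right
    (fun z α => α + ((2 * ip e z.1.2 z.2 : ℤ) : Acc D B)) (Out k D W) I ρ
    (0 + ((2 * ip e ρ.1 x : ℤ) : Acc D B)) r0
  set α2 : Acc D B := 0 + ((2 * ip e ρ.1 x : ℤ) : Acc D B) + ((2 * ip e ρ.2 y : ℤ) : Acc D B)
    with hα2
  set α3 : Acc D B := α2 + ((nn e x + nn e y : ℤ) : Acc D B) with hα3
  have s3 : Sem (event e H) I (ρ, α2) _ _ (ρ1, α3) :=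
    sem_atom.2 ⟨(x, y), some (ρ, I (Var.entry x y)), ⟨ha, hb, rfl, rfl⟩, rfl, rfl⟩
  obtain ⟨q4, s4⟩ := call_complete hG Var.left
    (fun z α => α + ((2 * nn e z.2 - 4 * ip e z.1.1 z.2 : ℤ) : Acc D B)) (Out k D W) I ρ1 α3 r1
  obtain ⟨q5, s5⟩ := call_complete hG Var.right
    (fun z α => α + ((2 * nn e z.2 - 4 * ip e z.1.2 z.2 : ℤ) : Acc D B)) (Out k D W) I ρ1
    (α3 + ((2 * nn e x - 4 * ip e ρ1.1 x : ℤ) : Acc D B)) r1
  set α5 : Acc D B := α3 + ((2 * nn e x - 4 * ip e ρ1.1 x : ℤ) : Acc D B)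
    + ((2 * nn e y - 4 * ip e ρ1.2 y : ℤ) : Acc D B) with hα5
  set α6 : Acc D B := α5 + ((nn e x + nn e y : ℤ) : Acc D B) with hα6
  have s6 : Sem (remove e H) I (ρ1, α5) _ _ (ρ, α6) :=
    sem_atom.2 ⟨(), none, ⟨x, y, ha, hb, rfl, rfl⟩, rfl, rfl⟩
  obtain ⟨q7, s7⟩ := call_complete hG Var.left
    (fun z α => α + ((2 * ip e z.1.1 z.2 : ℤ) : Acc D B)) (Out k D W) I ρ α6 r0
  obtain ⟨q8, s8⟩ := call_complete hG Var.right
    (fun z α => α + ((2 * ip e z.1.2 z.2 : ℤ) : Acc D B)) (Out k D W) I ρ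
    (α6 + ((2 * ip e ρ.1 x : ℤ) : Acc D B)) r0
  have hz : α6 + ((2 * ip e ρ.1 x : ℤ) : Acc D B) + ((2 * ip e ρ.2 y : ℤ) : Acc D B) = 0 := by
    have h1 := dist2_eq e ha x
    have h2 := dist2_eq e hb y
    rw [dist2_self] at h1 h2
    have h3 := congrArg (fun z : ℤ => (z : Acc D B)) h1
    have h4 := congrArg (fun z : ℤ => (z : Acc D B)) h2
    rw [hα6, hα5, hα3, hα2]
    push_cast at h3 h4 ⊢
    linear_combination (-2) * h3 - 2 * h4
  have s8' : Sem (outerR e G) I (ρ, α6 + ((2 * ip e ρ.1 x : ℤ) : Acc D B)) q8 [] (ρ, 0) := by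
    rw [← hz]; exact s8
  refine ⟨_, sem_hide.2 (sem_seq.2 ⟨_, _, _, _, _, s1, sem_seq.2 ⟨_, _, _, _, _, s2,
    sem_seq.2 ⟨_, _, _, _, _, s3, sem_seq.2 ⟨_, _, _, _, _, s4, sem_seq.2 ⟨_, _, _, _, _, s5,
    sem_seq.2 ⟨_, _, _, _, _, s6, sem_seq.2 ⟨_, _, _, _, _, s7, s8', rfl, rfl⟩, rfl, rfl⟩,
    rfl, rfl⟩, rfl, rfl⟩, rfl, rfl⟩, rfl, rfl⟩, rfl, rfl⟩)⟩

theorem level_size (e : Fin k → Fin D → Fin B) {H : ℕ}
    (G : Mach k (Var k H) (Reg D W) (Out k D W)) :
    (level e G).size = (6 * G.size + k ^ 2 + 5) * modu D B := by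
  unfold level outerL outerR midL midR event remove
  simp only [size_hide, size_seq, size_call, size_atom, ZMod.card, Fintype.card_prod,
    Fintype.card_fin, Fintype.card_unit]
  ring

theorem level_spec {e : Fin k → Fin D → Fin B} (he : Function.Injective e) {H : ℕ}
    {G : Mach k (Var k H) (Reg D W) (Out k D W)} (hG : Spec B H G) :
    Spec B (H + 1) (level e G) where
  safe := fun I => ThriftyQuery.right I _ (hG.safe _)
  sound := level_sound he hG
  complete := level_complete e hG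
  size := by
    rw [level_size]
    have h1 := hG.size
    have h2 : 1 ≤ (7 * modu D B) ^ H := Nat.one_le_pow _ _ (by positivity)
    have h3 : k ^ 2 + 5 ≤ (k ^ 2 + 5) * (7 * modu D B) ^ H := Nat.le_mul_of_pos_right _ h2
    calc _ ≤ (7 * ((k ^ 2 + 5) * (7 * modu D B) ^ H)) * modu D B :=
          Nat.mul_le_mul_right _ (by omega)
      _ = _ := by ring

def base (k D W : ℕ) : Mach k (Var k 0) (Reg D W) (Out k D W) :=
  atom Unit Var.leaf (fun _ => Var.leaf) (fun _ x m m' o => m' = m ∧ o = some (m, x))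

theorem base_spec : Spec B 0 (base k D W) where
  safe := fun I => ThriftyQuery.leaf I
  sound := by
    intro I ρ qs es ρ' h
    obtain ⟨_, o, ⟨rfl, rfl⟩, rfl, rfl⟩ := sem_atom.1 h
    refine ⟨?_, rfl, rfl⟩
    simp only [List.forall_mem_cons]
    exact ⟨ThriftyQuery.leaf I, ThriftyQuery.leaf I, by simp⟩
  complete := fun I ρ _ => ⟨_, sem_atom.2 ⟨(), some (ρ, I Var.leaf), ⟨rfl, rfl⟩, rfl, rfl⟩⟩
  size := by
    unfold base
    rw [size_atom]
    simp

theorem exists_spec {e : Fin k → Fin D → Fin B} (he : Function.Injective e) (W : ℕ) :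
    ∀ H, ∃ G : Mach k (Var k H) (Reg D W) (Out k D W), Spec B H G
  | 0 => ⟨_, base_spec⟩
  | H + 1 => by
    obtain ⟨G, hG⟩ := exists_spec he W H
    exact ⟨_, level_spec he hG⟩

end Pool.Agent.Work.MP_807b32_lc.Tree
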