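import Pool.Agent.Work.MP_807b32_lc.TreeBuild
import Mathlib.Analysis.SpecificLimits.Basic
import Mathlib.Data.Fintype.BigOperators
import Mathlib.Data.Nat.Dist

/-!
A greedy code in a cube of integer points whose words have large mutual squared distances.
-/

namespace Pool.Agent.Work.MP_807b32_lc.Tree

open Finset

theorem greedy {X : Type} [Fintype X] [DecidableEq X] (r : X → X → Prop) [DecidableRel r]
    (hr : ∀ x y, r x y → r y x) (hx : ∀ x, r x x) (V : ℕ)
    (hV : ∀ x, (univ.filter (r x)).card ≤ V) (hV0 : 0 < V) :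
    ∀ n, n * V ≤ Fintype.card X →
      ∃ A : Finset X, A.card = n ∧ ∀ x ∈ A, ∀ y ∈ A, x ≠ y → ¬ r x y
  | 0, _ => ⟨∅, rfl, by simp⟩
  | n + 1, h => by
    obtain ⟨A, hA, hA'⟩ := greedy r hr hx V hV hV0 n (by nlinarith)
    have h1 : (A.biUnion fun x => univ.filter (r x)).card < (univ : Finset X).card := by
      calc _ ≤ A.card * V := card_biUnion_le_card_mul _ _ _ fun x _ => hV x
        _ < _ := by rw [hA, card_univ]; nlinarith
    obtain ⟨y, -, hy⟩ := exists_mem_notMem_of_card_lt_card h1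
    have hy' : ∀ x ∈ A, ¬ r x y := fun x hxA hxy =>
      hy (mem_biUnion.2 ⟨x, hxA, mem_filter.2 ⟨mem_univ _, hxy⟩⟩)
    have hyA : y ∉ A := fun h => hy' y h (hx y)
    refine ⟨insert y A, by rw [card_insert_of_notMem hyA, hA], ?_⟩
    intro a ha b hb hab
    rcases mem_insert.1 ha with rfl | ha'
    · rcases mem_insert.1 hb with rfl | hb'
      · exact absurd rfl hab
      · exact fun h => hy' b hb' (hr _ _ h)
    · rcases mem_insert.1 hb with rfl | hb'
      · exact hy' a ha'
      · exact hA' a ha' b hb' hab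

theorem sum_half_le {ι : Type} (s : Finset ι) (f : ι → ℕ) (hf : Set.InjOn f s) :
    ∑ j ∈ s, (1 / 2 : ℝ) ^ f j ≤ 2 := by
  rw [← sum_image (f := fun n => (1 / 2 : ℝ) ^ n) hf]
  exact (summable_geometric_two.sum_le_tsum _ fun _ _ => by positivity).trans_eq
    tsum_geometric_two

theorem sum_half_dist {B : ℕ} (a : Fin B) :
    ∑ j : Fin B, (1 / 2 : ℝ) ^ Nat.dist a j ≤ 4 := by
  rw [← sum_filter_add_sum_filter_not univ (fun j : Fin B => j ≤ a)]
  have h1 := sum_half_le (univ.filter fun j : Fin B => j ≤ a) (fun j => Nat.dist a j) (by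
    intro i hi j hj h
    simp only [coe_filter, mem_univ, true_and, Set.mem_ofPred_eq, Fin.le_def, Nat.dist] at hi hj h
    exact Fin.ext (by omega))
  have h2 := sum_half_le (univ.filter fun j : Fin B => ¬ j ≤ a) (fun j => Nat.dist a j) (by
    intro i hi j hj h
    simp only [coe_filter, mem_univ, true_and, Set.mem_ofPred_eq, Fin.le_def, Nat.dist] at hi hj h
    exact Fin.ext (by omega))
  linarith

theorem card_ball {B D : ℕ} (g : ℕ) (u : Fin D → Fin B) :
    (univ.filter fun v : Fin D → Fin B => ∑ i, Nat.dist (u i) (v i) ≤ g).card ≤ 2 ^ g * 4 ^ D := by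
  have h1 : ((univ.filter fun v : Fin D → Fin B => ∑ i, Nat.dist (u i) (v i) ≤ g).card : ℝ) ≤
      ∑ v : Fin D → Fin B, 2 ^ g * ∏ i, (1 / 2 : ℝ) ^ Nat.dist (u i) (v i) := by
    rw [card_filter]
    push_cast
    refine sum_le_sum fun v _ => ?_
    split_ifs with h
    · rw [prod_pow_eq_pow_sum, one_div, inv_pow, ← div_eq_mul_inv, one_le_div (by positivity)]
      exact pow_le_pow_right₀ (by norm_num) h
    · positivity
  have h2 : ∑ v : Fin D → Fin B, ∏ i, (1 / 2 : ℝ) ^ Nat.dist (u i) (v i) ≤ 4 ^ D := by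
    rw [← Fintype.piFinset_univ, ← prod_univ_sum (fun _ => univ)
      (fun i (j : Fin B) => (1 / 2 : ℝ) ^ Nat.dist (u i) j)]
    calc _ ≤ ∏ _i : Fin D, (4 : ℝ) :=
          prod_le_prod (fun i _ => sum_nonneg fun _ _ => by positivity)
            fun i _ => sum_half_dist (u i)
      _ = _ := by simp
  rw [← mul_sum] at h1
  have h3 := h1.trans (mul_le_mul_of_nonneg_left h2 (by positivity))
  exact_mod_cast h3

theorem exists_code (k B D g : ℕ) (h : k * (2 ^ g * 4 ^ D) ≤ B ^ D) :
    ∃ e : Fin k → Fin D → Fin B, ∀ a c, a ≠ c → (g : ℤ) ≤ dist2 e a c := by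
  obtain ⟨A, hA, hA'⟩ := greedy (fun u v : Fin D → Fin B => ∑ i, Nat.dist (u i) (v i) ≤ g)
    (fun u v h => by simpa only [Nat.dist_comm] using h) (fun u => by simp)
    (2 ^ g * 4 ^ D) (card_ball g) (by positivity) k (by simpa using h)
  let f := (A.equivFinOfCardEq hA).symm
  refine ⟨fun a => (f a).1, fun a c hac => ?_⟩
  have h1 := hA' _ (f a).2 _ (f c).2 fun h => hac (f.injective (Subtype.ext h))
  have h2 : (g : ℤ) ≤ ∑ i, ((Nat.dist ((f a).1 i) ((f c).1 i) : ℕ) : ℤ) := by
    exact_mod_cast (not_le.1 h1).le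
  refine h2.trans (sum_le_sum fun i _ => ?_)
  generalize (((f a).1 i : Fin B) : ℕ) = p
  generalize (((f c).1 i : Fin B) : ℕ) = q
  have h3 : ((Nat.dist p q : ℕ) : ℤ) = |(p : ℤ) - q| := by
    unfold Nat.dist
    rcases le_total p q with h | h
    · rw [abs_of_nonpos (by omega)]; omega
    · rw [abs_of_nonneg (by omega)]; omega
  rw [h3, ← sq_abs]
  exact Int.le_self_sq _

end Pool.Agent.Work.MP_807b32_lc.Tree
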