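import Mathlib.Data.Fintype.Card

/-!
The tree evaluation problem on the complete binary tree and nondeterministic `k`-way branching
programs, in the model of Cook, McKenzie, Wehr, Braverman and Santhanam.
-/

namespace Pool.Agent.Work.MP_807b32_lc.Tree

/-- The input variables of tree evaluation on the complete binary tree with `H + 1` levels:
a single leaf has one variable; a tree with `H + 2` levels has one variable for each entry
`(a, b)` of the function table at its root, and the variables of its left and right subtrees. -/
inductive Var (k : ℕ) : ℕ → Type
  | leaf : Var k 0
  | entry {H : ℕ} (a b : Fin k) : Var k (H + 1)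
  | left {H : ℕ} (q : Var k H) : Var k (H + 1)
  | right {H : ℕ} (q : Var k H) : Var k (H + 1)

/-- The value of the root: a leaf carries its variable, an inner node applies its function table
to the values of its two children. -/
def value {k : ℕ} (H : ℕ) : (Var k H → Fin k) → Fin k :=
  Nat.rec (motive := fun H => (Var k H → Fin k) → Fin k)
    (fun I => I Var.leaf)
    (fun _ val I => I (Var.entry (val (fun q => I (Var.left q))) (val (fun q => I (Var.right q)))))
    H

/-- A query is thrifty for the input `I` if it reads a leaf, or reads the table of an inner node
at the true values of the two children of that node. -/
inductive ThriftyQuery {k : ℕ} : (H : ℕ) → (Var k H → Fin k) → Var k H → Prop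
  | leaf (I : Var k 0 → Fin k) : ThriftyQuery 0 I Var.leaf
  | entry {H : ℕ} (I : Var k (H + 1) → Fin k) :
      ThriftyQuery (H + 1) I
        (Var.entry (value H (fun q => I (Var.left q))) (value H (fun q => I (Var.right q))))
  | left {H : ℕ} (I : Var k (H + 1) → Fin k) (q : Var k H) :
      ThriftyQuery H (fun q => I (Var.left q)) q → ThriftyQuery (H + 1) I (Var.left q)
  | right {H : ℕ} (I : Var k (H + 1) → Fin k) (q : Var k H) :
      ThriftyQuery H (fun q => I (Var.right q)) q → ThriftyQuery (H + 1) I (Var.right q)

/-- A nondeterministic `k`-way branching program over the variables `V` with state set `S`:
every state queries one variable, every edge carries a label in `Fin k`, and there are `k`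
distinct final states, which are sinks, one for each output. -/
structure BP (V : Type) (k : ℕ) (S : Type) where
  start : S
  final : Fin k → S
  query : S → V
  edge : S → Fin k → S → Prop
  final_injective : Function.Injective final
  final_sink : ∀ o c t, ¬ edge (final o) c t

/-- `Comp P I s qs t`: on the input `I` there is a computation from the state `s` to the state `t`
(each step follows an edge labelled by the value of the variable queried by the current state)
whose list of queried variables is `qs`. -/
inductive Comp {V : Type} {k : ℕ} {S : Type} (P : BP V k S) (I : V → Fin k) :
    S → List V → S → Prop
  | nil (s : S) : Comp P I s [] s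
  | cons {s s' t : S} {qs : List V} :
      P.edge s (I (P.query s)) s' → Comp P I s' qs t → Comp P I s (P.query s :: qs) t

/-- The program computes the value of the root: on every input some computation from the start
state ends in a final state, and every such computation ends in the one of the root value. -/
def Computes {k H : ℕ} {S : Type} (P : BP (Var k H) k S) : Prop :=
  ∀ I : Var k H → Fin k,
    (∃ o qs, Comp P I P.start qs (P.final o)) ∧
      ∀ o qs, Comp P I P.start qs (P.final o) → o = value H I

/-- The program is thrifty: every computation from the start state that ends in a final state
makes thrifty queries only. -/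
def Thrifty {k H : ℕ} {S : Type} (P : BP (Var k H) k S) : Prop :=
  ∀ (I : Var k H → Fin k) (o : Fin k) (qs : List (Var k H)),
    Comp P I P.start qs (P.final o) → ∀ q ∈ qs, ThriftyQuery H I q

end Pool.Agent.Work.MP_807b32_lc.Tree
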