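import Pool.Agent.Work.MP_807b32_lc.TreeBuild

/-!
The recursive machine with rounded accumulators.  If the code words are far apart, the sum of four
squared distances that a level has to test for zero is either zero or large, so each of its eight
contributions may be rounded down to a multiple of `w`, and a guessed slack in `{0, …, 7}` makes up
for the rounding errors.
-/

namespace Pool.Agent.Work.MP_807b32_lc.Tree

open Finset

variable {k B D W : ℕ}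

/-- The integer `⌊t / w⌋` modulo `m + 1`. -/
def rd (w m : ℕ) (t : ℤ) : ZMod (m + 1) := ((t / (w : ℤ) : ℤ) : ZMod (m + 1))

theorem floor_bounds {w : ℕ} (hw : 0 < w) (t : ℤ) :
    (w : ℤ) * (t / w) ≤ t ∧ t < (w : ℤ) * (t / w) + w := by
  have hw' : (0 : ℤ) < w := by exact_mod_cast hw
  have h1 := Int.mul_ediv_add_emod t w
  have h2 := Int.emod_nonneg t hw'.ne'
  have h3 := Int.emod_lt_of_pos t hw'
  constructor <;> linarith

theorem round_sound {w m : ℕ} (hw : 0 < w) (t1 t2 t3 t4 t5 t6 t7 t8 : ℤ) (s : Fin 8)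
    (hlow : 8 * (w : ℤ) ≤ t1 + t2 + t3 + t4 + t5 + t6 + t7 + t8)
    (hup : t1 + t2 + t3 + t4 + t5 + t6 + t7 + t8 + 7 * w < (w : ℤ) * (m + 1)) :
    rd w m t1 + rd w m t2 + rd w m t3 + rd w m t4 + rd w m t5 + rd w m t6 + rd w m t7 + rd w m t8
      + ((s : ℕ) : ZMod (m + 1)) ≠ 0 := by
  intro h
  have hw' : (0 : ℤ) < w := by exact_mod_cast hw
  obtain ⟨a1, b1⟩ := floor_bounds hw t1
  obtain ⟨a2, b2⟩ := floor_bounds hw t2
  obtain ⟨a3, b3⟩ := floor_bounds hw t3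
  obtain ⟨a4, b4⟩ := floor_bounds hw t4
  obtain ⟨a5, b5⟩ := floor_bounds hw t5
  obtain ⟨a6, b6⟩ := floor_bounds hw t6
  obtain ⟨a7, b7⟩ := floor_bounds hw t7
  obtain ⟨a8, b8⟩ := floor_bounds hw t8
  set Q : ℤ := t1 / w + t2 / w + t3 / w + t4 / w + t5 / w + t6 / w + t7 / w + t8 / w with hQ
  have hs0 : (0 : ℤ) ≤ ((s : ℕ) : ℤ) := by positivity
  have hs7 : ((s : ℕ) : ℤ) ≤ 7 := by have := s.2; omega
  have hz : ((Q + ((s : ℕ) : ℤ) : ℤ) : ZMod (m + 1)) = 0 := by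
    rw [← h, hQ]
    simp only [rd]
    push_cast
    ring
  have hQ0 : 0 < Q := by
    have : (w : ℤ) * 0 < w * Q := by rw [hQ]; linarith
    exact lt_of_mul_lt_mul_left this hw'.le
  have hQ1 : Q + 7 < m + 1 := by
    have : (w : ℤ) * (Q + 7) < w * (m + 1) := by rw [hQ]; linarith
    exact lt_of_mul_lt_mul_left this hw'.le
  have hd := (ZMod.intCast_zmod_eq_zero_iff_dvd _ _).1 hz
  have := Int.eq_zero_of_dvd_of_nonneg_of_lt (by linarith) (by push_cast; linarith) hd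
  linarith

theorem round_complete {w : ℕ} (m : ℕ) (hw : 0 < w) (t1 t2 t3 t4 t5 t6 t7 t8 : ℤ)
    (h0 : t1 + t2 + t3 + t4 + t5 + t6 + t7 + t8 = 0) : ∃ s : Fin 8,
    rd w m t1 + rd w m t2 + rd w m t3 + rd w m t4 + rd w m t5 + rd w m t6 + rd w m t7 + rd w m t8
      + ((s : ℕ) : ZMod (m + 1)) = 0 := by
  have hw' : (0 : ℤ) < w := by exact_mod_cast hw
  obtain ⟨a1, b1⟩ := floor_bounds hw t1
  obtain ⟨a2, b2⟩ := floor_bounds hw t2
  obtain ⟨a3, b3⟩ := floor_bounds hw t3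
  obtain ⟨a4, b4⟩ := floor_bounds hw t4
  obtain ⟨a5, b5⟩ := floor_bounds hw t5
  obtain ⟨a6, b6⟩ := floor_bounds hw t6
  obtain ⟨a7, b7⟩ := floor_bounds hw t7
  obtain ⟨a8, b8⟩ := floor_bounds hw t8
  set Q : ℤ := t1 / w + t2 / w + t3 / w + t4 / w + t5 / w + t6 / w + t7 / w + t8 / w with hQ
  have hQ0 : Q ≤ 0 := by
    have : (w : ℤ) * Q ≤ w * 0 := by rw [hQ]; linarith
    exact le_of_mul_le_mul_left this hw'
  have hQ1 : -8 < Q := by
    have : (w : ℤ) * (-8) < w * Q := by rw [hQ]; linarith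
    exact lt_of_mul_lt_mul_left this hw'.le
  refine ⟨⟨(-Q).toNat, by omega⟩, ?_⟩
  have h1 : (((-Q).toNat : ℕ) : ℤ) = -Q := Int.toNat_of_nonneg (by linarith)
  have h2 : (((-Q).toNat : ℕ) : ZMod (m + 1)) = ((-Q : ℤ) : ZMod (m + 1)) := by
    rw [← h1, Int.cast_natCast, Int.toNat_natCast]
  change _ + (((-Q).toNat : ℕ) : ZMod (m + 1)) = 0
  rw [h2, hQ]
  simp only [rd]
  push_cast
  ring

section level

variable (w m : ℕ) (e : Fin k → Fin D → Fin B) {H : ℕ}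
  (G : Mach k (Var k H) (Reg D W) (Out k D W))

def gOuterL : Mach k (Var k (H + 1)) (Reg D W × ZMod (m + 1)) (Out k D W) :=
  call G Var.left (fun z α => α + rd w m (2 * ip e z.1.1 z.2)) _

def gOuterR : Mach k (Var k (H + 1)) (Reg D W × ZMod (m + 1)) (Out k D W) :=
  call G Var.right (fun z α => α + rd w m (2 * ip e z.1.2 z.2)) _

def gMidL : Mach k (Var k (H + 1)) (Reg D W × ZMod (m + 1)) (Out k D W) :=
  call G Var.left (fun z α => α + rd w m (2 * nn e z.2 - 4 * ip e z.1.1 z.2)) _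

def gMidR : Mach k (Var k (H + 1)) (Reg D W × ZMod (m + 1)) (Out k D W) :=
  call G Var.right (fun z α => α + rd w m (2 * nn e z.2 - 4 * ip e z.1.2 z.2)) _

def gEvent (H : ℕ) : Mach k (Var k (H + 1)) (Reg D W × ZMod (m + 1)) (Out k D W) :=
  atom (Fin k × Fin k) (dummy k (H + 1)) (fun g => Var.entry g.1 g.2)
    (fun g x μ μ' o => addR e μ.1.1 μ'.1.1 g.1 ∧ addR e μ.1.2 μ'.1.2 g.2 ∧
      μ'.2 = μ.2 + rd w m (nn e g.1 + nn e g.2) ∧ o = some (μ.1, x))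

def gRemove (H : ℕ) : Mach k (Var k (H + 1)) (Reg D W × ZMod (m + 1)) (Out k D W) :=
  atom Unit (dummy k (H + 1)) (fun _ => dummy k (H + 1))
    (fun _ _ μ μ' o => ∃ (a b : Fin k) (s : Fin 8), addR e μ'.1.1 μ.1.1 a ∧
      addR e μ'.1.2 μ.1.2 b ∧
      μ'.2 = μ.2 + rd w m (nn e a + nn e b) + ((s : ℕ) : ZMod (m + 1)) ∧ o = none)

def gLevel : Mach k (Var k (H + 1)) (Reg D W) (Out k D W) :=
  hide (seq (gOuterL w m e G) (seq (gOuterR w m e G) (seq (gEvent w m e H) (seq (gMidL w m e G)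
    (seq (gMidR w m e G) (seq (gRemove w m e H) (seq (gOuterL w m e G) (gOuterR w m e G)))))))) 0

end level

theorem gLevel_sound {w m : ℕ} (hw : 0 < w) (hm : 4 * (D * B ^ 2) + 7 * w < w * (m + 1))
    {e : Fin k → Fin D → Fin B} (he : ∀ a c, a ≠ c → 8 * (w : ℤ) ≤ dist2 e a c) {H : ℕ}
    {G : Mach k (Var k H) (Reg D W) (Out k D W)} (hG : Spec B H G)
    (I : Var k (H + 1) → Fin k) (ρ : Reg D W) (qs : List (Var k (H + 1))) (es : List (Out k D W))
    (ρ' : Reg D W) (h : Sem (gLevel w m e G) I ρ qs es ρ') :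
    (∀ q ∈ qs, ThriftyQuery (H + 1) I q) ∧ ρ' = ρ ∧ es = [(ρ, value (H + 1) I)] := by
  have g0 := sem_hide.1 h
  clear h
  obtain ⟨m1, q1, e1, qs1, es1, s1, g1, rfl, rfl⟩ := sem_seq.1 g0
  obtain ⟨m2, q2, e2, qs2, es2, s2, g2, rfl, rfl⟩ := sem_seq.1 g1
  obtain ⟨m3, q3, e3, qs3, es3, s3, g3, rfl, rfl⟩ := sem_seq.1 g2
  obtain ⟨m4, q4, e4, qs4, es4, s4, g4, rfl, rfl⟩ := sem_seq.1 g3
  obtain ⟨m5, q5, e5, qs5, es5, s5, g5, rfl, rfl⟩ := sem_seq.1 g4
  obtain ⟨m6, q6, e6, qs6, es6, s6, g6, rfl, rfl⟩ := sem_seq.1 g5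
  obtain ⟨m7, q7, e7, q8, e8, s7, s8, rfl, rfl⟩ := sem_seq.1 g6
  clear g0 g1 g2 g3 g4 g5 g6
  obtain ⟨rfl, t1, rfl⟩ := call_sound hG s1
  obtain ⟨rfl, t2, rfl⟩ := call_sound hG s2
  obtain ⟨⟨a, b⟩, o3, ⟨ha, hb, hα3, rfl⟩, rfl, rfl⟩ := sem_atom.1 s3
  obtain ⟨rfl, t4, rfl⟩ := call_sound hG s4
  obtain ⟨rfl, t5, rfl⟩ := call_sound hG s5
  obtain ⟨_, o6, ⟨a', b', s, ha', hb', hα6, rfl⟩, rfl, rfl⟩ := sem_atom.1 s6
  obtain ⟨rfl, t7, rfl⟩ := call_sound hG s7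
  obtain ⟨rfl, t8, h8⟩ := call_sound hG s8
  obtain ⟨ρ3, α3⟩ := m3
  obtain ⟨ρ6, α6⟩ := m6
  simp only [Prod.mk.injEq] at h8 ha hb hα3 ha' hb' hα6
  obtain ⟨rfl, h8⟩ := h8
  set x := value H (fun q => I (Var.left q)) with hx
  set y := value H (fun q => I (Var.right q)) with hy
  have n1 := dist2_nonneg e a x
  have n2 := dist2_nonneg e a' x
  have n3 := dist2_nonneg e b y
  have n4 := dist2_nonneg e b' y
  have hlt : dist2 e a x + dist2 e a' x + dist2 e b y + dist2 e b' y < 8 * (w : ℤ) := by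
    by_contra hge
    have hm' : 4 * ((D : ℤ) * (B : ℤ) ^ 2) + 7 * w < (w : ℤ) * (m + 1) := by exact_mod_cast hm
    have hT : 2 * ip e ρ.1 x + 2 * ip e ρ.2 y + (nn e a + nn e b) + (2 * nn e x - 4 * ip e ρ3.1 x)
        + (2 * nn e y - 4 * ip e ρ3.2 y) + (nn e a' + nn e b') + 2 * ip e ρ'.1 x + 2 * ip e ρ'.2 y
        = dist2 e a x + dist2 e a' x + dist2 e b y + dist2 e b' y := by
      rw [dist2_eq e ha x, dist2_eq e ha' x, dist2_eq e hb y, dist2_eq e hb' y]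
      ring
    refine round_sound (m := m) hw _ _ _ _ _ _ _ _ s (by rw [hT]; linarith)
      (by rw [hT]; linarith [dist2_le e a x, dist2_le e a' x, dist2_le e b y, dist2_le e b' y]) ?_
    rw [hα6, hα3] at h8
    linear_combination -h8
  obtain rfl : a = x := by by_contra hne; linarith [he a x hne]
  obtain rfl : a' = x := by by_contra hne; linarith [he a' x hne]
  obtain rfl : b = y := by by_contra hne; linarith [he b y hne]
  obtain rfl : b' = y := by by_contra hne; linarith [he b' y hne]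
  have tl : ∀ {l : List (Var k (H + 1))},
      (∀ q ∈ l, ∃ q', q = Var.left q' ∧ ThriftyQuery H (fun q => I (Var.left q)) q') →
      ∀ q ∈ l, ThriftyQuery (H + 1) I q := by
    intro l hl q hq
    obtain ⟨q', rfl, h'⟩ := hl q hq
    exact ThriftyQuery.left I _ h'
  have tr : ∀ {l : List (Var k (H + 1))},
      (∀ q ∈ l, ∃ q', q = Var.right q' ∧ ThriftyQuery H (fun q => I (Var.right q)) q') →
      ∀ q ∈ l, ThriftyQuery (H + 1) I q := by
    intro l hl q hq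
    obtain ⟨q', rfl, h'⟩ := hl q hq
    exact ThriftyQuery.right I _ h'
  have sl : ThriftyQuery (H + 1) I (Var.left (G.query G.out)) :=
    ThriftyQuery.left I _ (hG.safe _)
  have sr : ThriftyQuery (H + 1) I (Var.right (G.query G.out)) :=
    ThriftyQuery.right I _ (hG.safe _)
  have sd := thrifty_dummy (H + 1) I
  have se : ThriftyQuery (H + 1) I (Var.entry x y) := ThriftyQuery.entry I
  refine ⟨?_, Prod.ext (addR_cancel ha ha') (addR_cancel hb hb'), rfl⟩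
  simp only [List.forall_mem_append, List.forall_mem_cons]
  exact ⟨tl t1, sl, tr t2, sr, ⟨sd, se, by simp⟩, sd, tl t4, sl, tr t5, sr, ⟨sd, sd, by simp⟩, sd,
    tl t7, sl, tr t8⟩

theorem gLevel_complete {w : ℕ} (m : ℕ) (hw : 0 < w) (e : Fin k → Fin D → Fin B) {H : ℕ}
    {G : Mach k (Var k H) (Reg D W) (Out k D W)} (hG : Spec B H G)
    (I : Var k (H + 1) → Fin k) (ρ : Reg D W) (hρ : Room B (H + 1) ρ) :
    ∃ qs, Sem (gLevel w m e G) I ρ qs [(ρ, value (H + 1) I)] ρ := by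
  set x := value H (fun q => I (Var.left q)) with hx
  set y := value H (fun q => I (Var.right q)) with hy
  have r0 : Room B H ρ := fun i => by
    have := hρ i
    constructor <;> nlinarith [this.1, this.2]
  let ρ1 : Reg D W :=
    (fun i => ⟨ρ.1 i + e x i, by have := (hρ i).1; have := (e x i).2; nlinarith⟩,
     fun i => ⟨ρ.2 i + e y i, by have := (hρ i).2; have := (e y i).2; nlinarith⟩)
  have ha : addR e ρ.1 ρ1.1 x := fun _ => rfl
  have hb : addR e ρ.2 ρ1.2 y := fun _ => rfl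
  have r1 : Room B H ρ1 := fun i => by
    have h1 := hρ i
    have h2 := (e x i).2
    have h3 := (e y i).2
    rw [ha i, hb i]
    constructor <;> nlinarith [h1.1, h1.2]
  obtain ⟨s, hs⟩ := round_complete m hw (2 * ip e ρ.1 x) (2 * ip e ρ.2 y) (nn e x + nn e y)
    (2 * nn e x - 4 * ip e ρ1.1 x) (2 * nn e y - 4 * ip e ρ1.2 y) (nn e x + nn e y)
    (2 * ip e ρ.1 x) (2 * ip e ρ.2 y) (by
      have h1 := dist2_eq e ha x
      have h2 := dist2_eq e hb y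
      rw [dist2_self] at h1 h2
      linarith)
  obtain ⟨q1, s1⟩ := call_complete hG Var.left
    (fun z α => α + rd w m (2 * ip e z.1.1 z.2)) (Out k D W) I ρ 0 r0
  obtain ⟨q2, s2⟩ := call_complete hG Var.right
    (fun z α => α + rd w m (2 * ip e z.1.2 z.2)) (Out k D W) I ρ
    (0 + rd w m (2 * ip e ρ.1 x)) r0
  set α2 : ZMod (m + 1) := 0 + rd w m (2 * ip e ρ.1 x) + rd w m (2 * ip e ρ.2 y) with hα2
  set α3 : ZMod (m + 1) := α2 + rd w m (nn e x + nn e y) with hα3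
  have s3 : Sem (gEvent w m e H) I (ρ, α2) _ _ (ρ1, α3) :=
    sem_atom.2 ⟨(x, y), some (ρ, I (Var.entry x y)), ⟨ha, hb, rfl, rfl⟩, rfl, rfl⟩
  obtain ⟨q4, s4⟩ := call_complete hG Var.left
    (fun z α => α + rd w m (2 * nn e z.2 - 4 * ip e z.1.1 z.2)) (Out k D W) I ρ1 α3 r1
  obtain ⟨q5, s5⟩ := call_complete hG Var.right
    (fun z α => α + rd w m (2 * nn e z.2 - 4 * ip e z.1.2 z.2)) (Out k D W) I ρ1
    (α3 + rd w m (2 * nn e x - 4 * ip e ρ1.1 x)) r1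
  set α5 : ZMod (m + 1) := α3 + rd w m (2 * nn e x - 4 * ip e ρ1.1 x)
    + rd w m (2 * nn e y - 4 * ip e ρ1.2 y) with hα5
  set α6 : ZMod (m + 1) := α5 + rd w m (nn e x + nn e y) + ((s : ℕ) : ZMod (m + 1)) with hα6
  have s6 : Sem (gRemove w m e H) I (ρ1, α5) _ _ (ρ, α6) :=
    sem_atom.2 ⟨(), none, ⟨x, y, s, ha, hb, rfl, rfl⟩, rfl, rfl⟩
  obtain ⟨q7, s7⟩ := call_complete hG Var.left
    (fun z α => α + rd w m (2 * ip e z.1.1 z.2)) (Out k D W) I ρ α6 r0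
  obtain ⟨q8, s8⟩ := call_complete hG Var.right
    (fun z α => α + rd w m (2 * ip e z.1.2 z.2)) (Out k D W) I ρ
    (α6 + rd w m (2 * ip e ρ.1 x)) r0
  have hz : α6 + rd w m (2 * ip e ρ.1 x) + rd w m (2 * ip e ρ.2 y) = 0 := by
    rw [hα6, hα5, hα3, hα2]
    linear_combination hs
  have s8' : Sem (gOuterR w m e G) I (ρ, α6 + rd w m (2 * ip e ρ.1 x)) q8 [] (ρ, 0) := by
    rw [← hz]; exact s8
  refine ⟨_, sem_hide.2 (sem_seq.2 ⟨_, _, _, _, _, s1, sem_seq.2 ⟨_, _, _, _, _, s2,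
    sem_seq.2 ⟨_, _, _, _, _, s3, sem_seq.2 ⟨_, _, _, _, _, s4, sem_seq.2 ⟨_, _, _, _, _, s5,
    sem_seq.2 ⟨_, _, _, _, _, s6, sem_seq.2 ⟨_, _, _, _, _, s7, s8', rfl, rfl⟩, rfl, rfl⟩,
    rfl, rfl⟩, rfl, rfl⟩, rfl, rfl⟩, rfl, rfl⟩, rfl, rfl⟩)⟩

theorem gLevel_size (w m : ℕ) (e : Fin k → Fin D → Fin B) {H : ℕ}
    (G : Mach k (Var k H) (Reg D W) (Out k D W)) :
    (gLevel w m e G).size = (6 * G.size + k ^ 2 + 5) * (m + 1) := by
  unfold gLevel gOuterL gOuterR gMidL gMidR gEvent gRemove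
  simp only [size_hide, size_seq, size_call, size_atom, ZMod.card, Fintype.card_prod,
    Fintype.card_fin, Fintype.card_unit]
  ring

theorem exists_gSpec {w m : ℕ} (hw : 0 < w) (hm : 4 * (D * B ^ 2) + 7 * w < w * (m + 1))
    (hm' : m + 1 ≤ modu D B) {e : Fin k → Fin D → Fin B}
    (he : ∀ a c, a ≠ c → 8 * (w : ℤ) ≤ dist2 e a c) (W : ℕ) :
    ∀ H, ∃ G : Mach k (Var k H) (Reg D W) (Out k D W), Spec B H G ∧
      G.size ≤ (k ^ 2 + 5) * (7 * (m + 1)) ^ H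
  | 0 => ⟨_, base_spec, by simpa using (base_spec (k := k) (D := D) (W := W) (B := B)).size⟩
  | H + 1 => by
    obtain ⟨G, hG, h1⟩ := exists_gSpec hw hm hm' he W H
    have hs : (gLevel w m e G).size ≤ (k ^ 2 + 5) * (7 * (m + 1)) ^ (H + 1) := by
      rw [gLevel_size]
      have h2 : 1 ≤ (7 * (m + 1)) ^ H := Nat.one_le_pow _ _ (by positivity)
      have h3 : k ^ 2 + 5 ≤ (k ^ 2 + 5) * (7 * (m + 1)) ^ H := Nat.le_mul_of_pos_right _ h2
      calc _ ≤ (7 * ((k ^ 2 + 5) * (7 * (m + 1)) ^ H)) * (m + 1) :=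
            Nat.mul_le_mul_right _ (by omega)
        _ = _ := by ring
    refine ⟨gLevel w m e G, ⟨fun I => ThriftyQuery.right I _ (hG.safe _),
      gLevel_sound hw hm he hG, gLevel_complete m hw e hG, hs.trans ?_⟩, hs⟩
    gcongr

end Pool.Agent.Work.MP_807b32_lc.Tree
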