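import Pool.Agent.Work.MP_807b32_lc.TreeBuild
import Mathlib.Analysis.SpecialFunctions.Pow.Real
import Mathlib.Data.Fintype.Option
import Mathlib.Data.Fintype.BigOperators
import Mathlib.Logic.Equiv.Fin.Basic
import Mathlib.Algebra.BigOperators.Fin

/-!
The branching program built from the recursive machine, and its size.
-/

namespace Pool.Agent.Work.MP_807b32_lc.Tree

variable {k B D H : ℕ}

/-- The register that holds the code of `o`. -/
def load (e : Fin k → Fin D → Fin B) (H : ℕ) (o : Fin k) : Fin D → Fin ((H + 1) * B) :=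
  fun i => ⟨e o i, by have := (e o i).2; nlinarith⟩

def top (e : Fin k → Fin D → Fin B)
    (G : Mach k (Var k H) (Reg D ((H + 1) * B)) (Out k D ((H + 1) * B))) :
    Mach k (Var k H) (Reg D ((H + 1) * B) × Acc D B) Unit :=
  call G (fun q => q) (fun z α => α + ((nn e z.2 - 2 * ip e z.1.1 z.2 : ℤ) : Acc D B)) _

def prog {e : Fin k → Fin D → Fin B} (he : Function.Injective e)
    (G : Mach k (Var k H) (Reg D ((H + 1) * B)) (Out k D ((H + 1) * B))) :
    BP (Var k H) k (Option ((top e G).C × (Reg D ((H + 1) * B) × Acc D B))) where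
  start := none
  final := fun o => some ((top e G).out, ((load e H o, load e H o), 0))
  query := fun s => match s with
    | none => dummy k H
    | some s => (top e G).query s.1
  edge := fun s x t => match s, t with
    | none, some t => ∃ o, t = ((top e G).ini, ((load e H o, load e H o), ((nn e o : ℤ) : Acc D B)))
    | some s, some t => ∃ o, (top e G).step s.1 s.2 x t.1 t.2 o
    | _, none => False
  final_injective := by
    intro o o' h
    simp only [Option.some.injEq, Prod.mk.injEq] at h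
    apply he
    funext i
    have := congrArg (fun r => ((r i : Fin _) : ℕ)) h.2.1.1
    exact Fin.ext this
  final_sink := by
    intro o c t h
    cases t with
    | none => exact h
    | some t =>
      obtain ⟨o', h⟩ := h
      exact (top e G).nostep _ _ _ _ _ h

variable {e : Fin k → Fin D → Fin B} {he : Function.Injective e}
  {G : Mach k (Var k H) (Reg D ((H + 1) * B)) (Out k D ((H + 1) * B))} {I : Var k H → Fin k}

theorem run_of_comp {s t : Option ((top e G).C × (Reg D ((H + 1) * B) × Acc D B))}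
    {qs : List (Var k H)} (h : Comp (prog he G) I s qs t) :
    ∀ s' t', s = some s' → t = some t' → ∃ es, Run (top e G) I s'.1 s'.2 qs es t'.1 t'.2 := by
  induction h with
  | nil s =>
    intro s' t' h1 h2
    rw [h1] at h2
    cases h2
    exact ⟨[], Run.nil _ _⟩
  | @cons s1 s2 s3 qs hs _ ih =>
    intro s' t' h1 h2
    subst h1
    cases s2 with
    | none => exact absurd hs (fun h => h)
    | some s2 =>
      obtain ⟨o, hs⟩ := hs
      obtain ⟨es, r⟩ := ih s2 t' rfl h2
      exact ⟨_, Run.cons hs r⟩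

theorem comp_of_run {c c' : (top e G).C} {m m' : Reg D ((H + 1) * B) × Acc D B}
    {qs : List (Var k H)} {es : List Unit} (h : Run (top e G) I c m qs es c' m') :
    Comp (prog he G) I (some (c, m)) qs (some (c', m')) := by
  induction h with
  | nil => exact Comp.nil _
  | @cons c1 c2 c3 m1 m2 m3 o qs es hs _ ih =>
    exact Comp.cons (P := prog he G) (s := some (c1, m1)) (s' := some (c2, m2)) ⟨o, hs⟩ ih

theorem dist2_load (e : Fin k → Fin D → Fin B) (H : ℕ) (o x : Fin k) :
    dist2 e o x = nn e o + (nn e x - 2 * ip e (load e H o) x) := by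
  unfold dist2 nn ip load
  rw [Finset.mul_sum, ← Finset.sum_sub_distrib, ← Finset.sum_add_distrib]
  refine Finset.sum_congr rfl fun i _ => ?_
  ring

theorem prog_sound (hG : Spec B H G) {o : Fin k} {qs : List (Var k H)}
    (h : Comp (prog he G) I (prog he G).start qs ((prog he G).final o)) :
    o = value H I ∧ ∀ q ∈ qs, ThriftyQuery H I q := by
  generalize hs : (prog he G).start = s0 at h
  generalize ht : (prog he G).final o = t0 at h
  cases h with
  | nil => rw [← ht] at hs; cases hs
  | @cons _ s1 _ qs h1 h2 =>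
    subst hs
    cases s1 with
    | none => exact absurd h1 (fun h => h)
    | some s1 =>
      obtain ⟨o', rfl⟩ := h1
      obtain ⟨es, r⟩ := run_of_comp h2 _ _ rfl ht.symm
      have r' : Sem (call G (fun q => q)
          (fun z α => α + ((nn e z.2 - 2 * ip e z.1.1 z.2 : ℤ) : Acc D B)) Unit) I
          ((load e H o', load e H o'), ((nn e o' : ℤ) : Acc D B)) qs es
          ((load e H o, load e H o), 0) := r
      obtain ⟨_, t1, h3⟩ := call_sound hG r'
      simp only [Prod.mk.injEq] at h3
      obtain ⟨⟨h4, _⟩, h5⟩ := h3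
      have hoo : o = o' := by
        apply he
        funext i
        exact Fin.ext (congrArg (fun r => ((r i : Fin _) : ℕ)) h4)
      subst hoo
      have hT : ((dist2 e o (value H I) : ℤ) : Acc D B) = 0 := by
        rw [dist2_load e H]
        push_cast at h5 ⊢
        linear_combination -h5
      have n1 := dist2_nonneg e o (value H I)
      have n2 := dist2_le e o (value H I)
      have hT0 := int_eq_zero_of_cast n1 (by linarith) hT
      refine ⟨eq_of_dist2 he hT0, ?_⟩
      simp only [List.forall_mem_cons]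
      refine ⟨thrifty_dummy H I, fun q hq => ?_⟩
      obtain ⟨q', rfl, h'⟩ := t1 q hq
      exact h'

theorem prog_complete (hG : Spec B H G) (I : Var k H → Fin k) :
    ∃ qs, Comp (prog he G) I (prog he G).start qs ((prog he G).final (value H I)) := by
  set x := value H I with hx
  have r0 : Room B H ((load e H x, load e H x) : Reg D ((H + 1) * B)) := fun i => by
    have := (e x i).2
    constructor <;> · simp only [load]; nlinarith
  obtain ⟨qs, s⟩ := call_complete hG (fun q => q)
    (fun z α => α + ((nn e z.2 - 2 * ip e z.1.1 z.2 : ℤ) : Acc D B)) Unit I _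
    ((nn e x : ℤ) : Acc D B) r0
  have hz : ((nn e x : ℤ) : Acc D B) + ((nn e x - 2 * ip e (load e H x) x : ℤ) : Acc D B) = 0 := by
    have h1 := dist2_load e H x x
    rw [dist2_self] at h1
    rw [← Int.cast_add, ← h1, Int.cast_zero]
  have s' : Sem (top e G) I ((load e H x, load e H x), ((nn e x : ℤ) : Acc D B)) qs []
      ((load e H x, load e H x), 0) := by
    rw [← hz]; exact s
  exact ⟨_, Comp.cons (P := prog he G) (s := none) (s' := some (_, _)) ⟨x, rfl⟩ (comp_of_run s')⟩

theorem exists_prog_nat (H k B D : ℕ) (hB : 0 < B) (hk : k ≤ B ^ D) :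
    ∃ (S : Type) (_ : Fintype S) (P : BP (Var k H) k S), Computes P ∧ Thrifty P ∧
      Fintype.card S ≤ (k ^ 2 + 5) * ((H + 1) * B) ^ (2 * D) * (7 * modu D B) ^ (H + 1) := by
  let e : Fin k → Fin D → Fin B := fun c => finFunctionFinEquiv.symm (Fin.castLE hk c)
  have he : Function.Injective e :=
    finFunctionFinEquiv.symm.injective.comp (Fin.castLE_injective hk)
  obtain ⟨G, hG⟩ := exists_spec he ((H + 1) * B) H
  let _ : Fintype (top e G).C := G.fin
  refine ⟨_, inferInstance, prog he G, fun I => ⟨⟨_, prog_complete hG I⟩,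
    fun o qs h => (prog_sound hG h).1⟩, fun I o qs h => (prog_sound hG h).2, ?_⟩
  have hc : Fintype.card (top e G).C = G.size := rfl
  rw [Fintype.card_option, Fintype.card_prod, Fintype.card_prod, Fintype.card_prod, hc,
    Fintype.card_fun, ZMod.card, Fintype.card_fin, Fintype.card_fin]
  have h1 := hG.size
  set X := (k ^ 2 + 5) * (7 * modu D B) ^ H with hX
  set Y := ((H + 1) * B) ^ D with hY
  have hX1 : 0 < X := by positivity
  have hY1 : 0 < Y := by positivity
  have hm : 0 < modu D B := by positivity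
  have h2 : 0 < X * (Y * Y * modu D B) := by positivity
  calc G.size * (Y * Y * modu D B) + 1 ≤ X * (Y * Y * modu D B) + 1 := by gcongr
    _ ≤ 7 * (X * (Y * Y * modu D B)) := by omega
    _ = _ := by rw [hX, hY]; ring

theorem exists_prog (H k D : ℕ) (hk : 0 < k) (hD : 0 < D) :
    ∃ (S : Type) (_ : Fintype S) (P : BP (Var k H) k S), Computes P ∧ Thrifty P ∧
      (Fintype.card S : ℝ) ≤ 6 * (2 * H + 2) ^ (2 * D) * (119 * D) ^ (H + 1) *
        (k : ℝ) ^ (4 + 2 * ((H : ℝ) + 1) / D) := by
  have hk1 : (1 : ℝ) ≤ k := by exact_mod_cast hk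
  have hk0 : (0 : ℝ) < k := by linarith
  have hD1 : (1 : ℝ) ≤ D := by exact_mod_cast hD
  have hD0 : (D : ℝ) ≠ 0 := by linarith
  set r : ℝ := (k : ℝ) ^ ((D : ℝ)⁻¹) with hr
  have hr1 : 1 ≤ r := Real.one_le_rpow hk1 (by positivity)
  have hrD : r ^ D = k := Real.rpow_inv_natCast_pow hk0.le hD.ne'
  set B := ⌈r⌉₊ with hB
  have hB1 : r ≤ B := Nat.le_ceil r
  have hB2 : (B : ℝ) ≤ 2 * r := by
    have := Nat.ceil_lt_add_one (show 0 ≤ r by linarith)
    linarith
  have hB0 : 0 < B := Nat.ceil_pos.2 (by linarith)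
  have hkB : k ≤ B ^ D := by
    have : (k : ℝ) ≤ (B : ℝ) ^ D := by rw [← hrD]; gcongr
    exact_mod_cast this
  obtain ⟨S, hS, P, h1, h2, h3⟩ := exists_prog_nat H k B D hB0 hkB
  refine ⟨S, hS, P, h1, h2, ?_⟩
  have h4 : (Fintype.card S : ℝ) ≤ ((k : ℝ) ^ 2 + 5) * (((H : ℝ) + 1) * B) ^ (2 * D) *
      (7 * (4 * D * (B : ℝ) ^ 2 + 1)) ^ (H + 1) := by exact_mod_cast h3
  have a1 : (k : ℝ) ^ 2 + 5 ≤ 6 * (k : ℝ) ^ 2 := by nlinarith
  have a2 : (((H : ℝ) + 1) * B) ^ (2 * D) ≤ (2 * H + 2) ^ (2 * D) * (k : ℝ) ^ 2 := by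
    calc _ ≤ ((2 * H + 2) * r) ^ (2 * D) := by
          refine pow_le_pow_left₀ (by positivity) ?_ _
          nlinarith [(Nat.cast_nonneg H : (0 : ℝ) ≤ H)]
      _ = _ := by rw [mul_pow, ← hrD, ← pow_mul, mul_comm D 2]
  have a3 : (7 * (4 * D * (B : ℝ) ^ 2 + 1)) ^ (H + 1) ≤
      (119 * D) ^ (H + 1) * (k : ℝ) ^ (2 * ((H : ℝ) + 1) / D) := by
    have b1 : (B : ℝ) ^ 2 ≤ 4 * r ^ 2 := by
      calc _ ≤ (2 * r) ^ 2 := by gcongr
        _ = _ := by ring
    have b2 : 1 ≤ (D : ℝ) * r ^ 2 := by nlinarith [one_le_pow₀ hr1 (n := 2)]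
    have b3 : (k : ℝ) ^ (2 * ((H : ℝ) + 1) / D) = (r ^ 2) ^ (H + 1) := by
      rw [hr, ← pow_mul, ← Real.rpow_natCast, ← Real.rpow_mul hk0.le]
      congr 1
      push_cast
      field_simp
    calc _ ≤ (119 * D * r ^ 2) ^ (H + 1) := by
          refine pow_le_pow_left₀ (by positivity) ?_ _
          nlinarith
      _ = _ := by rw [mul_pow, b3]
  calc _ ≤ _ := h4
    _ ≤ (6 * (k : ℝ) ^ 2) * ((2 * H + 2) ^ (2 * D) * (k : ℝ) ^ 2) *
        ((119 * D) ^ (H + 1) * (k : ℝ) ^ (2 * ((H : ℝ) + 1) / D)) := by gcongr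
    _ = _ := by
        rw [Real.rpow_add hk0, show (4 : ℝ) = ((4 : ℕ) : ℝ) by norm_num, Real.rpow_natCast]
        ring

end Pool.Agent.Work.MP_807b32_lc.Tree
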