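import Pool.Agent.Work.MP_807b32_lc.TreeGap
import Pool.Agent.Work.MP_807b32_lc.TreeCode
import Pool.Agent.Work.MP_807b32_lc.TreeMain
import Mathlib.Data.Nat.Log
import Mathlib.Data.Nat.Sqrt

/-!
The branching program built from the machine with rounded accumulators, and its size.
-/

namespace Pool.Agent.Work.MP_807b32_lc.Tree

theorem exists_gap_prog (H k b w : ℕ) (hb : 0 < b) (hw : 2 ≤ w) (hk : k ≤ b ^ (8 * w)) :
    ∃ (S : Type) (_ : Fintype S) (P : BP (Var k H) k S), Computes P ∧ Thrifty P ∧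
      Fintype.card S ≤ (k ^ 2 + 5) * (7 * (32 * (8 * b) ^ 2 + 8)) ^ H *
        (((H + 1) * (8 * b)) ^ (2 * (8 * w)) * modu (8 * w) (8 * b)) + 1 := by
  obtain ⟨e, he⟩ := exists_code k (8 * b) (8 * w) (8 * w) (by
    rw [← mul_pow, mul_pow 8 b, mul_comm]
    exact Nat.mul_le_mul_left _ hk)
  have he' : ∀ a c, a ≠ c → 8 * (w : ℤ) ≤ dist2 e a c := fun a c h => by
    exact_mod_cast he a c h
  have hinj : Function.Injective e := by
    intro a c hac
    by_contra hne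
    have h1 := he' a c hne
    have h2 : dist2 e a c = 0 := by simp [dist2, hac]
    omega
  have hb2 : 1 ≤ (8 * b) ^ 2 := Nat.one_le_pow _ _ (by omega)
  obtain ⟨G, hG, h1⟩ := exists_gSpec (w := w) (m := 32 * (8 * b) ^ 2 + 7) (by omega)
    (by nlinarith) (by unfold modu; nlinarith) he' ((H + 1) * (8 * b)) H
  let _ : Fintype (top e G).C := G.fin
  refine ⟨_, inferInstance, prog hinj G, fun I => ⟨⟨_, prog_complete hG I⟩,
    fun o qs h => (prog_sound hG h).1⟩, fun I o qs h => (prog_sound hG h).2, ?_⟩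
  have hc : Fintype.card (top e G).C = G.size := rfl
  rw [Fintype.card_option, Fintype.card_prod, Fintype.card_prod, Fintype.card_prod, hc,
    Fintype.card_fun, ZMod.card, Fintype.card_fin, Fintype.card_fin, ← pow_add, ← two_mul]
  gcongr

theorem exists_small_prog (H k : ℕ) (hk : 0 < k) :
    ∃ (S : Type) (_ : Fintype S) (P : BP (Var k H) k S), Computes P ∧ Thrifty P ∧
      Fintype.card S ≤ k ^ 4 * 2 ^ (203 * (H + 1 +
        Nat.sqrt ((H + 1) * Nat.clog 2 k * Nat.clog 2 (H + 2)))) := by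
  set L := Nat.clog 2 k with hL
  set l := Nat.clog 2 (H + 2) with hl
  set s := Nat.sqrt ((H + 1) * L * l) with hs
  have hl1 : 0 < l := Nat.clog_pos (by norm_num) (by omega)
  have hl2 : l ≤ H + 1 := Nat.clog_le_of_le_pow (Nat.lt_two_pow_self (n := H + 1))
  have hl3 : H + 1 ≤ 2 ^ l := (Nat.le_succ _).trans (Nat.le_pow_clog (by norm_num) _)
  have hL1 : k ≤ 2 ^ L := Nat.le_pow_clog (by norm_num) _
  have hL2 : 2 ^ L ≤ 2 * k := by
    rcases Nat.lt_or_ge 1 k with h | h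
    · have h1 := Nat.pow_pred_clog_lt_self (b := 2) (by norm_num) h
      have h2 : 0 < L := Nat.clog_pos (by norm_num) h
      obtain ⟨L', h3⟩ := Nat.exists_eq_succ_of_ne_zero h2.ne'
      rw [← hL, h3, Nat.pred_succ] at h1
      rw [h3, pow_succ]
      omega
    · have : L = 0 := Nat.clog_of_right_le_one h 2
      rw [this]
      omega
  set w := s / l + 2 with hw
  have hw1 : w * l ≤ s + 2 * (H + 1) := by
    have := Nat.div_mul_le_self s l
    rw [hw, add_mul]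
    omega
  have hw2 : s + 1 ≤ w * l := by
    have := Nat.lt_div_mul_add (a := s) hl1
    rw [hw, add_mul]
    omega
  have hw0 : 2 ≤ w := Nat.le_add_left _ _
  clear_value w
  have hw3 : w ≤ s + 2 * (H + 1) := (Nat.le_mul_of_pos_right w hl1).trans hw1
  set u := L / (8 * w) with hu
  have hu1 : u * (8 * w) ≤ L := Nat.div_mul_le_self _ _
  have hu2 : L ≤ (u + 1) * (8 * w) := by
    have := Nat.lt_div_mul_add (a := L) (show 0 < 8 * w by omega)
    rw [add_mul, one_mul]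
    exact this.le
  have hu3 : (H + 1) * u ≤ s + 2 * (H + 1) := by
    have h1 : (H + 1) * L * l < (s + 1) * (s + 1) := Nat.lt_succ_sqrt _
    have h2 : (s + 1) * (s + 1) ≤ (w * l) * (w * l) := Nat.mul_le_mul hw2 hw2
    have h3 : (H + 1) * (u * (8 * w)) * l ≤ (H + 1) * L * l := by gcongr
    have h4 : (8 * ((H + 1) * u)) * (w * l) < (w * l) * (w * l) := by nlinarith
    have h5 := lt_of_mul_lt_mul_right h4 (Nat.zero_le _)
    omega
  obtain ⟨S, hS, P, h1, h2, h3⟩ := exists_gap_prog H k (2 ^ (u + 1)) w (by positivity) (by omega)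
    (by rw [← pow_mul]; exact hL1.trans (Nat.pow_le_pow_right (by norm_num) hu2))
  refine ⟨S, hS, P, h1, h2, h3.trans ?_⟩
  have hB : (8 * 2 ^ (u + 1)) ^ 2 = 2 ^ (2 * u + 8) := by ring
  have hB1 : 1 ≤ 2 ^ (2 * u + 8) := Nat.one_le_two_pow
  have a1 : k ^ 2 + 5 ≤ 2 ^ 3 * k ^ 2 := by nlinarith
  have a2 : (7 * (32 * (8 * 2 ^ (u + 1)) ^ 2 + 8)) ^ H ≤ 2 ^ ((2 * u + 17) * H) := by
    rw [pow_mul]
    refine Nat.pow_le_pow_left ?_ _
    rw [hB, show 2 * u + 17 = (2 * u + 8) + 9 by ring, pow_add 2 (2 * u + 8) 9]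
    omega
  have a3 : ((H + 1) * (8 * 2 ^ (u + 1))) ^ (2 * (8 * w)) ≤
      2 ^ (16 * (w * l) + 64 * w + 2) * k ^ 2 := by
    have b1 : (H + 1) ^ (2 * (8 * w)) ≤ 2 ^ (16 * (w * l)) := by
      calc _ ≤ (2 ^ l) ^ (2 * (8 * w)) := Nat.pow_le_pow_left hl3 _
        _ = _ := by rw [← pow_mul]; congr 1; ring
    have b2 : (8 * 2 ^ (u + 1)) ^ (2 * (8 * w)) ≤ 2 ^ (64 * w + 2) * k ^ 2 := by
      calc _ = 2 ^ (64 * w) * (2 ^ (u * (8 * w))) ^ 2 := by
            rw [show 8 * 2 ^ (u + 1) = 2 ^ (u + 4) by ring, ← pow_mul, ← pow_mul, ← pow_add]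
            congr 1
            ring
        _ ≤ 2 ^ (64 * w) * (2 * k) ^ 2 := by
            gcongr
            exact (Nat.pow_le_pow_right (by norm_num) hu1).trans hL2
        _ = _ := by ring
    calc _ = _ := mul_pow _ _ _
      _ ≤ 2 ^ (16 * (w * l)) * (2 ^ (64 * w + 2) * k ^ 2) := Nat.mul_le_mul b1 b2
      _ = _ := by ring
  have a4 : modu (8 * w) (8 * 2 ^ (u + 1)) ≤ 2 ^ (8 * w + (2 * u + 11)) := by
    have b1 : 8 * w ≤ 2 ^ (8 * w) := Nat.lt_two_pow_self.le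
    have b2 : 1 ≤ 8 * w * 2 ^ (2 * u + 8) := Nat.mul_pos (by omega) (by positivity)
    calc 4 * (8 * w) * (8 * 2 ^ (u + 1)) ^ 2 + 1 ≤ 8 * (8 * w * 2 ^ (2 * u + 8)) := by
          rw [hB, mul_assoc 4]; omega
      _ ≤ 8 * (2 ^ (8 * w) * 2 ^ (2 * u + 8)) := by gcongr
      _ = _ := by ring
  have hpos : 1 ≤ k ^ 4 * 2 ^ (3 + (2 * u + 17) * H + (16 * (w * l) + 64 * w + 2)
      + (8 * w + (2 * u + 11))) := Nat.mul_pos (by positivity) (by positivity)
  calc _ ≤ (2 ^ 3 * k ^ 2) * 2 ^ ((2 * u + 17) * H) *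
        ((2 ^ (16 * (w * l) + 64 * w + 2) * k ^ 2) * 2 ^ (8 * w + (2 * u + 11))) + 1 := by gcongr
    _ = k ^ 4 * 2 ^ (3 + (2 * u + 17) * H + (16 * (w * l) + 64 * w + 2)
        + (8 * w + (2 * u + 11))) + 1 := by ring
    _ ≤ 2 * (k ^ 4 * 2 ^ (3 + (2 * u + 17) * H + (16 * (w * l) + 64 * w + 2)
        + (8 * w + (2 * u + 11)))) := by omega
    _ = k ^ 4 * 2 ^ (4 + (2 * u + 17) * H + (16 * (w * l) + 64 * w + 2)
        + (8 * w + (2 * u + 11))) := by ring
    _ ≤ _ := by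
        refine Nat.mul_le_mul_left _ (Nat.pow_le_pow_right (by norm_num) ?_)
        nlinarith

end Pool.Agent.Work.MP_807b32_lc.Tree
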